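import Pool.Agent.H60.TB.WuS
import Pool.Agent.H3.LG.Cmp

/-! WU-GRON (helper14): three comparisons on `[0, 110]`. -/

set_option autoImplicit false

open Complex Set
open Pool.Agent.H99.TB hiding Ph acc phaseSpace IsSol
open Pool.Agent.H3.LG

namespace Pool.Agent.H60.TB

namespace GronP

/-! ### the masses -/

lemma nn_add (x y : E) : nn (x + y) ≤ nn x + nn y := by
  have nn_eq : ∀ x : E, nn x = ‖(WithLp.toLp 2 ![x.1, x.2, x.1 + x.2] : EuclideanSpace ℂ (Fin 3))‖ := by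
    intro x
    rw [EuclideanSpace.norm_eq, Fin.sum_univ_three]
    rfl
  rw [nn_eq, nn_eq x, nn_eq y]
  refine le_trans (le_of_eq ?_) (norm_add_le _ _)
  congr 1
  ext i
  fin_cases i
  · rfl
  · rfl
  · simp; ring

lemma nn_le (x : E) {M : ℝ} (h1 : ‖x.1‖ ≤ M) (h2 : ‖x.2‖ ≤ M) : nn x ≤ 5 / 2 * M := by
  have hM : 0 ≤ M := (norm_nonneg _).trans h1
  unfold nn
  apply Real.sqrt_le_iff.2
  refine ⟨by positivity, ?_⟩
  have h3 : ‖x.1 + x.2‖ ≤ 2 * M := (norm_add_le _ _).trans (by linarith)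
  have a1 : ‖x.1‖ ^ 2 ≤ M ^ 2 := by gcongr
  have a2 : ‖x.2‖ ^ 2 ≤ M ^ 2 := by gcongr
  have a3 : ‖x.1 + x.2‖ ^ 2 ≤ (2 * M) ^ 2 := by gcongr
  nlinarith

lemma kep_le {x : ℂ} (h : 4 / 5 ≤ ‖x‖) : ‖kep x‖ ≤ 2 := by
  have h0 : 0 < ‖x‖ := by linarith
  rw [kep, norm_mul, Complex.norm_real, Real.norm_of_nonneg (by positivity)]
  have e : 1 / ‖x‖ ^ 3 * ‖x‖ = 1 / ‖x‖ ^ 2 := by field_simp
  rw [e, div_le_iff₀ (by positivity)]
  nlinarith

lemma mass {m : Fin 3 → ℝ} {η : ℝ} (hm : Near3 m η) {x : E} (h1 : 4 / 5 ≤ ‖x.1‖) (h2 : 4 / 5 ≤ ‖x.2‖)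
    (h3 : 4 / 5 ≤ ‖x.1 + x.2‖) :
    nn (rf kep (1 / 3) (1 / 3) (1 / 3) x - rf kep (m 0) (m 1) (m 2) x) ≤ 20 * η := by
  have hη : 0 ≤ η := (abs_nonneg _).trans (hm.2 0)
  have k1 := kep_le h1
  have k2 := kep_le h2
  have k3 := kep_le h3
  have key : ∀ a b : ℝ, |a| ≤ 2 * η → |b| ≤ η → ∀ p q r : ℂ, ‖p‖ ≤ 2 → ‖q‖ ≤ 2 → ‖r‖ ≤ 2 →
      ‖(a : ℂ) * p + (b : ℂ) * (q - r)‖ ≤ 8 * η := by
    intro a b ha hb p q r hp hq hr
    refine (norm_add_le _ _).trans ?_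
    rw [norm_mul, norm_mul, Complex.norm_real, Complex.norm_real, Real.norm_eq_abs, Real.norm_eq_abs]
    have hqr : ‖q - r‖ ≤ 4 := (norm_sub_le _ _).trans (by linarith)
    have i1 : |a| * ‖p‖ ≤ (2 * η) * 2 := by gcongr
    have i2 : |b| * ‖q - r‖ ≤ η * 4 := by gcongr
    linarith
  have two : ∀ i j : Fin 3, |m i + m j - 2 / 3| ≤ 2 * η := by
    intro i j
    have a1 := abs_le.1 (hm.2 i)
    have a2 := abs_le.1 (hm.2 j)
    rw [abs_le]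
    constructor <;> linarith [a1.1, a1.2, a2.1, a2.2]
  have neg : ∀ i : Fin 3, |1 / 3 - m i| ≤ η := by
    intro i; rw [abs_sub_comm]; exact hm.2 i
  have := nn_le (rf kep (1 / 3) (1 / 3) (1 / 3) x - rf kep (m 0) (m 1) (m 2) x) (M := 8 * η) ?_ ?_
  · linarith
  · have e : (rf kep (1 / 3) (1 / 3) (1 / 3) x - rf kep (m 0) (m 1) (m 2) x).1 =
        ((m 0 + m 1 - 2 / 3 : ℝ) : ℂ) * kep x.1 + ((1 / 3 - m 2 : ℝ) : ℂ) * (kep x.2 - kep (x.1 + x.2)) := by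
      simp only [rf, Prod.fst_sub]
      push_cast
      ring
    rw [e]
    exact key _ _ (two 0 1) (neg 2) _ _ _ k1 k2 k3
  · have e : (rf kep (1 / 3) (1 / 3) (1 / 3) x - rf kep (m 0) (m 1) (m 2) x).2 =
        ((m 1 + m 2 - 2 / 3 : ℝ) : ℂ) * kep x.2 + ((1 / 3 - m 0 : ℝ) : ℂ) * (kep x.1 - kep (x.1 + x.2)) := by
      simp only [rf, Prod.snd_sub]
      push_cast
      ring
    rw [e]
    exact key _ _ (two 1 2) (neg 0) _ _ _ k2 k1 k3

/-! ### numbers -/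

lemma sqrt2_lo : (141421356 / 10 ^ 8 : ℝ) ≤ Real.sqrt 2 := by
  apply Real.le_sqrt_of_sq_le; norm_num

lemma sqrt2_hi : Real.sqrt 2 ≤ 141421357 / 10 ^ 8 := by
  rw [Real.sqrt_le_iff]; norm_num

/-- `xx 0 ^ 2` is tiny -/
lemma exp_lo : Real.exp (-(311 / 2)) ≤ 3 / 10 ^ 68 := by
  have h1 : (1625 / 1000 : ℝ) ≤ Real.exp (1 / 2) := by
    have := Real.quadratic_le_exp_of_nonneg (x := 1 / 2) (by norm_num)
    norm_num at this ⊢
    linarith
  have h2 : (27182818283 / 10 ^ 10 : ℝ) < Real.exp 1 := by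
    have := Real.exp_one_gt_d9; norm_num at this ⊢; linarith
  have h3 : Real.exp (311 / 2) = Real.exp 1 ^ 155 * Real.exp (1 / 2) := by
    rw [← Real.exp_nat_mul, ← Real.exp_add]; norm_num
  have h4 : (10 ^ 68 / 3 : ℝ) ≤ Real.exp (311 / 2) := by
    rw [h3]
    calc (10 ^ 68 / 3 : ℝ) ≤ (27182818283 / 10 ^ 10) ^ 155 * (1625 / 1000) := by norm_num
      _ ≤ _ := by gcongr
  rw [Real.exp_neg, inv_le_comm₀ (Real.exp_pos _) (by norm_num)]
  refine le_trans ?_ h4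
  norm_num

lemma exp_hi : Real.exp (293 / 2) ≤ 43 / 10 * 10 ^ 63 := by
  have h2 : Real.exp 1 < (27182818286 / 10 ^ 10 : ℝ) := by
    have := Real.exp_one_lt_d9; norm_num at this ⊢; linarith
  have h1 : Real.exp (1 / 2) ≤ 16488 / 10000 := by
    have e : Real.exp (1 / 2) ^ 2 = Real.exp 1 := by
      rw [← Real.exp_nat_mul]; norm_num
    by_contra hc
    push Not at hc
    have : (16488 / 10000 : ℝ) ^ 2 ≤ Real.exp (1 / 2) ^ 2 := by gcongr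
    rw [e] at this
    norm_num at this h2
    linarith
  have h3 : Real.exp (293 / 2) = Real.exp 1 ^ 146 * Real.exp (1 / 2) := by
    rw [← Real.exp_nat_mul, ← Real.exp_add]; norm_num
  rw [h3]
  calc Real.exp 1 ^ 146 * Real.exp (1 / 2) ≤ (27182818286 / 10 ^ 10) ^ 146 * (16488 / 10000) := by gcongr
    _ ≤ _ := by norm_num

lemma exp_6 : Real.exp 6 ≤ 404 := by
  have h2 : Real.exp 1 < (27182818286 / 10 ^ 10 : ℝ) := by
    have := Real.exp_one_lt_d9; norm_num at this ⊢; linarith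
  have h3 : Real.exp 6 = Real.exp 1 ^ 6 := by
    rw [← Real.exp_nat_mul]; norm_num
  rw [h3]
  calc Real.exp 1 ^ 6 ≤ (27182818286 / 10 ^ 10) ^ 6 := by gcongr
    _ ≤ _ := by norm_num

lemma xx_sq (t : ℝ) : xx t ^ 2 = Real.exp (Real.sqrt 2 * (t - 110)) := by
  have h2 : Real.sqrt 2 * Real.sqrt 2 = 2 := Real.mul_self_sqrt (by norm_num)
  have h0 : Real.sqrt 2 ≠ 0 := (Real.sqrt_pos.2 (by norm_num)).ne'
  rw [xx, ← Real.exp_nat_mul]
  congr 1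
  push_cast
  field_simp
  linear_combination (110 - t) * h2

lemma xx_pos (t : ℝ) : 0 < xx t := Real.exp_pos _

lemma xx_mono {s t : ℝ} (h : s ≤ t) : xx s ≤ xx t := by
  have h0 : 0 < Real.sqrt 2 := Real.sqrt_pos.2 (by norm_num)
  unfold xx
  apply Real.exp_le_exp.2
  gcongr

lemma xx_node {a : ℝ} (ha : 0 < a) : xx (110 - Real.sqrt 2 * Real.log a) = 1 / a := by
  have h0 : Real.sqrt 2 ≠ 0 := (Real.sqrt_pos.2 (by norm_num)).ne'
  have e : (110 - Real.sqrt 2 * Real.log a - 110) / Real.sqrt 2 = -Real.log a := by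
    field_simp
    ring
  rw [xx, e, Real.exp_neg, Real.exp_log ha, one_div]

/-- one stage -/
lemma stage {m : Fin 3 → ℝ} (hm : Near3 m (1 / 10 ^ 200)) {γ : ℝ → E × E} (hγ : Sol m γ) {p pd pdd : ℝ → E}
    (hp : ∀ t, HasDerivAt p (pd t) t) (hpd : ∀ t, HasDerivAt pd (pdd t) t)
    (hdef : ∀ t ∈ Icc (0 : ℝ) 110, nn (pdd t - rf kep (1 / 3) (1 / 3) (1 / 3) (p t)) ≤ 5 / 10 ^ 33 * xx t ^ 2)
    (hside : ∀ t ∈ Icc (0 : ℝ) 110, 1 - 3 / 20 * xx t ≤ ‖(p t).1‖ ∧ 1 - 3 / 20 * xx t ≤ ‖(p t).2‖ ∧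
      1 - 3 / 20 * xx t ≤ ‖(p t).1 + (p t).2‖)
    (hv : ∀ t ∈ Icc (0 : ℝ) 110, ‖(pd t).1‖ ≤ 3 ∧ ‖(pd t).2‖ ≤ 3)
    {t0 t1 κ κ1 C L r xm q0 : ℝ} (h0 : 0 ≤ t0) (h1 : t1 ≤ 110) (hκ : 0 < κ) (hκ2 : κ ≤ 2) (hκ1 : Real.sqrt 2 ≤ κ1)
    (hκκ : κ < κ1) (hC : 0 < C) (hr : r = 1 - 3 / 20 * xm - 1 / 10 ^ 20) (hr1 : 4 / 5 ≤ r)
    (hL : 2 / r ^ 3 ≤ L) (hLκ : (1 + 9 * (1 / 10 ^ 200)) * L ≤ κ ^ 2) (hxm : ∀ t, t ≤ t1 → xx t ≤ xm)
    (hq0 : xx t0 ^ 2 ≤ q0) (hq1 : 5 / 10 ^ 33 * q0 + 21 / 10 ^ 200 < (κ1 - κ) * C)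
    (hE : C * Real.exp (κ1 * (t1 - t0)) ≤ κ * (1 / 10 ^ 20))
    (h01 : κ * nn ((γ t0).1 - p t0) ≤ C) (h02 : nn ((γ t0).2 - pd t0) ≤ C) :
    ∀ t ∈ Icc t0 t1, κ * nn ((γ t).1 - p t) ≤ C * Real.exp (κ1 * (t - t0)) ∧
      nn ((γ t).2 - pd t) ≤ C * Real.exp (κ1 * (t - t0)) := by
  have hin : ∀ t ∈ Icc t0 t1, t ∈ Icc (0 : ℝ) 110 := fun t ht => ⟨h0.trans ht.1, ht.2.trans h1⟩
  have hκ10 : 0 < κ1 := hκ.trans hκκ
  have hsd : ∀ t ∈ Icc t0 t1, r + 1 / 10 ^ 20 ≤ ‖(p t).1‖ ∧ r + 1 / 10 ^ 20 ≤ ‖(p t).2‖ ∧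
      r + 1 / 10 ^ 20 ≤ ‖(p t).1 + (p t).2‖ := by
    intro t ht
    obtain ⟨a1, a2, a3⟩ := hside t (hin t ht)
    have := hxm t ht.2
    refine ⟨?_, ?_, ?_⟩ <;> linarith
  have hb : ∀ t ∈ Icc t0 t1, HasDerivAt (fun s => C * Real.exp (κ1 * (s - t0)))
      (κ1 * (C * Real.exp (κ1 * (t - t0)))) t := by
    intro t _
    have h2 : HasDerivAt (fun s : ℝ => κ1 * (s - t0)) (κ1 * 1) t := ((hasDerivAt_id t).sub_const t0).const_mul _
    exact ((h2.exp).const_mul C).congr_deriv (by ring)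
  have hr0 : 0 < r := by linarith
  have hl : 2 / 3 * (2 / r ^ 3) + 1 / 3 * (2 / r ^ 3) ≤ L := by linarith
  refine compare2 hm (by norm_num) hγ (p := p) (pd := pd) (pdd := pdd) (α := t0) (β := t1) (κ := κ)
    (R := 1 / 10 ^ 20) (L := L) (r1 := r) (r2 := r) (r3 := r) (b := fun s => C * Real.exp (κ1 * (s - t0)))
    (b' := fun t => κ1 * (C * Real.exp (κ1 * (t - t0))))
    (δ := fun t => 5 / 10 ^ 33 * xx t ^ 2 + 20 * (1 / 10 ^ 200))
    (fun t _ => hp t) (fun t _ => hpd t) hb hκ (by linarith) (by linarith) (by linarith) hl hl hl hl hl hl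
    (fun t ht => (hsd t ht).1) (fun t ht => (hsd t ht).2.1) (fun t ht => (hsd t ht).2.2) ?_ ?_ hLκ ?_ ?_ ?_ ?_ ?_
  · intro t ht
    have := (hv t (hin t ht)).1
    linarith
  · intro t ht
    have := (hv t (hin t ht)).2
    linarith
  · intro t ht
    have e : pdd t - rf kep (m 0) (m 1) (m 2) (p t) = (pdd t - rf kep (1 / 3) (1 / 3) (1 / 3) (p t)) +
        (rf kep (1 / 3) (1 / 3) (1 / 3) (p t) - rf kep (m 0) (m 1) (m 2) (p t)) := by abel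
    rw [e]
    refine (nn_add _ _).trans (add_le_add (hdef t (hin t ht)) ?_)
    obtain ⟨a1, a2, a3⟩ := hsd t ht
    exact mass hm (by linarith) (by linarith) (by linarith)
  · intro t ht
    refine le_trans ?_ hE
    have : Real.exp (κ1 * (t - t0)) ≤ Real.exp (κ1 * (t1 - t0)) := by
      apply Real.exp_le_exp.2
      have := ht.2
      gcongr
    gcongr
  · intro t ht
    have ht0 : 0 ≤ t - t0 := by linarith [ht.1]
    have e1 : xx t ^ 2 ≤ q0 * Real.exp (κ1 * (t - t0)) := by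
      have e2 : xx t ^ 2 = xx t0 ^ 2 * Real.exp (Real.sqrt 2 * (t - t0)) := by
        rw [xx_sq, xx_sq, ← Real.exp_add]; congr 1; ring
      rw [e2]
      have e3 : Real.exp (Real.sqrt 2 * (t - t0)) ≤ Real.exp (κ1 * (t - t0)) := by
        apply Real.exp_le_exp.2
        gcongr
      have q00 : 0 ≤ q0 := (sq_nonneg _).trans hq0
      calc xx t0 ^ 2 * Real.exp (Real.sqrt 2 * (t - t0)) ≤ q0 * Real.exp (κ1 * (t - t0)) := by gcongr
        _ = _ := rfl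
    have e4 : 1 ≤ Real.exp (κ1 * (t - t0)) := Real.one_le_exp (by positivity)
    obtain ⟨X, hX⟩ : ∃ X, X = Real.exp (κ1 * (t - t0)) := ⟨_, rfl⟩
    rw [← hX] at e1 e4 ⊢
    have h3 : (5 / 10 ^ 33 * q0 + 21 / 10 ^ 200) * X < (κ1 - κ) * C * X := by
      apply mul_lt_mul_of_pos_right hq1; linarith
    have h4 : (20 : ℝ) * (1 / 10 ^ 200) ≤ 21 / 10 ^ 200 * X := by
      have : (21 : ℝ) / 10 ^ 200 * 1 ≤ 21 / 10 ^ 200 * X := by gcongr
      refine le_trans ?_ this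
      norm_num
    have h5 : (5 : ℝ) / 10 ^ 33 * xx t ^ 2 ≤ 5 / 10 ^ 33 * (q0 * X) := by gcongr
    nlinarith
  · simpa using h01
  · simpa using h02

end GronP

open GronP in
theorem gron : S_GRON := by
  refine ⟨1 / 10 ^ 200, by positivity, ?_⟩
  intro m hm γ hγ p pd pdd hp hpd hdef hside hv h01 h02
  have s2lo := sqrt2_lo
  have s2hi := sqrt2_hi
  have l2lo := Real.log_two_gt_d9
  have l2hi := Real.log_two_lt_d9
  obtain ⟨w, hw⟩ : ∃ w, w = Real.sqrt 2 := ⟨_, rfl⟩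
  obtain ⟨ℓ, hℓ⟩ : ∃ ℓ, ℓ = Real.log 2 := ⟨_, rfl⟩
  rw [← hw] at s2lo s2hi
  rw [← hℓ] at l2lo l2hi
  have L128 : Real.log 128 = 7 * ℓ := by
    rw [show (128 : ℝ) = 2 ^ 7 by norm_num, Real.log_pow, hℓ]; norm_num
  have L8 : Real.log 8 = 3 * ℓ := by
    rw [show (8 : ℝ) = 2 ^ 3 by norm_num, Real.log_pow, hℓ]; norm_num
  have wl1 : (141421356 / 10 ^ 8 : ℝ) * 0.6931471803 ≤ w * ℓ := by
    have : (0 : ℝ) ≤ 0.6931471803 := by norm_num
    gcongr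
  have wl2 : w * ℓ ≤ (141421357 / 10 ^ 8 : ℝ) * 0.6931471808 := by
    have : (0 : ℝ) ≤ ℓ := by linarith
    gcongr
  norm_num at wl1 wl2
  obtain ⟨t1, ht1⟩ : ∃ t1, t1 = 110 - Real.sqrt 2 * Real.log 128 := ⟨_, rfl⟩
  obtain ⟨t2, ht2⟩ : ∃ t2, t2 = 110 - Real.sqrt 2 * Real.log 8 := ⟨_, rfl⟩
  have ht1' : t1 = 110 - 7 * (w * ℓ) := by rw [ht1, L128, hw]; ring
  have ht2' : t2 = 110 - 3 * (w * ℓ) := by rw [ht2, L8, hw]; ring
  have X1 : xx t1 = 1 / 128 := by rw [ht1]; exact xx_node (by norm_num)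
  have X2 : xx t2 = 1 / 8 := by rw [ht2]; exact xx_node (by norm_num)
  have X3 : xx 110 = 1 := by rw [xx]; simp
  have x0 : xx 0 ^ 2 ≤ 3 / 10 ^ 68 := by
    rw [xx_sq]
    refine le_trans (Real.exp_le_exp.2 ?_) exp_lo
    rw [← hw]; nlinarith
  have E1 : Real.exp (142 / 100 * (t1 - 0)) ≤ 43 / 10 * 10 ^ 63 :=
    (Real.exp_le_exp.2 (by linarith)).trans exp_hi
  have E2 : Real.exp (147 / 100 * (t2 - t1)) ≤ 404 := (Real.exp_le_exp.2 (by linarith)).trans exp_6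
  have E3 : Real.exp (182 / 100 * (110 - t2)) ≤ 404 := (Real.exp_le_exp.2 (by linarith)).trans exp_6
  have N1 : 7 / 10 ^ 98 * Real.exp (142 / 100 * (t1 - 0)) ≤ 301 / 10 ^ 36 := by
    calc 7 / 10 ^ 98 * Real.exp (142 / 100 * (t1 - 0)) ≤ 7 / 10 ^ 98 * (43 / 10 * 10 ^ 63) := by gcongr
      _ = _ := by norm_num
  have S1 := stage hm hγ hp hpd hdef hside hv (t0 := 0) (t1 := t1) (κ := 1417 / 1000) (κ1 := 142 / 100)
    (C := 7 / 10 ^ 98) (L := 20071 / 10000) (r := 1 - 3 / 20 * (1 / 128) - 1 / 10 ^ 20) (xm := 1 / 128)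
    (q0 := 3 / 10 ^ 68) le_rfl (by linarith) (by norm_num) (by norm_num) (by rw [← hw]; linarith) (by norm_num)
    (by positivity) rfl (by norm_num) (by norm_num) (by norm_num) (fun t ht => X1 ▸ xx_mono ht) x0 (by norm_num)
    (N1.trans (by norm_num)) (by
      calc 1417 / 1000 * nn ((γ 0).1 - p 0) ≤ 1417 / 1000 * (1 / 10 ^ 98) := by gcongr
        _ ≤ _ := by norm_num) (h02.trans (by norm_num))
  have e1 := S1 t1 ⟨by linarith, le_rfl⟩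
  have N2 : 31 / 10 ^ 35 * Real.exp (147 / 100 * (t2 - t1)) ≤ 12524 / 10 ^ 35 := by
    calc 31 / 10 ^ 35 * Real.exp (147 / 100 * (t2 - t1)) ≤ 31 / 10 ^ 35 * 404 := by gcongr
      _ = _ := by norm_num
  have S2 := stage hm hγ hp hpd hdef hside hv (t0 := t1) (t1 := t2) (κ := 1456 / 1000) (κ1 := 147 / 100)
    (C := 31 / 10 ^ 35) (L := 2117 / 1000) (r := 1 - 3 / 20 * (1 / 8) - 1 / 10 ^ 20) (xm := 1 / 8)
    (q0 := 1 / 16384) (by linarith) (by linarith) (by norm_num) (by norm_num) (by rw [← hw]; linarith) (by norm_num)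
    (by positivity) rfl (by norm_num) (by norm_num) (by norm_num) (fun t ht => X2 ▸ xx_mono ht)
    (by rw [X1]; norm_num) (by norm_num)
    (N2.trans (by norm_num)) (by linarith [e1.1.trans N1]) (by linarith [e1.2.trans N1])
  have e2 := S2 t2 ⟨by linarith, le_rfl⟩
  have N3 : 156 / 10 ^ 33 * Real.exp (182 / 100 * (110 - t2)) ≤ 63024 / 10 ^ 33 := by
    calc 156 / 10 ^ 33 * Real.exp (182 / 100 * (110 - t2)) ≤ 156 / 10 ^ 33 * 404 := by gcongr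
      _ = _ := by norm_num
  have S3 := stage hm hγ hp hpd hdef hside hv (t0 := t2) (t1 := 110) (κ := 1805 / 1000) (κ1 := 182 / 100)
    (C := 156 / 10 ^ 33) (L := 32567 / 10000) (r := 1 - 3 / 20 * 1 - 1 / 10 ^ 20) (xm := 1)
    (q0 := 1 / 64) (by linarith) le_rfl (by norm_num) (by norm_num) (by rw [← hw]; linarith) (by norm_num)
    (by positivity) rfl (by norm_num) (by norm_num) (by norm_num) (fun t ht => X3 ▸ xx_mono ht)
    (by rw [X2]; norm_num) (by norm_num)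
    (N3.trans (by norm_num)) (by linarith [e2.1.trans N2]) (by linarith [e2.2.trans N2])
  have e3 := S3 110 ⟨by linarith, le_rfl⟩
  -- smallness everywhere
  have mono : ∀ {C κ1 a b t : ℝ}, 0 < C → 0 < κ1 → t ≤ b → C * Real.exp (κ1 * (t - a)) ≤
      C * Real.exp (κ1 * (b - a)) := by
    intro C κ1 a b t hC hκ ht
    have : Real.exp (κ1 * (t - a)) ≤ Real.exp (κ1 * (b - a)) := by
      apply Real.exp_le_exp.2; gcongr
    gcongr
  have small : ∀ t ∈ Icc (0 : ℝ) 110, nn ((γ t).1 - p t) ≤ 1 / 100 ∧ nn ((γ t).2 - pd t) ≤ 1 / 100 := by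
    intro t ht
    rcases le_total t t1 with h | h
    · have a := S1 t ⟨ht.1, h⟩
      have b := mono (C := 7 / 10 ^ 98) (κ1 := 142 / 100) (a := 0) (by positivity) (by norm_num) h
      constructor <;> linarith [a.1.trans (b.trans N1), a.2.trans (b.trans N1)]
    · rcases le_total t t2 with h' | h'
      · have a := S2 t ⟨h, h'⟩
        have b := mono (C := 31 / 10 ^ 35) (κ1 := 147 / 100) (a := t1) (by positivity) (by norm_num) h'
        constructor <;> linarith [a.1.trans (b.trans N2), a.2.trans (b.trans N2)]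
      · have a := S3 t ⟨h', ht.2⟩
        have b := mono (C := 156 / 10 ^ 33) (κ1 := 182 / 100) (a := t2) (by positivity) (by norm_num) ht.2
        constructor <;> linarith [a.1.trans (b.trans N3), a.2.trans (b.trans N3)]
  refine ⟨?_, ?_, ?_⟩
  · intro t ht
    obtain ⟨s1, s2⟩ := small t ht
    obtain ⟨a1, a2, a3⟩ := hside t ht
    obtain ⟨v1, v2⟩ := hv t ht
    have hx : xx t ≤ 1 := X3 ▸ xx_mono ht.2
    have lo : ∀ {x y : ℂ}, 85 / 100 ≤ ‖y‖ → ‖x - y‖ ≤ 1 / 100 → 1 / 100 < ‖x‖ := by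
      intro x y h2 h3
      have := norm_sub_norm_le y x
      rw [norm_sub_rev] at this
      linarith
    have hi : ∀ {x y : ℂ}, ‖y‖ ≤ 3 → ‖x - y‖ ≤ 1 / 100 → ‖x‖ < 32 := by
      intro x y h2 h3
      have := norm_sub_norm_le x y
      linarith
    refine ⟨lo (by linarith) ((Sy.norm_fst_le_nn ((γ t).1 - p t)).trans s1),
      lo (by linarith) ((Sy.norm_snd_le_nn ((γ t).1 - p t)).trans s1), lo (y := (p t).1 + (p t).2) (by linarith) ?_,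
      hi v1 ((Sy.norm_fst_le_nn ((γ t).2 - pd t)).trans s2), hi v2 ((Sy.norm_snd_le_nn ((γ t).2 - pd t)).trans s2)⟩
    have e : (γ t).1.1 + (γ t).1.2 - ((p t).1 + (p t).2) = ((γ t).1 - p t).1 + ((γ t).1 - p t).2 := by
      simp only [Prod.fst_sub, Prod.snd_sub]; ring
    rw [e]
    exact (Sy.norm_add_le_nn _).trans s1
  · linarith [e3.1.trans N3]
  · linarith [e3.2.trans N3]

end Pool.Agent.H60.TB
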