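import Pool.Agent.H60.TB.Wu
import Pool.Agent.H60.TB.Gron

/-! WU, final. -/

set_option autoImplicit false

namespace Pool.Agent.H60.TB

theorem wu' : Pool.Agent.H3.LP.S_WU' := wu_of gron

theorem wu : Pool.Agent.H3.LG.S_WU := Pool.Agent.H3.LP.S_WU_of wu'

end Pool.Agent.H60.TB
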