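import Pool.Agent.H60.TB.Wkh

set_option autoImplicit false
set_option maxRecDepth 100000

namespace Pool.Agent.H60.TB

theorem chk2'_ok : chk2' = true := by decide +kernel

theorem chk2_ok : chk2 = true := chk2_eq ▸ chk2'_ok

end Pool.Agent.H60.TB
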