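import Pool.Agent.H60.TB.Wk1
import Pool.Agent.H60.TB.Wk2

/-! Meaning of the kernel checks. -/

set_option autoImplicit false
set_option maxRecDepth 100000
set_option exponentiation.threshold 2000

open Polynomial H60Box

namespace Pool.Agent.H60.TB

theorem pow_xy (N n : ℕ) : ((2 : ℤ) ^ (N + 1)) ^ (n + 1) = 2 ^ ((N + 1) * (n + 1)) := by rw [← pow_mul]

theorem evr_pPl (l : Sp) (N n : ℕ) :
    (evr ((2 : ℤ) ^ (N + 1)) (((2 : ℤ) ^ (N + 1)) ^ (n + 1)) (pP l).1,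
      evr ((2 : ℤ) ^ (N + 1)) (((2 : ℤ) ^ (N + 1)) ^ (n + 1)) (pP l).2) =
    (kR l (N + 1) ((N + 1) * (n + 1)), kI l (N + 1) ((N + 1) * (n + 1))) := by
  rw [pow_xy, kR_eq, kI_eq, ← evr_pR, ← evr_pI]
  rfl

theorem evr_pPt (l : Sp) (N n : ℕ) :
    (evr ((2 : ℤ) ^ (N + 1)) (((2 : ℤ) ^ (N + 1)) ^ (n + 1)) (pP (tr l)).1,
      evr ((2 : ℤ) ^ (N + 1)) (((2 : ℤ) ^ (N + 1)) ^ (n + 1)) (pP (tr l)).2) =
    (kR l ((N + 1) * (n + 1)) (N + 1), -kI l ((N + 1) * (n + 1)) (N + 1)) := by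
  rw [pow_xy, kR_eq, kI_eq, ← vR_tr, ← vI_tr, ← evr_pR, ← evr_pI]
  rfl

/-- polynomial of the first check -/
noncomputable def x1 : ℤ[X][X] × ℤ[X][X] :=
  ((g1 (pP bl) (pP zl) (pP (tr zl))).1 - ((2 ^ 576 : ℕ) : ℤ[X][X]), (g1 (pP bl) (pP zl) (pP (tr zl))).2)

theorem chk0_parts : dg 44 zl = true ∧ dg 44 bl = true ∧ dg 44 (nzl zl) = true ∧
    totg false 0 al1 be1 44 176 + (max (n1.1 + 2 ^ 576) n1.2) < 2 ^ N1 ∧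
    totg true ga2 al2 be2 44 176 +
    (max (2 ^ 432 * nR (nzl zl) + 2 ^ 121 * n2.1) (2 ^ 432 * nI (nzl zl) + 2 ^ 121 * n2.2)) < 2 ^ N2 := by
  have h := chk0_ok
  simp only [chk0, Bool.and_eq_true, decide_eq_true_eq] at h
  exact ⟨h.1.1.1.1, h.1.1.1.2, h.1.1.2, h.1.2, h.2⟩

theorem repG_g1 : RepG (g1 (pP bl) (pP zl) (pP (tr zl))) 176 n1 := by
  obtain ⟨hz, hb, -, -, -⟩ := chk0_parts
  have h1 := repG_pP hb
  have h2 := repG_pP hz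
  have h3 := repG_pP (dg_tr 44 zl hz)
  rw [nR_tr, nI_tr] at h3
  exact (h1.mul h1).mul (h2.mul h3)

theorem repG_x1 : RepG x1 176 (n1.1 + 2 ^ 576, n1.2) := by
  refine ⟨?_, repG_g1.2⟩
  have h := (Rep.natCast (2 ^ 576)).mono (Nat.zero_le 176) (Nat.zero_le 176) le_rfl
  exact repG_g1.1.sub h

theorem val_x1 : (evr ((2 : ℤ) ^ (N1 + 1)) (((2 : ℤ) ^ (N1 + 1)) ^ (176 + 1)) x1.1,
      evr ((2 : ℤ) ^ (N1 + 1)) (((2 : ℤ) ^ (N1 + 1)) ^ (176 + 1)) x1.2) =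
    ((g1 (kb N1 176) (kz N1 176) (kzc N1 176)).1 - ((2 ^ 576 : ℕ) : ℤ),
      (g1 (kb N1 176) (kz N1 176) (kzc N1 176)).2) := by
  have e1 := evr_pPl bl N1 176
  have e2 := evr_pPl zl N1 176
  have e3 := evr_pPt zl N1 176
  have e4 := evr_gm (pP bl) (pP bl) ((2 : ℤ) ^ (N1 + 1)) (((2 : ℤ) ^ (N1 + 1)) ^ (176 + 1))
  have e5 := evr_gm (pP zl) (pP (tr zl)) ((2 : ℤ) ^ (N1 + 1)) (((2 : ℤ) ^ (N1 + 1)) ^ (176 + 1))
  have e6 := evr_gm (gm (pP bl) (pP bl)) (gm (pP zl) (pP (tr zl))) ((2 : ℤ) ^ (N1 + 1))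
    (((2 : ℤ) ^ (N1 + 1)) ^ (176 + 1))
  rw [e1] at e4
  rw [e2, e3] at e5
  rw [e4, e5] at e6
  have f1 : evr ((2 : ℤ) ^ (N1 + 1)) (((2 : ℤ) ^ (N1 + 1)) ^ (176 + 1)) (g1 (pP bl) (pP zl) (pP (tr zl))).1 =
    (g1 (kb N1 176) (kz N1 176) (kzc N1 176)).1 := congrArg Prod.fst e6
  have f2 : evr ((2 : ℤ) ^ (N1 + 1)) (((2 : ℤ) ^ (N1 + 1)) ^ (176 + 1)) (g1 (pP bl) (pP zl) (pP (tr zl))).2 =
    (g1 (kb N1 176) (kz N1 176) (kzc N1 176)).2 := congrArg Prod.snd e6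
  refine Prod.ext ?_ ?_
  · show evr _ _ (_ - _) = _
    rw [map_sub, f1, map_natCast]
  · exact f2

/-- **first check**: `β² |z|² = 1` up to a small error -/
theorem check1 (v : ℂ) (hv : ‖v‖ ≤ 1) :
    ‖evS bl v ((starRingEnd ℂ) v) ^ 2 * (evS zl v ((starRingEnd ℂ) v) *
      (starRingEnd ℂ) (evS zl v ((starRingEnd ℂ) v))) - 2 ^ 576‖ ≤
      2 * (totg false 0 al1 be1 44 176 : ℕ) * ‖v‖ ^ 2 := by
  have h := chk1_ok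
  unfold chk1 okT at h
  simp only [Bool.and_eq_true] at h
  obtain ⟨-, -, -, hB, -⟩ := chk0_parts
  rw [totg_eq] at hB ⊢
  have key := ok_sound repG_x1 al1 be1 44 N1 hB _ val_x1 h.1 h.2 v hv ((starRingEnd ℂ) v)
    (RCLike.norm_conj v)
  have e : evG x1 v ((starRingEnd ℂ) v) = evS bl v ((starRingEnd ℂ) v) ^ 2 * (evS zl v ((starRingEnd ℂ) v) *
      (starRingEnd ℂ) (evS zl v ((starRingEnd ℂ) v))) - 2 ^ 576 := by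
    have e1 : evG x1 v ((starRingEnd ℂ) v) =
        evG (g1 (pP bl) (pP zl) (pP (tr zl))) v ((starRingEnd ℂ) v) - 2 ^ 576 := by
      simp only [evG, x1, map_sub, map_natCast]
      push_cast
      ring
    rw [e1, g1, evG_gm, evG_gm, evG_gm, evG_pP, evG_pP, evG_pP, evS_tr]
    ring
  rw [e] at key
  exact key

noncomputable def x2 : ℤ[X][X] × ℤ[X][X] :=
  (((2 ^ 432 : ℕ) : ℤ[X][X]) * (pP (nzl zl)).1 + ((2 ^ 121 : ℕ) : ℤ[X][X]) * (g2 (pP bl) (pP zl)).1,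
    ((2 ^ 432 : ℕ) : ℤ[X][X]) * (pP (nzl zl)).2 + ((2 ^ 121 : ℕ) : ℤ[X][X]) * (g2 (pP bl) (pP zl)).2)

theorem repG_x2 : RepG x2 176
    (2 ^ 432 * nR (nzl zl) + 2 ^ 121 * n2.1, 2 ^ 432 * nI (nzl zl) + 2 ^ 121 * n2.2) := by
  obtain ⟨hz, hb, hn, -, -⟩ := chk0_parts
  have h1 := repG_pP hb
  have h2 := repG_pP hz
  have h3 := repG_pP hn
  have h4 : RepG (g2 (pP bl) (pP zl)) 176 n2 := ((h1.mul h1).mul h1).mul h2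
  have c1 := Rep.natCast (2 ^ 432)
  have c2 := Rep.natCast (2 ^ 121)
  constructor
  · exact ((c1.mul h3.1).mono (by norm_num) (by norm_num) le_rfl).add
      ((c2.mul h4.1).mono (by norm_num) (by norm_num) le_rfl)
  · exact ((c1.mul h3.2).mono (by norm_num) (by norm_num) le_rfl).add
      ((c2.mul h4.2).mono (by norm_num) (by norm_num) le_rfl)

theorem val_x2 : (evr ((2 : ℤ) ^ (N2 + 1)) (((2 : ℤ) ^ (N2 + 1)) ^ (176 + 1)) x2.1,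
      evr ((2 : ℤ) ^ (N2 + 1)) (((2 : ℤ) ^ (N2 + 1)) ^ (176 + 1)) x2.2) =
    (((2 ^ 432 : ℕ) : ℤ) * (kn N2 176).1 + ((2 ^ 121 : ℕ) : ℤ) * (g2 (kb N2 176) (kz N2 176)).1,
      ((2 ^ 432 : ℕ) : ℤ) * (kn N2 176).2 + ((2 ^ 121 : ℕ) : ℤ) * (g2 (kb N2 176) (kz N2 176)).2) := by
  have e1 := evr_pPl bl N2 176
  have e2 := evr_pPl zl N2 176
  have e3 := evr_pPl (nzl zl) N2 176
  have e4 := evr_gm (pP bl) (pP bl) ((2 : ℤ) ^ (N2 + 1)) (((2 : ℤ) ^ (N2 + 1)) ^ (176 + 1))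
  have e5 := evr_gm (gm (pP bl) (pP bl)) (pP bl) ((2 : ℤ) ^ (N2 + 1)) (((2 : ℤ) ^ (N2 + 1)) ^ (176 + 1))
  have e6 := evr_gm (gm (gm (pP bl) (pP bl)) (pP bl)) (pP zl) ((2 : ℤ) ^ (N2 + 1))
    (((2 : ℤ) ^ (N2 + 1)) ^ (176 + 1))
  rw [e1] at e4
  rw [e4, e1] at e5
  rw [e5, e2] at e6
  have f1 : evr ((2 : ℤ) ^ (N2 + 1)) (((2 : ℤ) ^ (N2 + 1)) ^ (176 + 1)) (g2 (pP bl) (pP zl)).1 =
    (g2 (kb N2 176) (kz N2 176)).1 := congrArg Prod.fst e6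
  have f2 : evr ((2 : ℤ) ^ (N2 + 1)) (((2 : ℤ) ^ (N2 + 1)) ^ (176 + 1)) (g2 (pP bl) (pP zl)).2 =
    (g2 (kb N2 176) (kz N2 176)).2 := congrArg Prod.snd e6
  have f3 : evr ((2 : ℤ) ^ (N2 + 1)) (((2 : ℤ) ^ (N2 + 1)) ^ (176 + 1)) (pP (nzl zl)).1 = (kn N2 176).1 :=
    congrArg Prod.fst e3
  have f4 : evr ((2 : ℤ) ^ (N2 + 1)) (((2 : ℤ) ^ (N2 + 1)) ^ (176 + 1)) (pP (nzl zl)).2 = (kn N2 176).2 :=
    congrArg Prod.snd e3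
  refine Prod.ext ?_ ?_
  · show evr _ _ (_ * _ + _ * _) = _
    rw [map_add, map_mul, map_mul, f1, f3, map_natCast, map_natCast]
  · show evr _ _ (_ * _ + _ * _) = _
    rw [map_add, map_mul, map_mul, f2, f4, map_natCast, map_natCast]

/-- **second check**: the equation of motion -/
theorem check2 {ζ : ℂ} (hζ : ζ ^ 3 = 1) :
    ∃ R1 R2 : ℂ → ℂ → ℂ, (∀ v w, 2 ^ 432 * evS (nzl zl) v w + 2 ^ 121 * (evS bl v w ^ 3 * evS zl v w) =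
        R1 v w + R2 v w) ∧
      (∀ v w, R2 (ζ * v) (ζ ^ 2 * w) = ζ ^ 2 * R2 v w) ∧
      (∀ v w, ‖v‖ ≤ 1 → ‖w‖ = ‖v‖ → ‖R1 v w‖ ≤ 2 * (totg true 0 al2 be2 44 176 : ℕ) * ‖v‖ ^ 2) := by
  have h := chk2_ok
  unfold chk2 okT at h
  simp only [Bool.and_eq_true] at h
  obtain ⟨-, -, -, -, hB⟩ := chk0_parts
  rw [totg_eq] at hB ⊢
  obtain ⟨R1, R2, h1, h2, h3⟩ := ok3_sound repG_x2 ga2 al2 be2 44 N2 hB _ val_x2 h.1 h.2 hζ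
  refine ⟨R1, R2, fun v w => ?_, h2, h3⟩
  rw [← h1]
  have e1 : evG x2 v w = 2 ^ 432 * evG (pP (nzl zl)) v w + 2 ^ 121 * evG (g2 (pP bl) (pP zl)) v w := by
    simp only [evG, x2, map_add, map_mul, map_natCast]
    push_cast
    ring
  rw [e1, g2, evG_gm, evG_gm, evG_gm, evG_pP, evG_pP, evG_pP]
  ring

end Pool.Agent.H60.TB
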