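import Pool.Agent.H60.TB.WuS
import Pool.Agent.H60.TB.Wm

/-! The approximate solution as a function of `t` and of `v`; the operator `D + i`. -/

set_option autoImplicit false
set_option maxRecDepth 100000
set_option exponentiation.threshold 2000

open Complex

namespace Pool.Agent.H60.TB

open Pool.Agent.H3.LG (zeta l0)

theorem mux_eq (j k : ℕ) : mux j k = j * l0 + k * (starRingEnd ℂ) l0 + I := by
  apply Complex.ext
  · simp [mux, l0]; ring
  · simp [mux, l0]; ring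

/-- `∑ c μ^n v^j w^k` -/
noncomputable def dS (n : ℕ) : Sp → ℂ → ℂ → ℂ
  | [], _, _ => 0
  | (j, k, a, b) :: l, v, w => ((a : ℂ) + (b : ℂ) * I) * mux j k ^ n * v ^ j * w ^ k + dS n l v w

theorem dS_zero (l : Sp) (v w : ℂ) : dS 0 l v w = evS l v w := by
  induction l with
  | nil => rfl
  | cons m l ih =>
    obtain ⟨j, k, a, b⟩ := m
    simp only [dS, evS, ih, pow_zero, mul_one]

theorem ex_hasDerivAt (n : ℕ) (l : Sp) (ω : ℂ) (t : ℝ) : HasDerivAt (ex n l ω) (ex (n + 1) l ω t) t := by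
  induction l with
  | nil => exact hasDerivAt_const _ _
  | cons m l ih =>
    obtain ⟨j, k, a, b⟩ := m
    have h1 : HasDerivAt (fun s : ℝ => ((s - 110 : ℝ) : ℂ)) 1 t := by
      have := ((hasDerivAt_id t).sub_const 110).ofReal_comp
      simpa using this
    have h2 := ((h1.const_mul (mux j k)).cexp).const_mul
      (((a : ℂ) + (b : ℂ) * I) * mux j k ^ n * ω ^ j * (starRingEnd ℂ) ω ^ k)
    have h3 := h2.add ih
    refine h3.congr_deriv ?_
    simp only [ex]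
    ring

/-- the parameter `v` at time `t` -/
noncomputable def vt (ω : ℂ) (t : ℝ) : ℂ := ω * cexp (l0 * ((t - 110 : ℝ) : ℂ))

theorem ex_eq (n : ℕ) (l : Sp) (ω : ℂ) (t : ℝ) :
    ex n l ω t = cexp (I * ((t - 110 : ℝ) : ℂ)) * dS n l (vt ω t) ((starRingEnd ℂ) (vt ω t)) := by
  induction l with
  | nil => simp [ex, dS]
  | cons m l ih =>
    obtain ⟨j, k, a, b⟩ := m
    have h1 : (starRingEnd ℂ) (vt ω t) = (starRingEnd ℂ) ω * cexp ((starRingEnd ℂ) l0 * ((t - 110 : ℝ) : ℂ)) := by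
      rw [vt, map_mul, ← Complex.exp_conj, map_mul, Complex.conj_ofReal]
    have h2 : cexp (mux j k * ((t - 110 : ℝ) : ℂ)) = cexp (l0 * ((t - 110 : ℝ) : ℂ)) ^ j *
        cexp ((starRingEnd ℂ) l0 * ((t - 110 : ℝ) : ℂ)) ^ k * cexp (I * ((t - 110 : ℝ) : ℂ)) := by
      rw [← Complex.exp_nat_mul, ← Complex.exp_nat_mul, ← Complex.exp_add, ← Complex.exp_add, mux_eq]
      congr 1
      ring
    simp only [ex, dS, ih, h2]
    rw [h1, vt]
    ring

/-! ### classes -/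

def cls : Sp → Bool
  | [] => true
  | (j, k, _, _) :: l => decide ((j + 2 * k) % 3 ≠ 2) && cls l

theorem dS_sum {ζ : ℂ} (h3 : ζ ^ 3 = 1) (h1 : 1 + ζ + ζ ^ 2 = 0) (n : ℕ) (l : Sp) (hl : cls l = true) (v w : ℂ) :
    dS n l v w + ζ * dS n l (ζ * v) (ζ ^ 2 * w) + ζ ^ 2 * dS n l (ζ ^ 2 * v) (ζ * w) = 0 := by
  induction l with
  | nil => simp [dS]
  | cons m l ih =>
    obtain ⟨j, k, a, b⟩ := m
    simp only [cls, Bool.and_eq_true, decide_eq_true_eq] at hl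
    have ih' := ih hl.2
    have key : 1 + ζ * (ζ ^ j * (ζ ^ 2) ^ k) + ζ ^ 2 * ((ζ ^ 2) ^ j * ζ ^ k) = 0 := by
      have e1 : ζ ^ j * (ζ ^ 2) ^ k = ζ ^ ((j + 2 * k) % 3) := by
        conv_rhs => rw [← one_mul (ζ ^ ((j + 2 * k) % 3)), ← one_pow ((j + 2 * k) / 3), ← h3, ← pow_mul,
          ← pow_add, Nat.div_add_mod]
        rw [← pow_mul, ← pow_add]
      have e2 : (ζ ^ 2) ^ j * ζ ^ k = ζ ^ (2 * ((j + 2 * k) % 3)) := by
        have e3 : (ζ ^ 2) ^ j * ζ ^ k = (ζ ^ j * (ζ ^ 2) ^ k) ^ 2 := by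
          have : (ζ ^ j * (ζ ^ 2) ^ k) ^ 2 = (ζ ^ 2) ^ j * ζ ^ k * (ζ ^ 3) ^ k := by ring
          rw [this, h3, one_pow, mul_one]
        rw [e3, e1, ← pow_mul, mul_comm]
      rw [e1, e2]
      have h4 : (j + 2 * k) % 3 < 3 := Nat.mod_lt _ (by norm_num)
      interval_cases h : (j + 2 * k) % 3
      · simpa using h1
      · have : ζ * ζ ^ 1 = ζ ^ 2 := by ring
        rw [this]
        have : ζ ^ 2 * ζ ^ (2 * 1) = ζ := by
          calc ζ ^ 2 * ζ ^ (2 * 1) = ζ ^ 3 * ζ := by ring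
            _ = ζ := by rw [h3, one_mul]
        rw [this]
        linear_combination h1
      · exact absurd rfl hl.1
    simp only [dS]
    have e : (((a : ℂ) + (b : ℂ) * I) * mux j k ^ n * v ^ j * w ^ k + dS n l v w) +
        ζ * (((a : ℂ) + (b : ℂ) * I) * mux j k ^ n * (ζ * v) ^ j * (ζ ^ 2 * w) ^ k + dS n l (ζ * v) (ζ ^ 2 * w)) +
        ζ ^ 2 * (((a : ℂ) + (b : ℂ) * I) * mux j k ^ n * (ζ ^ 2 * v) ^ j * (ζ * w) ^ k +
          dS n l (ζ ^ 2 * v) (ζ * w)) =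
        ((a : ℂ) + (b : ℂ) * I) * mux j k ^ n * v ^ j * w ^ k *
          (1 + ζ * (ζ ^ j * (ζ ^ 2) ^ k) + ζ ^ 2 * ((ζ ^ 2) ^ j * ζ ^ k)) +
        (dS n l v w + ζ * dS n l (ζ * v) (ζ ^ 2 * w) + ζ ^ 2 * dS n l (ζ ^ 2 * v) (ζ * w)) := by
      simp only [mul_pow]
      ring
    rw [e, key, ih', mul_zero, add_zero]

/-! ### the second derivative and the list `nzl` -/

/-- in the degrees `0, 1` the real part of the exponent times the imaginary part vanishes -/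
def okd : Sp → Bool
  | [] => true
  | (j, k, _, _) :: l => (decide (2 ≤ j + k) || decide (((j + k : ℕ) : ℤ) * (1 - (j : ℤ) + k) = 0)) && okd l

def mS : Sp → ℕ
  | [] => 0
  | (j, k, a, b) :: l => 2 * (j + k) * (1 - (j : ℤ) + k).natAbs * (a.natAbs + b.natAbs) + mS l

theorem norm_gauss_le (a b : ℤ) : ‖(a : ℂ) + (b : ℂ) * I‖ ≤ ((a.natAbs + b.natAbs : ℕ) : ℝ) := by
  refine (norm_add_le _ _).trans ?_
  rw [norm_mul, Complex.norm_I, mul_one, Complex.norm_intCast, Complex.norm_intCast]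
  push_cast
  rw [Nat.cast_natAbs, Nat.cast_natAbs]
  push_cast
  exact le_rfl

theorem r2_bound : |2 ^ 120 * Real.sqrt 2 - (r2 : ℝ)| ≤ 1 := by
  have h0 : (0 : ℝ) ≤ Real.sqrt 2 := Real.sqrt_nonneg 2
  have h2 : Real.sqrt 2 ^ 2 = 2 := Real.sq_sqrt (by norm_num)
  have a1 : ((r2 : ℝ)) ^ 2 ≤ 2 ^ 241 := by
    have : r2 ^ 2 ≤ 2 ^ 241 := by decide +kernel
    exact_mod_cast this
  have a2 : (2 : ℝ) ^ 241 ≤ ((r2 : ℝ) + 1) ^ 2 := by
    have : 2 ^ 241 ≤ (r2 + 1) ^ 2 := by decide +kernel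
    exact_mod_cast this
  have a3 : (2 ^ 120 * Real.sqrt 2) ^ 2 = 2 ^ 241 := by
    rw [mul_pow, h2]; norm_num
  have r0 : (0 : ℝ) ≤ r2 := Nat.cast_nonneg _
  have b1 : (r2 : ℝ) ≤ 2 ^ 120 * Real.sqrt 2 := by
    refine (sq_le_sq₀ r0 (by positivity)).1 ?_
    rw [a3]; exact a1
  have b2 : 2 ^ 120 * Real.sqrt 2 ≤ (r2 : ℝ) + 1 := by
    refine (sq_le_sq₀ (by positivity) (by positivity)).1 ?_
    rw [a3]; exact a2
  rw [abs_le]
  constructor <;> linarith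

theorem mux_sq (j k : ℕ) : mux j k ^ 2 * 2 ^ 121 =
    (((((j + k : ℕ) : ℤ) ^ 2 - 2 * (1 - (j : ℤ) + k) ^ 2) * ((2 ^ 120 : ℕ) : ℤ) : ℤ) : ℂ) +
    ((2 * ((j + k : ℕ) : ℤ) * (1 - (j : ℤ) + k) * (r2 : ℤ) : ℤ) : ℂ) * I +
    ((2 * (((j + k : ℕ) : ℤ) * (1 - (j : ℤ) + k)) : ℤ) : ℂ) * ((2 ^ 120 * Real.sqrt 2 - (r2 : ℝ) : ℝ) : ℂ) * I := by
  have h2 : Real.sqrt 2 * Real.sqrt 2 = 2 := Real.mul_self_sqrt (by norm_num)
  have h2' : Real.sqrt 2 ≠ 0 := by positivity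
  have e1 : ((j : ℝ) + k) / Real.sqrt 2 = ((j : ℝ) + k) * Real.sqrt 2 / 2 := by
    rw [div_eq_div_iff h2' (by norm_num), mul_assoc, h2]
  have hs : ((Real.sqrt 2 : ℝ) : ℂ) * ((Real.sqrt 2 : ℝ) : ℂ) = 2 := by exact_mod_cast h2
  have e2 : mux j k = ((j : ℂ) + k) * ((Real.sqrt 2 : ℝ) : ℂ) / 2 + (1 - j + k) * I := by
    have e3 : mux j k = ((((j : ℝ) + k) * Real.sqrt 2 / 2 : ℝ) : ℂ) + ((1 - (j : ℝ) + k : ℝ) : ℂ) * I := by
      apply Complex.ext
      · rw [Complex.add_re, Complex.ofReal_re, Complex.re_ofReal_mul, Complex.I_re, ← e1]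
        simp [mux]
      · rw [Complex.add_im, Complex.ofReal_im, Complex.im_ofReal_mul, Complex.I_im]
        simp [mux]
    rw [e3]
    push_cast
    ring
  rw [e2]
  push_cast
  linear_combination (((j : ℂ) + k) ^ 2 / 4 * 2 ^ 121) * hs + ((1 - (j : ℂ) + k) ^ 2 * 2 ^ 121) * Complex.I_sq

theorem nzl_bound (l : Sp) (hd : okd l = true) (v w : ℂ) (hv : ‖v‖ ≤ 1) (hw : ‖w‖ = ‖v‖) :
    ‖2 ^ 121 * dS 2 l v w - evS (nzl l) v w‖ ≤ mS l * ‖v‖ ^ 2 := by
  induction l with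
  | nil => simp [dS, nzl, evS, mS]
  | cons m l ih =>
    obtain ⟨j, k, a, b⟩ := m
    simp only [okd, Bool.and_eq_true, Bool.or_eq_true, decide_eq_true_eq] at hd
    have ih' := ih hd.2
    have e : 2 ^ 121 * dS 2 ((j, k, a, b) :: l) v w - evS (nzl ((j, k, a, b) :: l)) v w =
        ((a : ℂ) + (b : ℂ) * I) * ((((2 * (((j + k : ℕ) : ℤ) * (1 - (j : ℤ) + k)) : ℤ) : ℂ)) *
          ((2 ^ 120 * Real.sqrt 2 - (r2 : ℝ) : ℝ) : ℂ) * I) * (v ^ j * w ^ k) +
        (2 ^ 121 * dS 2 l v w - evS (nzl l) v w) := by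
      have h1 := mux_sq j k
      simp only [dS, nzl, List.map_cons, evS]
      push_cast at h1 ⊢
      linear_combination (((a : ℂ) + (b : ℂ) * I) * v ^ j * w ^ k) * h1 +
        (2 * ((j : ℂ) + k) * (1 - j + k) * r2 * b * v ^ j * w ^ k) * Complex.I_sq
    rw [e]
    refine (norm_add_le _ _).trans ?_
    have h3 : ‖((a : ℂ) + (b : ℂ) * I) * ((((2 * (((j + k : ℕ) : ℤ) * (1 - (j : ℤ) + k)) : ℤ) : ℂ)) *
          ((2 ^ 120 * Real.sqrt 2 - (r2 : ℝ) : ℝ) : ℂ) * I) * (v ^ j * w ^ k)‖ ≤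
        ((2 * (j + k) * (1 - (j : ℤ) + k).natAbs * (a.natAbs + b.natAbs) : ℕ) : ℝ) * ‖v‖ ^ 2 := by
      rw [norm_mul, norm_mul, norm_mul, norm_mul, Complex.norm_I, mul_one, Complex.norm_real, Real.norm_eq_abs,
        Complex.norm_intCast, norm_mul, norm_pow, norm_pow, hw, ← pow_add]
      rcases hd.1 with h | h
      · have q1 := norm_gauss_le a b
        have q2 := r2_bound
        have q3 : ‖v‖ ^ (j + k) ≤ ‖v‖ ^ 2 := pow_le_pow_of_le_one (norm_nonneg _) hv h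
        have q4 : |((2 * (((j + k : ℕ) : ℤ) * (1 - (j : ℤ) + k)) : ℤ) : ℝ)| =
            ((2 * (j + k) * (1 - (j : ℤ) + k).natAbs : ℕ) : ℝ) := by
          rw [← Int.cast_abs, ← Nat.cast_natAbs]
          push_cast
          rw [Int.natAbs_mul, Int.natAbs_mul]
          push_cast
          have : ((j : ℤ) + k).natAbs = j + k := by omega
          rw [this]
          push_cast
          ring
        rw [q4]
        calc _ ≤ ((a.natAbs + b.natAbs : ℕ) : ℝ) * (((2 * (j + k) * (1 - (j : ℤ) + k).natAbs : ℕ) : ℝ) * 1) *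
              ‖v‖ ^ 2 := by gcongr
          _ = _ := by push_cast; ring
      · rw [h]
        simp
        positivity
    have e4 : (mS ((j, k, a, b) :: l) : ℝ) =
        ((2 * (j + k) * (1 - (j : ℤ) + k).natAbs * (a.natAbs + b.natAbs) : ℕ) : ℝ) + mS l := by
      simp only [mS]; push_cast; ring
    calc _ ≤ _ := add_le_add h3 ih'
      _ = _ := by rw [e4]; ring

/-! ### bounds near `1` -/

def c0R : Sp → ℤ
  | [] => 0
  | (j, k, a, _) :: l => (if j + k = 0 then a else 0) + c0R l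

def c0I : Sp → ℤ
  | [] => 0
  | (j, k, _, b) :: l => (if j + k = 0 then b else 0) + c0I l

/-- sum of the absolute values of the coefficients of degree `≥ 1` -/
def n1S : Sp → ℕ
  | [] => 0
  | (j, k, a, b) :: l => (if j + k = 0 then 0 else a.natAbs + b.natAbs) + n1S l

theorem evS_near (l : Sp) (v w : ℂ) (hv : ‖v‖ ≤ 1) (hw : ‖w‖ = ‖v‖) :
    ‖evS l v w - ((c0R l : ℂ) + (c0I l : ℂ) * I)‖ ≤ n1S l * ‖v‖ := by
  induction l with
  | nil => simp [evS, c0R, c0I, n1S]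
  | cons m l ih =>
    obtain ⟨j, k, a, b⟩ := m
    simp only [evS, c0R, c0I, n1S]
    by_cases h : j + k = 0
    · obtain ⟨rfl, rfl⟩ : j = 0 ∧ k = 0 := by omega
      simp only [if_true, pow_zero, mul_one, zero_add, Nat.add_zero]
      push_cast
      refine le_trans (le_of_eq ?_) ih
      congr 1
      ring
    · simp only [if_neg h, zero_add]
      have h1 : ‖((a : ℂ) + (b : ℂ) * I) * v ^ j * w ^ k‖ ≤ ((a.natAbs + b.natAbs : ℕ) : ℝ) * ‖v‖ := by
        rw [mul_assoc, norm_mul, norm_mul, norm_pow, norm_pow, hw, ← pow_add]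
        have q1 := norm_gauss_le a b
        have q3 : ‖v‖ ^ (j + k) ≤ ‖v‖ ^ 1 := pow_le_pow_of_le_one (norm_nonneg _) hv (by omega)
        rw [pow_one] at q3
        gcongr
      have e : ((a : ℂ) + (b : ℂ) * I) * v ^ j * w ^ k + evS l v w - ((c0R l : ℂ) + (c0I l : ℂ) * I) =
          ((a : ℂ) + (b : ℂ) * I) * v ^ j * w ^ k + (evS l v w - ((c0R l : ℂ) + (c0I l : ℂ) * I)) := by ring
      rw [e]
      refine (norm_add_le _ _).trans ?_
      push_cast at h1 ⊢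
      linarith

end Pool.Agent.H60.TB
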