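import Pool.Agent.H60.TB.EndA

/-! WU-END: the approximate solution at `t = 110` and the point `P0`. -/

set_option autoImplicit false
set_option maxRecDepth 100000
set_option exponentiation.threshold 3000
set_option maxHeartbeats 2000000

open Complex Set
open Pool.Agent.H99.TB hiding Ph acc phaseSpace IsSol
open Pool.Agent.H3.LG

namespace Pool.Agent.H60.TB

theorem mk_mul (a b c d : ℝ) : (⟨a, b⟩ : ℂ) * ⟨c, d⟩ = ⟨a * c - b * d, a * d + b * c⟩ := by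
  apply Complex.ext <;> simp
theorem mk_add (a b c d : ℝ) : (⟨a, b⟩ : ℂ) + ⟨c, d⟩ = ⟨a + c, b + d⟩ := by
  apply Complex.ext <;> simp
theorem mk_sub (a b c d : ℝ) : (⟨a, b⟩ : ℂ) - ⟨c, d⟩ = ⟨a - c, b - d⟩ := by
  apply Complex.ext <;> simp
theorem mk_I : I = (⟨0, 1⟩ : ℂ) := by
  apply Complex.ext <;> simp

theorem add_close {x x' y y' : ℂ} {ε δ : ℝ} (h1 : ‖x - x'‖ ≤ ε) (h2 : ‖y - y'‖ ≤ δ) : ‖(x + y) - (x' + y')‖ ≤ ε + δ := by
  have e : (x + y) - (x' + y') = (x - x') + (y - y') := by ring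
  rw [e]
  exact (norm_add_le _ _).trans (add_le_add h1 h2)

theorem tr_close {x y z : ℂ} {ε δ : ℝ} (h1 : ‖x - y‖ ≤ ε) (h2 : ‖y - z‖ ≤ δ) : ‖x - z‖ ≤ ε + δ := by
  have e : x - z = (x - y) + (y - z) := by ring
  rw [e]
  exact (norm_add_le _ _).trans (add_le_add h1 h2)

noncomputable def Vc (c : ℕ) : ℂ := ((1 / Real.sqrt 2 : ℝ) : ℂ) * cS w1 c + I * cS w2 c

theorem qq0_vf : qq 0 vf = cS w0 0 + cS w0 1 := by
  have h := dS_cl 0 zl cls_zl (ζ := 1) (by norm_num) vf ((starRingEnd ℂ) vf)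
  rw [one_pow, one_mul, one_mul, one_mul] at h
  rw [qq, h, dS0_wS, dS0_wS, cS, cS]
  ring

theorem qq0_zvf : zeta * qq 0 (zeta * vf) = zeta * cS w0 0 + zeta ^ 2 * cS w0 1 := by
  have h := dS_cl 0 zl cls_zl zeta_cube vf ((starRingEnd ℂ) vf)
  rw [qq, map_mul, conj_zeta, h, dS0_wS, dS0_wS, cS, cS]
  ring

theorem qq1_vf : qq 1 vf = Vc 0 + Vc 1 := by
  have h := dS_cl 1 zl cls_zl (ζ := 1) (by norm_num) vf ((starRingEnd ℂ) vf)
  rw [one_pow, one_mul, one_mul, one_mul] at h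
  rw [qq, h, dS1_wS, dS1_wS, Vc, Vc, cS, cS, cS, cS]
  ring

theorem qq1_zvf : zeta * qq 1 (zeta * vf) = zeta * Vc 0 + zeta ^ 2 * Vc 1 := by
  have h := dS_cl 1 zl cls_zl zeta_cube vf ((starRingEnd ℂ) vf)
  rw [qq, map_mul, conj_zeta, h, dS1_wS, dS1_wS, Vc, Vc, cS, cS, cS, cS]
  ring

theorem h2c_close : ‖((1 / Real.sqrt 2 : ℝ) : ℂ) - ⟨(h2n : ℝ) / 10 ^ 40, 0⟩‖ ≤ 1 / 10 ^ 40 := by
  have e : ((1 / Real.sqrt 2 : ℝ) : ℂ) - ⟨(h2n : ℝ) / 10 ^ 40, 0⟩ = ((1 / Real.sqrt 2 - (h2n : ℝ) / 10 ^ 40 : ℝ) : ℂ) := by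
    rw [Complex.mk_eq_add_mul_I, Complex.ofReal_zero, zero_mul, add_zero, ← Complex.ofReal_sub]
  rw [e, Complex.norm_real, Real.norm_eq_abs]
  exact h2_close

theorem mk_le {a b M : ℝ} (h : |a| + |b| ≤ M) : ‖(⟨a, b⟩ : ℂ)‖ ≤ M := (norm_mk_le a b).trans h

theorem V0 : ‖Vc 0 - (⟨((-120571779031099320985679137551083657167 : ℤ) : ℝ) / 10 ^ 40, ((10038297523334189564517933970540072124561 : ℤ) : ℝ) / 10 ^ 40⟩ : ℂ)‖ ≤ 7 / 10 ^ 40 := by
  have h1 := mul_close h2c_close cA0 (mk_le (by norm_num [h2n, abs_le])) (mk_le (by norm_num [abs_of_nonneg, abs_of_neg])) (by norm_num)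
  have h2 : ‖I * cS w2 0 - ⟨0, 1⟩ * (⟨((9958395958325471600258763795728715156771 : ℤ) : ℝ) / 10 ^ 40, ((63201449886281813439173702308617728952 : ℤ) : ℝ) / 10 ^ 40⟩ : ℂ)‖ ≤ 1 / 10 ^ 40 := by
    rw [← mk_I, ← mul_sub, norm_mul, Complex.norm_I, one_mul]
    exact cB0
  have h3 := add_close h1 h2
  refine (tr_close h3 (δ := 1 / 10 ^ 40) ?_).trans (by norm_num)
  rw [mk_mul, mk_mul, mk_add, mk_sub]
  refine mk_le ?_
  norm_num [h2n, abs_of_nonneg, abs_of_neg, abs_of_nonpos]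

theorem V1 : ‖Vc 1 - (⟨((-916433133595306798468876683950520664354 : ℤ) : ℝ) / 10 ^ 40, ((318560566748270345921736245539547652289 : ℤ) : ℝ) / 10 ^ 40⟩ : ℂ)‖ ≤ 7 / 10 ^ 40 := by
  have h1 := mul_close h2c_close cA1 (mk_le (by norm_num [h2n, abs_le])) (mk_le (by norm_num [abs_of_nonneg, abs_of_neg])) (by norm_num)
  have h2 : ‖I * cS w2 1 - ⟨0, 1⟩ * (⟨((4577694472284379517534567375368497009 : ℤ) : ℝ) / 10 ^ 40, ((77577796890911355728016884948165734225 : ℤ) : ℝ) / 10 ^ 40⟩ : ℂ)‖ ≤ 1 / 10 ^ 40 := by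
    rw [← mk_I, ← mul_sub, norm_mul, Complex.norm_I, one_mul]
    exact cB1
  have h3 := add_close h1 h2
  refine (tr_close h3 (δ := 1 / 10 ^ 40) ?_).trans (by norm_num)
  rw [mk_mul, mk_mul, mk_add, mk_sub]
  refine mk_le ?_
  norm_num [h2n, abs_of_nonneg, abs_of_neg, abs_of_nonpos]

theorem e00 : ‖qq 0 vf - Pool.Agent.H99.LG.P0.1.1‖ ≤ 1 / 10 ^ 31 := by
  have h := add_close cD0 cD1
  rw [← qq0_vf] at h
  refine (tr_close h (z := Pool.Agent.H99.LG.P0.1.1) (δ := 1 / 10 ^ 33) ?_).trans (by norm_num)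
  simp only [Pool.Agent.H99.LG.P0]
  rw [mk_add, mk_sub]
  refine mk_le ?_
  norm_num [abs_of_nonneg, abs_of_neg, abs_of_nonpos]

theorem e10 : ‖qq 1 vf - Pool.Agent.H99.LG.P0.2.1‖ ≤ 1 / 10 ^ 31 := by
  have h := add_close V0 V1
  rw [← qq1_vf] at h
  refine (tr_close h (z := Pool.Agent.H99.LG.P0.2.1) (δ := 1 / 10 ^ 33) ?_).trans (by norm_num)
  simp only [Pool.Agent.H99.LG.P0]
  rw [mk_add, mk_sub]
  refine mk_le ?_
  norm_num [abs_of_nonneg, abs_of_neg, abs_of_nonpos]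

theorem e01 : ‖zeta * qq 0 (zeta * vf) - Pool.Agent.H99.LG.P0.1.2‖ ≤ 1 / 10 ^ 31 := by
  have b3 : ‖(⟨-(1 / 2), (s3n : ℝ) / 10 ^ 40 / 2⟩ : ℂ)‖ ≤ 2 := mk_le (by norm_num [s3n, abs_of_nonneg, abs_of_neg])
  have b4 : ‖(⟨-(1 / 2), -((s3n : ℝ) / 10 ^ 40 / 2)⟩ : ℂ)‖ ≤ 2 := mk_le (by norm_num [s3n, abs_of_nonneg, abs_of_neg])
  have h := add_close (mul_close zeta_close cD0 b3 (mk_le (by norm_num [abs_of_nonneg, abs_of_neg])) (by norm_num))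
    (mul_close zeta2_close cD1 b4 (mk_le (by norm_num [abs_of_nonneg, abs_of_neg])) (by norm_num))
  rw [← qq0_zvf] at h
  refine (tr_close h (z := Pool.Agent.H99.LG.P0.1.2) (δ := 1 / 10 ^ 33) ?_).trans (by norm_num)
  simp only [Pool.Agent.H99.LG.P0]
  rw [mk_mul, mk_mul, mk_add, mk_sub]
  refine mk_le ?_
  norm_num [s3n, abs_of_nonneg, abs_of_neg, abs_of_nonpos]

theorem e11 : ‖zeta * qq 1 (zeta * vf) - Pool.Agent.H99.LG.P0.2.2‖ ≤ 1 / 10 ^ 31 := by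
  have b3 : ‖(⟨-(1 / 2), (s3n : ℝ) / 10 ^ 40 / 2⟩ : ℂ)‖ ≤ 2 := mk_le (by norm_num [s3n, abs_of_nonneg, abs_of_neg])
  have b4 : ‖(⟨-(1 / 2), -((s3n : ℝ) / 10 ^ 40 / 2)⟩ : ℂ)‖ ≤ 2 := mk_le (by norm_num [s3n, abs_of_nonneg, abs_of_neg])
  have h := add_close (mul_close zeta_close V0 b3 (mk_le (by norm_num [abs_of_nonneg, abs_of_neg])) (by norm_num))
    (mul_close zeta2_close V1 b4 (mk_le (by norm_num [abs_of_nonneg, abs_of_neg])) (by norm_num))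
  rw [← qq1_zvf] at h
  refine (tr_close h (z := Pool.Agent.H99.LG.P0.2.2) (δ := 1 / 10 ^ 33) ?_).trans (by norm_num)
  simp only [Pool.Agent.H99.LG.P0]
  rw [mk_mul, mk_mul, mk_add, mk_sub]
  refine mk_le ?_
  norm_num [s3n, abs_of_nonneg, abs_of_neg, abs_of_nonpos]


theorem vt_end : vt vf 110 = vf := by
  rw [vt, sub_self, Complex.ofReal_zero, mul_zero, Complex.exp_zero, mul_one]

theorem ph_end : ph 110 = cexp (110 * I) := by
  rw [ph, sub_self, Complex.ofReal_zero, mul_zero, Complex.exp_zero, mul_one]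

theorem end_ : S_END := by
  have hc : ‖cexp (110 * I)‖ = 1 := by rw [← ph_end]; exact norm_ph _
  have key : ∀ {x y : ℂ}, ‖x - y‖ ≤ 1 / 10 ^ 31 → ‖cexp (110 * I) * x - cexp (110 * I) * y‖ ≤ 1 / 10 ^ 30 := by
    intro x y h
    rw [← mul_sub, norm_mul, hc, one_mul]
    exact h.trans (by norm_num)
  unfold S_END
  rw [pp_eq, pp_eq, vt_end, ph_end, Prod.norm_def, Prod.norm_def, Prod.norm_def]
  exact max_le (max_le (key e00) (key e01)) (max_le (key e10) (key e11))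

end Pool.Agent.H60.TB
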