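import Pool.Agent.H60.TB.Mot
import Pool.Agent.H99.LG.P0

/-! WU-END: the approximate solution at `t = 110` and the point `P0`. -/

set_option autoImplicit false
set_option maxRecDepth 100000
set_option exponentiation.threshold 3000
set_option maxHeartbeats 2000000

open Complex Set
open Pool.Agent.H99.TB hiding Ph acc phaseSpace IsSol
open Pool.Agent.H3.LG

namespace Pool.Agent.H60.TB

def toC (x : ℤ × ℤ) : ℂ := (x.1 : ℂ) + (x.2 : ℂ) * I

theorem toC_gm (x y : ℤ × ℤ) : toC (gm x y) = toC x * toC y := by
  simp only [toC, gm]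
  push_cast
  linear_combination (-(x.2 : ℂ) * y.2) * Complex.I_sq

/-- `(1179 - 396 i)^j` -/
def vp : List (ℤ × ℤ) := [  (1, 0),
  (1179, -396),
  (1233225, -933768),
  (1084200147, -1589269572),
  (648921222801, -2303092083600),
  (-146946343423221, -2972318370793596),
  (-1350287813730241575, -3446172607170054168),
  (-2956673684827296267453, -3528323529616318200372),
  (-4883134392139444306674399, -2989050662226029836327200),
  (-6940879510573912652754687621, -1590369511477269231586706796),
  (-8813083269511641633306112596375, 873542632155568986450128985432),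
  (-10044702292420620167033655672895053, 4519887738038025921813922661988828),
  (-10052828458500852911894366664195691599, 9306649750945398147963942464951269200),
  (-8166851451198127916529737080966017792021, 14953460125930962169559657365199040260004),
  (-3707147651093931794442935701840115033831175, 20864202663147063052856611917632211512185032),
  (3891497173966491383282997126912860133938317347, 26066925409683584329917347988817062926263298028),
  (14910577630341192735537923416201819016713542171201, 29191872177126215337192486416557824577024854705600),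
  (29139552408314247508727436328658843153207108683263579, 28512628555216695559276923812305754845693740998106804),
  (45646533197268309254263309261161854996525902572818054025, 22077126312908042050931428388559583074402905598195544632),
  (62559804659490921262945287260779421938367589750237921369747, 7952904776800331113359883602691653866096768281436597727228),
  (76907359985152727289903007587124833396309708554979401994914001, -15397207913310814437475030987695191179465475737280468142018000),
  (84576483088823982957555533674092882867180817994357649567764479179, -48608622683913930228584652538994064425528440482025515129425166396),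
  (80466658978893559536438451796313859387896921984465564849141955059225, -90801853447508820990693296678414783573101635254073711566427004935768),
  (58912656970902013581146389183201785923382223459071711176833271060262147, -138920182170254749524457023695191318150294009070401269617077653022723572),
  (14445630429272593200486611463699143616151213866366644709123675983050536801, -187116306939207547067468801053178471324855997183795494504560528253654901600),
  (-57066659271813801255343930301357384321200693736336741711749155204430758145221, -226330595531317644899938414581322278564001101370776079325689838500347141559596),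
  (-156908507111870259060426105999503978426040054057968345891125430032161331910815575, -244245375059785238039911194392041442235761823796555647807135654130954699673256168),
  (-281716298408569989696047211952663601689662905957780716337262601043776271393461005453, -225829528379186173061126560212413284939251328849183643791727265927659703478086054372),
  (-421572009061861742383845780736306047228056092348500187503156603937965466550212602960399, -154693359789266782119433518557180476674270805953906352360890456515375386928852899945200),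
  (-558291969160484639989849848836748298444889372036628636601134256822949938286526407268609621, -15440955603048286134809189207338587296655067649649515182239833072193256435233378263072796),
  (-664340850059018511857417410704632324435999976420446370564904262690846506788167051961867570375, 202878733131557988083040506063900131761419866567568161694188402509772326224324304306206583432),
  (-702917883899485862199011086819457058332521705038949278865123518318638190318416529757784058433053, 502273002985478198645442051288372655823370013345659625381150214584596789306592507353917119734828),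
  (-629840075935244464869039019049944300067988564956039988131045143122174097820002455672276225477577599, 870535352544075197633784568849496356315431840929956612754965016249420337958565511954350771306851200),
  (-397849449920199445817618314195483772679247509074908327355536077306272807498190952503690764400550914021, 1275777850719821466098371458217334146922817612179010681737997630834447521189869711040400944659898294004),
  (36143527429134153955983105017588954192602961223571312016070026666345578350821272570147362857070196794825, 1661690468167068489073756801659648533202983978352717291401891493367097659252140006508094256456638250583032),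
  (700642644233108289187311774272958196141460546710266624262095592812992109939465722937409066365314509251979347, 1944820225107036623651389959569760394786047337833319447004466340119935291231347843735264772670976699506644028),
  (1596206486693221175917791005857442829586056730353398851018779374614012072946243833462370139222412579412714685201, 2015488558284885296766813299720656059780731434808218044810475960247458832825730681480663176698416983054549487600),
  (2680060916892122343926733662595304895755130533270711591096089362927913931802610829518477012115797556417192210941579, 1744163241487364179224627642051106133965403896418943129828114524784605183014823915414603310195358241573878830540804),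
  (3850480464644808458462571534452102501145598841708070445314222710706714178069148438506467308121887182679125633594280025, 995064338624321919110849459590513393226179502702732159993295637001595593780643507784500405922471534474395025674742632),
  (4933761945911460652495268225116872152568228117444096990382813648175847871080660838081787117021003716030549552174854231747, -351609408761268606919486814785817299839991507629874679712336637414977609448004085970635075433673385195622015632813326772),
  (5677668008360149740951804458757608617141304313445159978495251982782993506662689510054055521096028720662551603823559061828001, -2368317223510474105946201171778759968928368322003484655572439100189894358487138509239766452276618392693735979092329188036000),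
  (5756116961346468798627481792850831611913963930038463691039216204025951178394404082694783944270676978154428893187413775432957179, -5040602537829468268327485747195171015754502759766391760404025484305950877294761348375090633588160458368285154463985501178332396),
  (4790383292447017279324116677881842748207780380647857554615241812761439891918276919540614379394216615730230743900222582768836885225, -8222292708794144732614588485912035945892488470059807507167875662790992750974707646481366298931629263765362038815254760960704937768),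
  (2391833989112552058207756522801526365563547634640140284052891334780504503185664260131763298928856201494858679687521539744019532324147, -11591074887477315482364950029331500108497524936937064642578561164284110650598817975339614160680500681808533218347673505949130528177572),
  (-1770093382277318054389575271232274457965597213786352203562751337350293008381233755539138278192356808433740771114090812997656660548149199, -14613043552024325568758547667611243068681746763966294766085068581264046240317529439937583361818137359644224701588165593252656627521719600)]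

def okp : List (ℤ × ℤ) → ℤ × ℤ → Bool
  | [], _ => true
  | x :: l, y => (x == y) && okp l (gm x (1179, -396))

theorem okp_vp : okp vp (1, 0) = true := by decide +kernel
theorem len_vp : vp.length = 45 := by decide +kernel

theorem okp_sound (l : List (ℤ × ℤ)) (y : ℤ × ℤ) (h : okp l y = true) (j : ℕ) (hj : j < l.length) :
    toC (l.getD j (0, 0)) = toC y * toC (1179, -396) ^ j := by
  induction l generalizing y j with
  | nil => simp at hj
  | cons x l ih =>
    simp only [okp, Bool.and_eq_true, beq_iff_eq] at h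
    obtain ⟨h1, h2⟩ := h
    cases j with
    | zero => simp [h1]
    | succ j =>
      rw [List.getD_cons_succ, ih _ h2 j (by simpa using hj), toC_gm, h1]
      ring

theorem vp_get {j : ℕ} (hj : j ≤ 44) : toC (vp.getD j (0, 0)) = toC (1179, -396) ^ j := by
  have h := okp_sound vp (1, 0) okp_vp j (by rw [len_vp]; omega)
  rw [h]
  simp [toC]

def cj (x : ℤ × ℤ) : ℤ × ℤ := (x.1, -x.2)

theorem toC_cj (x : ℤ × ℤ) : toC (cj x) = (starRingEnd ℂ) (toC x) := by
  simp [toC, cj]

def tm (j k : ℕ) (a b : ℤ) : ℤ × ℤ := gm (a, b) (gm (vp.getD j (0, 0)) (cj (vp.getD k (0, 0))))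

def gR (w : ℕ → ℕ → ℤ) : Sp → ℤ
  | [] => 0
  | (j, k, a, b) :: l => w j k * 1250 ^ (44 - j - k) * (tm j k a b).1 + gR w l

def gI (w : ℕ → ℕ → ℤ) : Sp → ℤ
  | [] => 0
  | (j, k, a, b) :: l => w j k * 1250 ^ (44 - j - k) * (tm j k a b).2 + gI w l

/-- weighted sums -/
noncomputable def wS (w : ℕ → ℕ → ℤ) : Sp → ℂ → ℂ → ℂ
  | [], _, _ => 0
  | (j, k, a, b) :: l, v, u => (w j k : ℂ) * ((a : ℂ) + (b : ℂ) * I) * v ^ j * u ^ k + wS w l v u

def deg44 : Sp → Bool
  | [] => true
  | (j, k, _, _) :: l => decide (j + k ≤ 44) && deg44 l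

theorem vf_eq : vf = toC (1179, -396) / 1250 := by
  apply Complex.ext
  · simp [vf, toC]
  · simp [vf, toC]
    norm_num

theorem wS_eq (w : ℕ → ℕ → ℤ) (l : Sp) (h : deg44 l = true) :
    wS w l vf ((starRingEnd ℂ) vf) = toC (gR w l, gI w l) / 1250 ^ 44 := by
  induction l with
  | nil => simp [wS, gR, gI, toC]
  | cons m l ih =>
    obtain ⟨j, k, a, b⟩ := m
    simp only [deg44, Bool.and_eq_true, decide_eq_true_eq] at h
    have ih' := ih h.2
    have h1 : toC (tm j k a b) = ((a : ℂ) + (b : ℂ) * I) * (toC (1179, -396) ^ j * (starRingEnd ℂ) (toC (1179, -396)) ^ k) := by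
      rw [tm, toC_gm, toC_gm, toC_cj, vp_get (by omega : j ≤ 44), vp_get (by omega : k ≤ 44), map_pow]
      rfl
    have h2 : (1250 : ℂ) ^ 44 = 1250 ^ (44 - j - k) * (1250 ^ j * 1250 ^ k) := by
      rw [← pow_add, ← pow_add]; congr 1; omega
    have h3 : toC (gR w ((j, k, a, b) :: l), gI w ((j, k, a, b) :: l)) =
        (w j k : ℂ) * 1250 ^ (44 - j - k) * toC (tm j k a b) + toC (gR w l, gI w l) := by
      simp only [gR, gI, toC]
      push_cast
      ring
    have h4 : (starRingEnd ℂ) vf = (starRingEnd ℂ) (toC (1179, -396)) / 1250 := by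
      rw [vf_eq, map_div₀, map_ofNat]
    have h5 : wS w ((j, k, a, b) :: l) vf ((starRingEnd ℂ) vf) =
        (w j k : ℂ) * ((a : ℂ) + (b : ℂ) * I) * vf ^ j * (starRingEnd ℂ) vf ^ k + wS w l vf ((starRingEnd ℂ) vf) := rfl
    rw [h3, h1, h5, ih', add_div]
    congr 1
    rw [h4, vf_eq, h2, div_pow, div_pow]
    have n1 : (1250 : ℂ) ^ (44 - j - k) ≠ 0 := pow_ne_zero _ (by norm_num)
    have n2 : (1250 : ℂ) ^ j ≠ 0 := pow_ne_zero _ (by norm_num)
    have n3 : (1250 : ℂ) ^ k ≠ 0 := pow_ne_zero _ (by norm_num)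
    field_simp

/-- class `c` part -/
def cl (c : ℕ) (l : Sp) : Sp := l.filter fun m => (m.1 + 2 * m.2.1) % 3 == c

theorem deg_cl0 : deg44 (cl 0 zl) = true := by decide +kernel
theorem deg_cl1 : deg44 (cl 1 zl) = true := by decide +kernel

theorem dS_cl (n : ℕ) (l : Sp) (h : cls l = true) {ζ : ℂ} (h3 : ζ ^ 3 = 1) (v w : ℂ) :
    dS n l (ζ * v) (ζ ^ 2 * w) = dS n (cl 0 l) v w + ζ * dS n (cl 1 l) v w := by
  induction l with
  | nil => simp [dS, cl]
  | cons m l ih =>
    obtain ⟨j, k, a, b⟩ := m
    simp only [cls, Bool.and_eq_true, decide_eq_true_eq] at h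
    have ih' := ih h.2
    have e1 : ζ ^ j * (ζ ^ 2) ^ k = ζ ^ ((j + 2 * k) % 3) := by
      conv_rhs => rw [← one_mul (ζ ^ ((j + 2 * k) % 3)), ← one_pow ((j + 2 * k) / 3), ← h3, ← pow_mul,
        ← pow_add, Nat.div_add_mod]
      rw [← pow_mul, ← pow_add]
    have e2 : dS n ((j, k, a, b) :: l) (ζ * v) (ζ ^ 2 * w) =
        ((a : ℂ) + (b : ℂ) * I) * mux j k ^ n * v ^ j * w ^ k * (ζ ^ j * (ζ ^ 2) ^ k) + dS n l (ζ * v) (ζ ^ 2 * w) := by
      simp only [dS, mul_pow]; ring
    rw [e2, ih', e1]
    have h4 : (j + 2 * k) % 3 < 3 := Nat.mod_lt _ (by norm_num)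
    have h5 : (j + 2 * k) % 3 = 0 ∨ (j + 2 * k) % 3 = 1 := by omega
    rcases h5 with h5 | h5
    · have c0 : cl 0 ((j, k, a, b) :: l) = (j, k, a, b) :: cl 0 l := by simp [cl, h5]
      have c1 : cl 1 ((j, k, a, b) :: l) = cl 1 l := by simp [cl, h5]
      rw [c0, c1, h5]
      simp only [dS]
      ring
    · have c0 : cl 0 ((j, k, a, b) :: l) = cl 0 l := by simp [cl, h5]
      have c1 : cl 1 ((j, k, a, b) :: l) = (j, k, a, b) :: cl 1 l := by simp [cl, h5]
      rw [c0, c1, h5]
      simp only [dS]
      ring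

def w0 : ℕ → ℕ → ℤ := fun _ _ => 1
def w1 : ℕ → ℕ → ℤ := fun j k => (j : ℤ) + k
def w2 : ℕ → ℕ → ℤ := fun j k => 1 - (j : ℤ) + k

theorem dS0_wS (l : Sp) (v w : ℂ) : dS 0 l v w = wS w0 l v w := by
  induction l with
  | nil => rfl
  | cons m l ih =>
    obtain ⟨j, k, a, b⟩ := m
    simp only [dS, wS, ih, w0, pow_zero, mul_one, Int.cast_one, one_mul]

theorem dS1_wS (l : Sp) (v w : ℂ) : dS 1 l v w = (1 / Real.sqrt 2 : ℝ) * wS w1 l v w + I * wS w2 l v w := by
  induction l with
  | nil => simp [dS, wS]
  | cons m l ih =>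
    obtain ⟨j, k, a, b⟩ := m
    have hm : mux j k = (1 / Real.sqrt 2 : ℝ) * ((w1 j k : ℤ) : ℂ) + I * ((w2 j k : ℤ) : ℂ) := by
      have e : mux j k = ((((j : ℝ) + k) / Real.sqrt 2 : ℝ) : ℂ) + ((1 - (j : ℝ) + k : ℝ) : ℂ) * I :=
        Complex.mk_eq_add_mul_I _ _
      have e2 : (((j : ℝ) + k) / Real.sqrt 2 : ℝ) = (1 / Real.sqrt 2) * ((j : ℝ) + k) := by
        rw [div_eq_mul_inv, one_div, mul_comm]
      rw [e, e2, w1, w2, Complex.ofReal_mul]
      push_cast
      ring
    simp only [dS, wS, ih, pow_one]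
    rw [hm]
    ring

theorem kD0r : 2 * |gR w0 (cl 0 zl) * 10 ^ 40 - (9960258412134869551323013553297595434970) * (2 ^ 144 * 1250 ^ 44)| ≤ 2 ^ 144 * 1250 ^ 44 := by decide +kernel
theorem kD0i : 2 * |gI w0 (cl 0 zl) * 10 ^ 40 - (55910945287583891986169385162624074767) * (2 ^ 144 * 1250 ^ 44)| ≤ 2 ^ 144 * 1250 ^ 44 := by decide +kernel
theorem kD1r : 2 * |gR w0 (cl 1 zl) * 10 ^ 40 - (-1180625979928343667431818426921429424342) * (2 ^ 144 * 1250 ^ 44)| ≤ 2 ^ 144 * 1250 ^ 44 := by decide +kernel
theorem kD1i : 2 * |gI w0 (cl 1 zl) * 10 ^ 40 - (420458661647690862871469751567753533262) * (2 ^ 144 * 1250 ^ 44)| ≤ 2 ^ 144 * 1250 ^ 44 := by decide +kernel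
theorem kA0r : 2 * |gR w1 (cl 0 zl) * 10 ^ 40 - (-81133897554409366939359965135511088225) * (2 ^ 144 * 1250 ^ 44)| ≤ 2 ^ 144 * 1250 ^ 44 := by decide +kernel
theorem kA0i : 2 * |gI w1 (cl 0 zl) * 10 ^ 40 - (112997876890164471584608677092066554583) * (2 ^ 144 * 1250 ^ 44)| ≤ 2 ^ 144 * 1250 ^ 44 := by decide +kernel
theorem kA1r : 2 * |gR w1 (cl 1 zl) * 10 ^ 40 - (-1186320594036405192920401823489150250383) * (2 ^ 144 * 1250 ^ 44)| ≤ 2 ^ 144 * 1250 ^ 44 := by decide +kernel
theorem kA1i : 2 * |gI w1 (cl 1 zl) * 10 ^ 40 - (444038836325558615665201768724475206779) * (2 ^ 144 * 1250 ^ 44)| ≤ 2 ^ 144 * 1250 ^ 44 := by decide +kernel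
theorem kB0r : 2 * |gR w2 (cl 0 zl) * 10 ^ 40 - (9958395958325471600258763795728715156771) * (2 ^ 144 * 1250 ^ 44)| ≤ 2 ^ 144 * 1250 ^ 44 := by decide +kernel
theorem kB0i : 2 * |gI w2 (cl 0 zl) * 10 ^ 40 - (63201449886281813439173702308617728952) * (2 ^ 144 * 1250 ^ 44)| ≤ 2 ^ 144 * 1250 ^ 44 := by decide +kernel
theorem kB1r : 2 * |gR w2 (cl 1 zl) * 10 ^ 40 - (4577694472284379517534567375368497009) * (2 ^ 144 * 1250 ^ 44)| ≤ 2 ^ 144 * 1250 ^ 44 := by decide +kernel
theorem kB1i : 2 * |gI w2 (cl 1 zl) * 10 ^ 40 - (77577796890911355728016884948165734225) * (2 ^ 144 * 1250 ^ 44)| ≤ 2 ^ 144 * 1250 ^ 44 := by decide +kernel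

/-- normalized class sums -/
noncomputable def cS (w : ℕ → ℕ → ℤ) (c : ℕ) : ℂ := wS w (cl c zl) vf ((starRingEnd ℂ) vf) / 2 ^ 144

theorem cS_close (w : ℕ → ℕ → ℤ) (c : ℕ) (hd : deg44 (cl c zl) = true) (R J : ℤ)
    (h1 : 2 * |gR w (cl c zl) * 10 ^ 40 - R * (2 ^ 144 * 1250 ^ 44)| ≤ 2 ^ 144 * 1250 ^ 44)
    (h2 : 2 * |gI w (cl c zl) * 10 ^ 40 - J * (2 ^ 144 * 1250 ^ 44)| ≤ 2 ^ 144 * 1250 ^ 44) :
    ‖cS w c - ⟨(R : ℝ) / 10 ^ 40, (J : ℝ) / 10 ^ 40⟩‖ ≤ 1 / 10 ^ 40 := by
  have key : ∀ g R : ℤ, 2 * |g * 10 ^ 40 - R * (2 ^ 144 * 1250 ^ 44)| ≤ 2 ^ 144 * 1250 ^ 44 →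
      |(g : ℝ) / 1250 ^ 44 / 2 ^ 144 - (R : ℝ) / 10 ^ 40| ≤ 1 / (2 * 10 ^ 40) := by
    intro g R h
    have h' : 2 * |(g : ℝ) * 10 ^ 40 - R * (2 ^ 144 * 1250 ^ 44)| ≤ 2 ^ 144 * 1250 ^ 44 := by exact_mod_cast h
    have e : (g : ℝ) / 1250 ^ 44 / 2 ^ 144 - (R : ℝ) / 10 ^ 40 =
        ((g : ℝ) * 10 ^ 40 - R * (2 ^ 144 * 1250 ^ 44)) / (2 ^ 144 * 1250 ^ 44 * 10 ^ 40) := by
      field_simp
    rw [e, abs_div, abs_of_pos (by positivity : (0 : ℝ) < 2 ^ 144 * 1250 ^ 44 * 10 ^ 40), div_le_div_iff₀ (by positivity) (by positivity)]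
    nlinarith
  have a1 := key _ _ h1
  have a2 := key _ _ h2
  rw [cS, wS_eq w _ hd]
  have e : toC (gR w (cl c zl), gI w (cl c zl)) / 1250 ^ 44 / 2 ^ 144 - ⟨(R : ℝ) / 10 ^ 40, (J : ℝ) / 10 ^ 40⟩ =
      (((gR w (cl c zl) : ℝ) / 1250 ^ 44 / 2 ^ 144 - (R : ℝ) / 10 ^ 40 : ℝ) : ℂ) +
      (((gI w (cl c zl) : ℝ) / 1250 ^ 44 / 2 ^ 144 - (J : ℝ) / 10 ^ 40 : ℝ) : ℂ) * I := by
    have : (⟨(R : ℝ) / 10 ^ 40, (J : ℝ) / 10 ^ 40⟩ : ℂ) = (((R : ℝ) / 10 ^ 40 : ℝ) : ℂ) + (((J : ℝ) / 10 ^ 40 : ℝ) : ℂ) * I :=
      Complex.mk_eq_add_mul_I _ _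
    rw [this, toC]
    push_cast
    ring
  rw [e]
  refine (norm_add_le _ _).trans ?_
  rw [norm_mul, Complex.norm_I, mul_one, Complex.norm_real, Complex.norm_real, Real.norm_eq_abs, Real.norm_eq_abs]
  have : (1 : ℝ) / (2 * 10 ^ 40) + 1 / (2 * 10 ^ 40) = 1 / 10 ^ 40 := by norm_num
  linarith

theorem cD0 : ‖cS w0 0 - ⟨((9960258412134869551323013553297595434970 : ℤ) : ℝ) / 10 ^ 40, ((55910945287583891986169385162624074767 : ℤ) : ℝ) / 10 ^ 40⟩‖ ≤ 1 / 10 ^ 40 :=
  cS_close w0 0 deg_cl0 _ _ kD0r kD0i
theorem cD1 : ‖cS w0 1 - ⟨((-1180625979928343667431818426921429424342 : ℤ) : ℝ) / 10 ^ 40, ((420458661647690862871469751567753533262 : ℤ) : ℝ) / 10 ^ 40⟩‖ ≤ 1 / 10 ^ 40 :=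
  cS_close w0 1 deg_cl1 _ _ kD1r kD1i
theorem cA0 : ‖cS w1 0 - ⟨((-81133897554409366939359965135511088225 : ℤ) : ℝ) / 10 ^ 40, ((112997876890164471584608677092066554583 : ℤ) : ℝ) / 10 ^ 40⟩‖ ≤ 1 / 10 ^ 40 :=
  cS_close w1 0 deg_cl0 _ _ kA0r kA0i
theorem cA1 : ‖cS w1 1 - ⟨((-1186320594036405192920401823489150250383 : ℤ) : ℝ) / 10 ^ 40, ((444038836325558615665201768724475206779 : ℤ) : ℝ) / 10 ^ 40⟩‖ ≤ 1 / 10 ^ 40 :=
  cS_close w1 1 deg_cl1 _ _ kA1r kA1i
theorem cB0 : ‖cS w2 0 - ⟨((9958395958325471600258763795728715156771 : ℤ) : ℝ) / 10 ^ 40, ((63201449886281813439173702308617728952 : ℤ) : ℝ) / 10 ^ 40⟩‖ ≤ 1 / 10 ^ 40 :=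
  cS_close w2 0 deg_cl0 _ _ kB0r kB0i
theorem cB1 : ‖cS w2 1 - ⟨((4577694472284379517534567375368497009 : ℤ) : ℝ) / 10 ^ 40, ((77577796890911355728016884948165734225 : ℤ) : ℝ) / 10 ^ 40⟩‖ ≤ 1 / 10 ^ 40 :=
  cS_close w2 1 deg_cl1 _ _ kB1r kB1i

theorem mul_close {x x' y y' : ℂ} {ε δ : ℝ} (h1 : ‖x - x'‖ ≤ ε) (h2 : ‖y - y'‖ ≤ δ) (h3 : ‖x'‖ ≤ 2) (h4 : ‖y'‖ ≤ 2)
    (hδ : δ ≤ 1) : ‖x * y - x' * y'‖ ≤ 3 * ε + 2 * δ := by
  have e : x * y - x' * y' = (x - x') * y + x' * (y - y') := by ring
  have hy : ‖y‖ ≤ 3 := by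
    have := norm_add_le (y - y') y'
    rw [sub_add_cancel] at this
    linarith
  have hε : 0 ≤ ε := (norm_nonneg _).trans h1
  rw [e]
  refine (norm_add_le _ _).trans ?_
  rw [norm_mul, norm_mul]
  nlinarith [norm_nonneg (x - x'), norm_nonneg (y - y'), norm_nonneg x', norm_nonneg y]

theorem norm_mk_le (a b : ℝ) : ‖(⟨a, b⟩ : ℂ)‖ ≤ |a| + |b| := Complex.norm_le_abs_re_add_abs_im ⟨a, b⟩

def s3n : ℕ := 17320508075688772935274463415058723669428
def h2n : ℕ := 7071067811865475244008443621048490392848

theorem sqrt3_close : |Real.sqrt 3 - (s3n : ℝ) / 10 ^ 40| ≤ 1 / 10 ^ 40 := by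
  have h0 : 0 ≤ Real.sqrt 3 := Real.sqrt_nonneg 3
  have h2 : Real.sqrt 3 ^ 2 = 3 := Real.sq_sqrt (by norm_num)
  have a1 : (s3n : ℝ) / 10 ^ 40 ≤ Real.sqrt 3 := by
    refine Real.le_sqrt_of_sq_le ?_
    norm_num [s3n]
  have a2 : Real.sqrt 3 ≤ ((s3n : ℝ) + 1) / 10 ^ 40 := by
    refine Real.sqrt_le_iff.2 ⟨by positivity, ?_⟩
    norm_num [s3n]
  rw [abs_le]
  constructor
  · have : (0 : ℝ) ≤ 1 / 10 ^ 40 := by positivity
    linarith
  · have : ((s3n : ℝ) + 1) / 10 ^ 40 = (s3n : ℝ) / 10 ^ 40 + 1 / 10 ^ 40 := by ring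
    linarith

theorem h2_eq : 1 / Real.sqrt 2 = Real.sqrt (1 / 2) := by
  rw [Real.sqrt_div (by norm_num), Real.sqrt_one]

theorem h2_close : |1 / Real.sqrt 2 - (h2n : ℝ) / 10 ^ 40| ≤ 1 / 10 ^ 40 := by
  rw [h2_eq]
  have a1 : (h2n : ℝ) / 10 ^ 40 ≤ Real.sqrt (1 / 2) := by
    refine Real.le_sqrt_of_sq_le ?_
    norm_num [h2n]
  have a2 : Real.sqrt (1 / 2) ≤ ((h2n : ℝ) + 1) / 10 ^ 40 := by
    refine Real.sqrt_le_iff.2 ⟨by positivity, ?_⟩
    norm_num [h2n]
  rw [abs_le]
  constructor
  · have : (0 : ℝ) ≤ 1 / 10 ^ 40 := by positivity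
    linarith
  · have : ((h2n : ℝ) + 1) / 10 ^ 40 = (h2n : ℝ) / 10 ^ 40 + 1 / 10 ^ 40 := by ring
    linarith

theorem zeta_close : ‖zeta - ⟨-(1 / 2), (s3n : ℝ) / 10 ^ 40 / 2⟩‖ ≤ 1 / 10 ^ 40 := by
  have h := sqrt3_close
  have e : zeta - ⟨-(1 / 2), (s3n : ℝ) / 10 ^ 40 / 2⟩ = (((Real.sqrt 3 - (s3n : ℝ) / 10 ^ 40) / 2 : ℝ) : ℂ) * I := by
    rw [Complex.mk_eq_add_mul_I (-(1 / 2)) ((s3n : ℝ) / 10 ^ 40 / 2), zeta, Complex.mk_eq_add_mul_I (-(1 / 2)) (Real.sqrt 3 / 2)]
    push_cast
    ring
  rw [e, norm_mul, Complex.norm_I, mul_one, Complex.norm_real, Real.norm_eq_abs, abs_div, abs_of_pos (by norm_num : (0:ℝ) < 2)]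
  have : (0 : ℝ) ≤ 1 / 10 ^ 40 := by positivity
  linarith

theorem zeta2_close : ‖zeta ^ 2 - ⟨-(1 / 2), -((s3n : ℝ) / 10 ^ 40 / 2)⟩‖ ≤ 1 / 10 ^ 40 := by
  have h := zeta_close
  rw [← conj_zeta]
  have e : (starRingEnd ℂ) zeta - ⟨-(1 / 2), -((s3n : ℝ) / 10 ^ 40 / 2)⟩ =
      (starRingEnd ℂ) (zeta - ⟨-(1 / 2), (s3n : ℝ) / 10 ^ 40 / 2⟩) := by
    apply Complex.ext <;> simp
  rw [e, RCLike.norm_conj]
  exact h

end Pool.Agent.H60.TB
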