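import Pool.Agent.H60.TB.Res

/-! The approximate solution `pp`: derivatives, defect, sides, velocities. -/

set_option autoImplicit false
set_option maxRecDepth 100000
set_option exponentiation.threshold 2000

open Complex Set
open Pool.Agent.H99.TB hiding Ph acc phaseSpace IsSol
open Pool.Agent.H3.LG

namespace Pool.Agent.H60.TB

theorem pp_hasDerivAt (n : ℕ) (t : ℝ) : HasDerivAt (pp n) (pp (n + 1) t) t := by
  have h1 := ((ex_hasDerivAt n zl vf t).div_const (2 ^ 144 : ℂ)).const_mul (cexp (110 * I))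
  have h2 := (((ex_hasDerivAt n zl (zeta * vf) t).div_const (2 ^ 144 : ℂ)).const_mul zeta).const_mul (cexp (110 * I))
  exact h1.prodMk h2

noncomputable def ph (t : ℝ) : ℂ := cexp (110 * I) * cexp (I * ((t - 110 : ℝ) : ℂ))

theorem norm_ph (t : ℝ) : ‖ph t‖ = 1 := by
  have h1 : ‖cexp (110 * I)‖ = 1 := by
    have := Complex.norm_exp_ofReal_mul_I 110
    exact_mod_cast this
  have h2 : ‖cexp (I * ((t - 110 : ℝ) : ℂ))‖ = 1 := by
    rw [mul_comm]; exact Complex.norm_exp_ofReal_mul_I _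
  rw [ph, norm_mul, h1, h2, one_mul]

theorem pp_eq (n : ℕ) (t : ℝ) : pp n t = (ph t * qq n (vt vf t), ph t * (zeta * qq n (zeta * vt vf t))) := by
  have e : vt (zeta * vf) t = zeta * vt vf t := by rw [vt, vt]; ring
  rw [pp, ex_eq, ex_eq, e]
  refine Prod.ext ?_ ?_
  · simp only [ph, qq]; ring
  · simp only [ph, qq]; ring

theorem norm_vf : ‖vf‖ ≤ 1 := by
  have h : ‖vf‖ ^ 2 ≤ 1 := by
    rw [← Complex.normSq_eq_norm_sq, Complex.normSq_apply]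
    norm_num [vf]
  nlinarith [norm_nonneg vf]

theorem norm_vt (t : ℝ) : ‖vt vf t‖ ≤ xx t := by
  have h1 : ‖cexp (l0 * ((t - 110 : ℝ) : ℂ))‖ = xx t := by
    rw [Complex.norm_exp]
    congr 1
    rw [mul_comm, Complex.re_ofReal_mul]
    simp only [l0]
    ring
  rw [vt, norm_mul, h1]
  have h2 : 0 ≤ xx t := (Real.exp_pos _).le
  nlinarith [norm_vf]

theorem xx_le {t : ℝ} (ht : t ∈ Icc (0 : ℝ) 110) : xx t ≤ 1 := by
  rw [xx, Real.exp_le_one_iff]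
  exact div_nonpos_of_nonpos_of_nonneg (by linarith [ht.2]) (Real.sqrt_nonneg 2)

theorem vt_le {t : ℝ} (ht : t ∈ Icc (0 : ℝ) 110) : ‖vt vf t‖ ≤ 1 := (norm_vt t).trans (xx_le ht)

theorem kep_neg (x : ℂ) : kep (-x) = -kep x := by
  simp [kep]

theorem kep_rot {c : ℂ} (hc : ‖c‖ = 1) (x : ℂ) : kep (c * x) = c * kep x := by
  rw [kep, kep, norm_mul, hc, one_mul]
  ring

theorem qq_sum (n : ℕ) (v : ℂ) :
    qq n v + zeta * qq n (zeta * v) + zeta ^ 2 * qq n (zeta ^ 2 * v) = 0 := by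
  have h := dS_sum zeta_cube zeta_sum n zl cls_zl v ((starRingEnd ℂ) v)
  have e1 : (starRingEnd ℂ) (zeta * v) = zeta ^ 2 * (starRingEnd ℂ) v := by rw [map_mul, conj_zeta]
  have e2 : (starRingEnd ℂ) (zeta ^ 2 * v) = zeta * (starRingEnd ℂ) v := by
    rw [map_mul, map_pow, conj_zeta]
    linear_combination (zeta * (starRingEnd ℂ) v) * zeta_cube
  simp only [qq]
  rw [e1, e2]
  linear_combination h / 2 ^ 144

theorem nn_le {x : E} {M : ℝ} (h1 : ‖x.1‖ ≤ M) (h2 : ‖x.2‖ ≤ M) (h3 : ‖x.1 + x.2‖ ≤ M) : nn x ≤ 7 / 4 * M := by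
  have hM : 0 ≤ M := (norm_nonneg _).trans h1
  rw [nn]
  refine Real.sqrt_le_iff.2 ⟨by positivity, ?_⟩
  nlinarith [norm_nonneg x.1, norm_nonneg x.2, norm_nonneg (x.1 + x.2)]

theorem pp_res {t : ℝ} (ht : t ∈ Icc (0 : ℝ) 110) :
    nn (pp 2 t - rf kep (1 / 3) (1 / 3) (1 / 3) (pp 0 t)) ≤ 5 / 10 ^ 33 * xx t ^ 2 := by
  obtain ⟨v, hv⟩ : ∃ v : ℂ, v = vt vf t := ⟨_, rfl⟩
  obtain ⟨K, ρ0, ρ1, ρ2, h0, h1, h2, b0, b1, b2⟩ := motion v (by rw [hv]; exact vt_le ht)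
  have hz : ∀ u : ℂ, qq 0 u = zz u := fun u => by rw [qq, dS_zero, zz]
  have hs0 := qq_sum 0 v
  have hs2 := qq_sum 2 v
  rw [hz, hz, hz] at hs0
  have hp := norm_ph t
  have nz := norm_zeta
  have nz2 : ‖zeta ^ 2‖ = 1 := by rw [norm_pow, nz, one_pow]
  have k0 : kep (ph t * zz v) = ph t * kep (zz v) := kep_rot hp _
  have k1 : kep (ph t * (zeta * zz (zeta * v))) = ph t * (zeta * kep (zz (zeta * v))) := by
    rw [kep_rot hp, kep_rot nz]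
  have k2 : kep (ph t * zz v + ph t * (zeta * zz (zeta * v))) = -(ph t * (zeta ^ 2 * kep (zz (zeta ^ 2 * v)))) := by
    have e : ph t * zz v + ph t * (zeta * zz (zeta * v)) = -(ph t * (zeta ^ 2 * zz (zeta ^ 2 * v))) := by
      linear_combination ph t * hs0
    rw [e, kep_neg, kep_rot hp, kep_rot nz2]
  have c1 : (pp 2 t - rf kep (1 / 3) (1 / 3) (1 / 3) (pp 0 t)).1 = ph t * (ρ0 - (ρ0 + ρ1 + ρ2) / 3) := by
    show (pp 2 t).1 - (rf kep (1 / 3) (1 / 3) (1 / 3) (pp 0 t)).1 = _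
    rw [pp_eq, pp_eq, ← hv, rf]
    simp only [hz]
    rw [k0, k1, k2]
    push_cast
    linear_combination ph t * (h0 - (h0 + h1 + h2) / 3 + hs2 / 3)
  have c2 : (pp 2 t - rf kep (1 / 3) (1 / 3) (1 / 3) (pp 0 t)).2 = ph t * (ρ1 - (ρ0 + ρ1 + ρ2) / 3) := by
    show (pp 2 t).2 - (rf kep (1 / 3) (1 / 3) (1 / 3) (pp 0 t)).2 = _
    rw [pp_eq, pp_eq, ← hv, rf]
    simp only [hz]
    rw [k0, k1, k2]
    push_cast
    linear_combination ph t * (h1 - (h0 + h1 + h2) / 3 + hs2 / 3)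
  obtain ⟨M, hM⟩ : ∃ M : ℝ, M = 14 / 10 ^ 34 * ‖v‖ ^ 2 := ⟨_, rfl⟩
  rw [← hM] at b0 b1 b2
  have hsum : ‖(ρ0 + ρ1 + ρ2) / 3‖ ≤ M := by
    rw [norm_div, Complex.norm_ofNat]
    have := norm_add₃_le (a := ρ0) (b := ρ1) (c := ρ2)
    linarith
  have hx : M ≤ 14 / 10 ^ 34 * xx t ^ 2 := by
    rw [hM, hv]
    have := norm_vt t
    gcongr
  refine (nn_le (M := 2 * M) ?_ ?_ ?_).trans ?_
  · rw [c1, norm_mul, hp, one_mul]
    exact (norm_sub_le _ _).trans (by linarith)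
  · rw [c2, norm_mul, hp, one_mul]
    exact (norm_sub_le _ _).trans (by linarith)
  · have e : (pp 2 t - rf kep (1 / 3) (1 / 3) (1 / 3) (pp 0 t)).1 +
        (pp 2 t - rf kep (1 / 3) (1 / 3) (1 / 3) (pp 0 t)).2 = ph t * ((ρ0 + ρ1 + ρ2) / 3 - ρ2) := by
      rw [c1, c2]; ring
    rw [e, norm_mul, hp, one_mul]
    exact (norm_sub_le _ _).trans (by linarith)
  · nlinarith [sq_nonneg (xx t)]

theorem pp_sides {t : ℝ} (ht : t ∈ Icc (0 : ℝ) 110) : 1 - 3 / 20 * xx t ≤ ‖(pp 0 t).1‖ ∧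
    1 - 3 / 20 * xx t ≤ ‖(pp 0 t).2‖ ∧ 1 - 3 / 20 * xx t ≤ ‖(pp 0 t).1 + (pp 0 t).2‖ := by
  obtain ⟨v, hv⟩ : ∃ v : ℂ, v = vt vf t := ⟨_, rfl⟩
  have hv1 : ‖v‖ ≤ 1 := by rw [hv]; exact vt_le ht
  have hvx : ‖v‖ ≤ xx t := by rw [hv]; exact norm_vt t
  have hz : ∀ u : ℂ, qq 0 u = zz u := fun u => by rw [qq, dS_zero, zz]
  have hs0 := qq_sum 0 v
  rw [hz, hz, hz] at hs0
  have hp := norm_ph t
  have nz := norm_zeta
  have n1 : ‖zeta * v‖ = ‖v‖ := by rw [norm_mul, nz, one_mul]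
  have n2 : ‖zeta ^ 2 * v‖ = ‖v‖ := by rw [norm_mul, norm_pow, nz]; simp
  have g0 := zz_ge hv1
  have g1 := zz_ge (v := zeta * v) (by rw [n1]; exact hv1)
  have g2 := zz_ge (v := zeta ^ 2 * v) (by rw [n2]; exact hv1)
  rw [n1] at g1
  rw [n2] at g2
  rw [pp_eq, ← hv]
  simp only [hz]
  refine ⟨?_, ?_, ?_⟩
  · rw [norm_mul, hp, one_mul]; linarith
  · rw [norm_mul, hp, one_mul, norm_mul, nz, one_mul]; linarith
  · have e : ph t * zz v + ph t * (zeta * zz (zeta * v)) = -(ph t * (zeta ^ 2 * zz (zeta ^ 2 * v))) := by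
      linear_combination ph t * hs0
    rw [e, norm_neg, norm_mul, hp, one_mul, norm_mul, norm_pow, nz]
    simp
    linarith

def m1S : Sp → ℕ
  | [] => 0
  | (j, k, a, b) :: l => ((j + k) + (1 - (j : ℤ) + k).natAbs) * (a.natAbs + b.natAbs) + m1S l

theorem m1_zl : m1S zl ≤ 3 * 2 ^ 144 := by decide +kernel

theorem norm_mux (j k : ℕ) : ‖mux j k‖ ≤ (((j + k) + (1 - (j : ℤ) + k).natAbs : ℕ) : ℝ) := by
  have h := Complex.norm_le_abs_re_add_abs_im (mux j k)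
  refine h.trans ?_
  have h1 : |(mux j k).re| ≤ (j : ℝ) + k := by
    have e : (mux j k).re = ((j : ℝ) + k) / Real.sqrt 2 := rfl
    have h2 : 1 ≤ Real.sqrt 2 := Real.one_le_sqrt.2 (by norm_num)
    rw [e, abs_of_nonneg (by positivity)]
    exact div_le_self (by positivity) h2
  have h2 : |(mux j k).im| = ((1 - (j : ℤ) + k).natAbs : ℝ) := by
    have e : (mux j k).im = ((1 - (j : ℤ) + k : ℤ) : ℝ) := by simp [mux]
    rw [e, Nat.cast_natAbs]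
    push_cast
    rfl
  rw [h2]
  push_cast
  linarith

theorem dS_one_le (l : Sp) (v w : ℂ) (hv : ‖v‖ ≤ 1) (hw : ‖w‖ = ‖v‖) : ‖dS 1 l v w‖ ≤ m1S l := by
  induction l with
  | nil => simp [dS, m1S]
  | cons m l ih =>
    obtain ⟨j, k, a, b⟩ := m
    simp only [dS, m1S, pow_one]
    refine (norm_add_le _ _).trans ?_
    push_cast
    refine add_le_add ?_ ih
    rw [norm_mul, norm_mul, norm_mul, norm_pow, norm_pow, hw]
    have q1 := norm_gauss_le a b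
    have q2 := norm_mux j k
    push_cast at q1 q2
    have q3 : ‖v‖ ^ j ≤ 1 := pow_le_one₀ (norm_nonneg _) hv
    have q4 : ‖v‖ ^ k ≤ 1 := pow_le_one₀ (norm_nonneg _) hv
    calc _ ≤ ((a.natAbs : ℝ) + b.natAbs) * ((j : ℝ) + k + ((1 - (j : ℤ) + k).natAbs : ℝ)) * 1 * 1 := by
          gcongr
      _ = _ := by ring

theorem qq_one_le {v : ℂ} (hv : ‖v‖ ≤ 1) : ‖qq 1 v‖ ≤ 3 := by
  have h := dS_one_le zl v ((starRingEnd ℂ) v) hv (RCLike.norm_conj v)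
  have h2 : (m1S zl : ℝ) ≤ 3 * 2 ^ 144 := by exact_mod_cast m1_zl
  rw [qq, norm_div, norm_pow, Complex.norm_ofNat, div_le_iff₀ (by positivity)]
  linarith

theorem pp_vel {t : ℝ} (ht : t ∈ Icc (0 : ℝ) 110) : ‖(pp 1 t).1‖ ≤ 3 ∧ ‖(pp 1 t).2‖ ≤ 3 := by
  have hv := vt_le ht
  have hp := norm_ph t
  have nz := norm_zeta
  rw [pp_eq]
  constructor
  · show ‖ph t * qq 1 (vt vf t)‖ ≤ 3
    rw [norm_mul, hp, one_mul]; exact qq_one_le hv
  · show ‖ph t * (zeta * qq 1 (zeta * vt vf t))‖ ≤ 3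
    rw [norm_mul, hp, one_mul, norm_mul, nz, one_mul]
    exact qq_one_le (by rw [norm_mul, nz, one_mul]; exact hv)

end Pool.Agent.H60.TB
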