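import Pool.Agent.H60.TB.Dop

/-! The approximate solution satisfies the equations of motion up to a tiny defect. -/

set_option autoImplicit false
set_option maxRecDepth 100000
set_option exponentiation.threshold 2000

open Complex Set
open Pool.Agent.H99.TB hiding Ph acc phaseSpace IsSol
open Pool.Agent.H3.LG

namespace Pool.Agent.H60.TB

/-! ### facts about the data -/

theorem cls_zl : cls zl = true := by decide +kernel
theorem okd_zl : okd zl = true := by decide +kernel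
theorem mS_zl : mS zl * 10 ^ 37 ≤ 2 ^ 265 := by decide +kernel
theorem c0_zl : c0R zl = 2 ^ 144 ∧ c0I zl = 0 := by decide +kernel
theorem c0_bl : c0R bl = 2 ^ 144 ∧ c0I bl = 0 := by decide +kernel
theorem n1_zl : n1S zl * 20 ≤ 3 * 2 ^ 144 := by decide +kernel
theorem n1_bl : n1S bl * 20 ≤ 3 * 2 ^ 144 := by decide +kernel
theorem tot1_le : 2 * totg false 0 al1 be1 44 176 * 10 ^ 35 ≤ 3 * 2 ^ 576 := by decide +kernel
theorem tot2_le : 2 * totg true 0 al2 be2 44 176 * 10 ^ 34 ≤ 11 * 2 ^ 697 := by decide +kernel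

/-! ### the reciprocal cube -/

theorem kep_close {z β : ℂ} {ε : ℝ} (hε : ε ≤ 1 / 10) (h1 : ‖β ^ 2 * (z * (starRingEnd ℂ) z) - 1‖ ≤ ε)
    (h2 : ‖β - 1‖ ≤ 1 / 2) (h3 : 17 / 20 ≤ ‖z‖) : ‖kep z - β ^ 3 * z‖ ≤ 5 * ε := by
  have hr : (0 : ℝ) < ‖z‖ := by linarith
  have hε0 : 0 ≤ ε := (norm_nonneg _).trans h1
  have hz : z * (starRingEnd ℂ) z = ((‖z‖ : ℝ) : ℂ) ^ 2 := by
    rw [Complex.mul_conj, Complex.normSq_eq_norm_sq]; push_cast; rfl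
  obtain ⟨τ, hτ⟩ : ∃ τ : ℂ, τ = β * (‖z‖ : ℂ) := ⟨_, rfl⟩
  have h4 : (τ - 1) * (τ + 1) = β ^ 2 * (z * (starRingEnd ℂ) z) - 1 := by
    rw [hz, hτ]; ring
  have hβ : 1 / 2 ≤ β.re := by
    have := (Complex.abs_re_le_norm (β - 1)).trans h2
    rw [Complex.sub_re, Complex.one_re, abs_le] at this
    linarith
  have h5 : 1 ≤ ‖τ + 1‖ := by
    have h6 : (τ + 1).re = β.re * ‖z‖ + 1 := by rw [hτ]; simp
    have h7 : 1 ≤ (τ + 1).re := by rw [h6]; nlinarith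
    exact h7.trans (Complex.re_le_norm _)
  have h8 : ‖τ - 1‖ ≤ ε := by
    have h9 : ‖τ - 1‖ * ‖τ + 1‖ ≤ ε := by rw [← norm_mul, h4]; exact h1
    nlinarith [norm_nonneg (τ - 1)]
  have h10 : kep z - β ^ 3 * z = -(((1 / ‖z‖ ^ 3 : ℝ) : ℂ) * z) * ((τ - 1) * (3 + 3 * (τ - 1) + (τ - 1) ^ 2)) := by
    have hne : (‖z‖ : ℂ) ≠ 0 := by exact_mod_cast hr.ne'
    rw [kep, hτ]
    push_cast
    field_simp
    ring
  rw [h10, norm_mul, norm_neg, norm_mul, Complex.norm_real, Real.norm_of_nonneg (by positivity), norm_mul]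
  have h11 : ‖3 + 3 * (τ - 1) + (τ - 1) ^ 2‖ ≤ 3 + 3 * ε + ε ^ 2 := by
    refine (norm_add_le _ _).trans (add_le_add ((norm_add_le _ _).trans ?_) ?_)
    · rw [norm_mul]; norm_num; exact h8
    · rw [norm_pow]; gcongr
  have h12 : 1 / ‖z‖ ^ 3 * ‖z‖ ≤ 1 / (17 / 20) ^ 2 := by
    have : 1 / ‖z‖ ^ 3 * ‖z‖ = 1 / ‖z‖ ^ 2 := by field_simp
    rw [this]; gcongr
  have h13 : 3 + 3 * ε + ε ^ 2 ≤ 34 / 10 := by nlinarith
  calc _ ≤ 1 / (17 / 20) ^ 2 * (ε * (34 / 10)) := by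
        gcongr
        exact h11.trans h13
    _ ≤ 5 * ε := by nlinarith

/-! ### pointwise quantities -/

noncomputable def zz (v : ℂ) : ℂ := evS zl v ((starRingEnd ℂ) v) / 2 ^ 144
noncomputable def bt (v : ℂ) : ℂ := evS bl v ((starRingEnd ℂ) v) / 2 ^ 144
noncomputable def qq (n : ℕ) (v : ℂ) : ℂ := dS n zl v ((starRingEnd ℂ) v) / 2 ^ 144

theorem near_one (l : Sp) (h0 : c0R l = 2 ^ 144 ∧ c0I l = 0) (h1 : n1S l * 20 ≤ 3 * 2 ^ 144) (v : ℂ) (hv : ‖v‖ ≤ 1) :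
    ‖evS l v ((starRingEnd ℂ) v) / 2 ^ 144 - 1‖ ≤ 3 / 20 * ‖v‖ := by
  have h := evS_near l v ((starRingEnd ℂ) v) hv (RCLike.norm_conj v)
  rw [h0.1, h0.2] at h
  have h2 : (n1S l : ℝ) * 20 ≤ 3 * 2 ^ 144 := by exact_mod_cast h1
  have e : evS l v ((starRingEnd ℂ) v) / 2 ^ 144 - 1 =
      (evS l v ((starRingEnd ℂ) v) - (((2 ^ 144 : ℤ) : ℂ) + ((0 : ℤ) : ℂ) * I)) / 2 ^ 144 := by
    push_cast
    field_simp
    ring
  rw [e, norm_div, norm_pow, Complex.norm_ofNat, div_le_iff₀ (by positivity)]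
  refine h.trans ?_
  nlinarith [norm_nonneg v]

theorem zz_near {v : ℂ} (hv : ‖v‖ ≤ 1) : ‖zz v - 1‖ ≤ 3 / 20 * ‖v‖ := near_one zl c0_zl n1_zl v hv
theorem bt_near {v : ℂ} (hv : ‖v‖ ≤ 1) : ‖bt v - 1‖ ≤ 3 / 20 * ‖v‖ := near_one bl c0_bl n1_bl v hv

theorem zz_ge {v : ℂ} (hv : ‖v‖ ≤ 1) : 1 - 3 / 20 * ‖v‖ ≤ ‖zz v‖ := by
  have h := zz_near hv
  have h2 := norm_sub_norm_le (1 : ℂ) (1 - zz v)
  rw [sub_sub_cancel, norm_one, norm_sub_rev] at h2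
  linarith

theorem c1 {v : ℂ} (hv : ‖v‖ ≤ 1) : ‖bt v ^ 2 * (zz v * (starRingEnd ℂ) (zz v)) - 1‖ ≤ 3 / 10 ^ 35 * ‖v‖ ^ 2 := by
  have h := check1 v hv
  have h2 : (2 * (totg false 0 al1 be1 44 176 : ℕ) : ℝ) * 10 ^ 35 ≤ 3 * 2 ^ 576 := by exact_mod_cast tot1_le
  have e : bt v ^ 2 * (zz v * (starRingEnd ℂ) (zz v)) - 1 =
      (evS bl v ((starRingEnd ℂ) v) ^ 2 * (evS zl v ((starRingEnd ℂ) v) *
      (starRingEnd ℂ) (evS zl v ((starRingEnd ℂ) v))) - 2 ^ 576) / 2 ^ 576 := by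
    simp only [bt, zz, map_div₀, map_pow, map_ofNat]
    field_simp
  rw [e, norm_div, norm_pow, Complex.norm_ofNat, div_le_iff₀ (by positivity)]
  refine h.trans ?_
  have h3 : 0 ≤ ‖v‖ ^ 2 := by positivity
  have h4 : (2 * (totg false 0 al1 be1 44 176 : ℕ) : ℝ) ≤ 3 / 10 ^ 35 * 2 ^ 576 := by
    rw [div_mul_eq_mul_div, le_div_iff₀ (by positivity)]; exact h2
  calc _ ≤ (3 / 10 ^ 35 * 2 ^ 576) * ‖v‖ ^ 2 := by gcongr
    _ = _ := by ring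

theorem kep_zz {v : ℂ} (hv : ‖v‖ ≤ 1) : ‖kep (zz v) - bt v ^ 3 * zz v‖ ≤ 15 / 10 ^ 35 * ‖v‖ ^ 2 := by
  have h1 := c1 hv
  have h2 := bt_near hv
  have h3 := zz_ge hv
  have h4 : ‖v‖ ^ 2 ≤ 1 := pow_le_one₀ (norm_nonneg _) hv
  have := kep_close (ε := 3 / 10 ^ 35 * ‖v‖ ^ 2) (by linarith) h1 (by linarith) (by linarith)
  linarith

theorem conj_zeta : (starRingEnd ℂ) zeta = zeta ^ 2 := by
  have h : Real.sqrt 3 * Real.sqrt 3 = 3 := Real.mul_self_sqrt (by norm_num)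
  apply Complex.ext
  · simp [zeta, pow_two]; nlinarith
  · simp [zeta, pow_two]; ring

theorem zeta_sum : 1 + zeta + zeta ^ 2 = 0 := by
  have h : Real.sqrt 3 * Real.sqrt 3 = 3 := Real.mul_self_sqrt (by norm_num)
  apply Complex.ext
  · simp [zeta, pow_two]; nlinarith
  · simp [zeta, pow_two]; ring

theorem zeta_cube : zeta ^ 3 = 1 := by
  have := zeta_sum
  linear_combination (zeta - 1) * this

theorem norm_zeta : ‖zeta‖ = 1 := by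
  have h : ‖zeta‖ ^ 3 = 1 := by rw [← norm_pow, zeta_cube, norm_one]
  exact (pow_eq_one_iff_of_nonneg (norm_nonneg _) (by norm_num)).1 h

/-- the equations of motion for `ζ^a z(ζ^a v)` -/
theorem motion (v : ℂ) (hv : ‖v‖ ≤ 1) : ∃ (K ρ0 ρ1 ρ2 : ℂ),
    qq 2 v + kep (zz v) = K + ρ0 ∧ zeta * (qq 2 (zeta * v) + kep (zz (zeta * v))) = K + ρ1 ∧
    zeta ^ 2 * (qq 2 (zeta ^ 2 * v) + kep (zz (zeta ^ 2 * v))) = K + ρ2 ∧
    ‖ρ0‖ ≤ 14 / 10 ^ 34 * ‖v‖ ^ 2 ∧ ‖ρ1‖ ≤ 14 / 10 ^ 34 * ‖v‖ ^ 2 ∧ ‖ρ2‖ ≤ 14 / 10 ^ 34 * ‖v‖ ^ 2 := by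
  obtain ⟨R1, R2, h1, h2, h3⟩ := check2 zeta_cube
  have nz := norm_zeta
  -- one point
  have one : ∀ u : ℂ, ‖u‖ ≤ 1 → ∃ ρ : ℂ, qq 2 u + kep (zz u) = R2 u ((starRingEnd ℂ) u) / 2 ^ 697 + ρ ∧
      ‖ρ‖ ≤ 14 / 10 ^ 34 * ‖u‖ ^ 2 := by
    intro u hu
    refine ⟨R1 u ((starRingEnd ℂ) u) / 2 ^ 697 +
      (2 ^ 121 * dS 2 zl u ((starRingEnd ℂ) u) - evS (nzl zl) u ((starRingEnd ℂ) u)) / 2 ^ 265 +
      (kep (zz u) - bt u ^ 3 * zz u), ?_, ?_⟩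
    · have h := h1 u ((starRingEnd ℂ) u)
      have e : bt u ^ 3 * zz u = evS bl u ((starRingEnd ℂ) u) ^ 3 * evS zl u ((starRingEnd ℂ) u) / 2 ^ 576 := by
        simp only [bt, zz]; field_simp
      rw [e, qq]
      have h' : R2 u ((starRingEnd ℂ) u) / 2 ^ 697 + R1 u ((starRingEnd ℂ) u) / 2 ^ 697 =
          (2 ^ 432 * evS (nzl zl) u ((starRingEnd ℂ) u) +
            2 ^ 121 * (evS bl u ((starRingEnd ℂ) u) ^ 3 * evS zl u ((starRingEnd ℂ) u))) / 2 ^ 697 := by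
        rw [h]; ring
      have e2 : dS 2 zl u ((starRingEnd ℂ) u) / 2 ^ 144 + kep (zz u) =
          (2 ^ 432 * evS (nzl zl) u ((starRingEnd ℂ) u) +
            2 ^ 121 * (evS bl u ((starRingEnd ℂ) u) ^ 3 * evS zl u ((starRingEnd ℂ) u))) / 2 ^ 697 +
          ((2 ^ 121 * dS 2 zl u ((starRingEnd ℂ) u) - evS (nzl zl) u ((starRingEnd ℂ) u)) / 2 ^ 265 +
          (kep (zz u) - evS bl u ((starRingEnd ℂ) u) ^ 3 * evS zl u ((starRingEnd ℂ) u) / 2 ^ 576)) := by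
        field_simp
        ring
      rw [e2, ← h']
      ring
    · have b1 := h3 u ((starRingEnd ℂ) u) hu (RCLike.norm_conj u)
      have b2 := nzl_bound zl okd_zl u ((starRingEnd ℂ) u) hu (RCLike.norm_conj u)
      have b3 := kep_zz hu
      have t2 : (2 * (totg true 0 al2 be2 44 176 : ℕ) : ℝ) * 10 ^ 34 ≤ 11 * 2 ^ 697 := by exact_mod_cast tot2_le
      have t3 : (mS zl : ℝ) * 10 ^ 37 ≤ 2 ^ 265 := by exact_mod_cast mS_zl
      have hu2 : 0 ≤ ‖u‖ ^ 2 := by positivity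
      have d1 : ‖R1 u ((starRingEnd ℂ) u) / 2 ^ 697‖ ≤ 11 / 10 ^ 34 * ‖u‖ ^ 2 := by
        rw [norm_div, norm_pow, Complex.norm_ofNat, div_le_iff₀ (by positivity)]
        refine b1.trans ?_
        have : (2 * (totg true 0 al2 be2 44 176 : ℕ) : ℝ) ≤ 11 / 10 ^ 34 * 2 ^ 697 := by
          rw [div_mul_eq_mul_div, le_div_iff₀ (by positivity)]; exact t2
        calc _ ≤ (11 / 10 ^ 34 * 2 ^ 697) * ‖u‖ ^ 2 := by gcongr
          _ = _ := by ring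
      have d2 : ‖(2 ^ 121 * dS 2 zl u ((starRingEnd ℂ) u) - evS (nzl zl) u ((starRingEnd ℂ) u)) / 2 ^ 265‖ ≤
          1 / 10 ^ 37 * ‖u‖ ^ 2 := by
        rw [norm_div, norm_pow, Complex.norm_ofNat, div_le_iff₀ (by positivity)]
        refine b2.trans ?_
        have : (mS zl : ℝ) ≤ 1 / 10 ^ 37 * 2 ^ 265 := by
          rw [div_mul_eq_mul_div, le_div_iff₀ (by positivity)]; linarith
        calc _ ≤ (1 / 10 ^ 37 * 2 ^ 265) * ‖u‖ ^ 2 := by gcongr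
          _ = _ := by ring
      refine (norm_add_le _ _).trans ((add_le_add ((norm_add_le _ _).trans (add_le_add d1 d2)) b3).trans ?_)
      nlinarith
  have hv1 : ‖zeta * v‖ = ‖v‖ := by rw [norm_mul, nz, one_mul]
  have hv2 : ‖zeta ^ 2 * v‖ = ‖v‖ := by rw [norm_mul, norm_pow, nz]; simp
  obtain ⟨ρ0, a0, b0⟩ := one v hv
  obtain ⟨ρ1, a1, b1⟩ := one (zeta * v) (hv1.le.trans hv)
  obtain ⟨ρ2, a2, b2⟩ := one (zeta ^ 2 * v) (hv2.le.trans hv)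
  have k1 : (starRingEnd ℂ) (zeta * v) = zeta ^ 2 * (starRingEnd ℂ) v := by rw [map_mul, conj_zeta]
  have k2 : (starRingEnd ℂ) (zeta ^ 2 * v) = zeta ^ 2 * (zeta ^ 2 * (starRingEnd ℂ) v) := by
    rw [map_mul, map_pow, conj_zeta]; ring
  have r1 : R2 (zeta * v) ((starRingEnd ℂ) (zeta * v)) = zeta ^ 2 * R2 v ((starRingEnd ℂ) v) := by
    rw [k1, h2]
  have r2 : R2 (zeta ^ 2 * v) ((starRingEnd ℂ) (zeta ^ 2 * v)) = zeta ^ 4 * R2 v ((starRingEnd ℂ) v) := by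
    have : zeta ^ 2 * v = zeta * (zeta * v) := by ring
    rw [k2, this, h2, h2]; ring
  refine ⟨R2 v ((starRingEnd ℂ) v) / 2 ^ 697, ρ0, zeta * ρ1, zeta ^ 2 * ρ2, a0, ?_, ?_, b0, ?_, ?_⟩
  · rw [a1, r1]
    linear_combination (R2 v ((starRingEnd ℂ) v) / 2 ^ 697) * zeta_cube
  · rw [a2, r2]
    linear_combination (R2 v ((starRingEnd ℂ) v) / 2 ^ 697) * (zeta ^ 3 + 1) * zeta_cube
  · rw [norm_mul, nz, one_mul]; rw [hv1] at b1; exact b1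
  · rw [norm_mul, norm_pow, nz, one_pow, one_mul]; rw [hv2] at b2; exact b2

end Pool.Agent.H60.TB
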