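import Pool.Agent.H60.Box.Core

/-! Sparse bivariate polynomials with Gaussian integer coefficients, evaluated at `(v, conj v)`;
coefficient bounds from one big integer. -/

set_option autoImplicit false

open Polynomial Finset H60Box

namespace Pool.Agent.H60.TB

/-- monomials `(j, k, re, im)` standing for `(re + i im) v^j w^k` -/
abbrev Sp := List (ℕ × ℕ × ℤ × ℤ)

/-! ### polynomials -/

noncomputable def pR : Sp → ℤ[X][X]
  | [] => 0
  | (j, k, a, _) :: l => (a : ℤ[X][X]) * (C X) ^ j * X ^ k + pR l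

noncomputable def pI : Sp → ℤ[X][X]
  | [] => 0
  | (j, k, _, b) :: l => (b : ℤ[X][X]) * (C X) ^ j * X ^ k + pI l

/-- transposed -/
def tr (l : Sp) : Sp := l.map fun m => (m.2.1, m.1, m.2.2.1, -m.2.2.2)

def nR : Sp → ℕ
  | [] => 0
  | (_, _, a, _) :: l => a.natAbs + nR l

def nI : Sp → ℕ
  | [] => 0
  | (_, _, _, b) :: l => b.natAbs + nI l

/-- all exponents at most `d` -/
def dg (d : ℕ) : Sp → Bool
  | [] => true
  | (j, k, _, _) :: l => decide (j ≤ d) && decide (k ≤ d) && dg d l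

theorem dg_tr (d : ℕ) (l : Sp) (h : dg d l = true) : dg d (tr l) = true := by
  induction l with
  | nil => rfl
  | cons m l ih =>
    obtain ⟨j, k, a, b⟩ := m
    simp only [dg, Bool.and_eq_true, decide_eq_true_eq] at h
    simp only [tr, List.map_cons, dg, Bool.and_eq_true, decide_eq_true_eq]
    exact ⟨⟨h.1.2, h.1.1⟩, ih h.2⟩

theorem nR_tr (l : Sp) : nR (tr l) = nR l := by
  induction l with
  | nil => rfl
  | cons m l ih =>
    obtain ⟨j, k, a, b⟩ := m
    simp only [tr, List.map_cons, nR] at ih ⊢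
    rw [ih]

theorem nI_tr (l : Sp) : nI (tr l) = nI l := by
  induction l with
  | nil => rfl
  | cons m l ih =>
    obtain ⟨j, k, a, b⟩ := m
    simp only [tr, List.map_cons, nI] at ih ⊢
    rw [ih, Int.natAbs_neg]

theorem rep_mono (d : ℕ) (a : ℤ) (j k : ℕ) (hj : j ≤ d) (hk : k ≤ d) :
    Rep ((a : ℤ[X][X]) * (C X) ^ j * X ^ k) d d a.natAbs := by
  have h := ((Rep.intCast a).mul (Rep.inn.pow j)).mul (Rep.out.pow k)
  exact h.mono (by omega) (by omega) (by simp)

theorem rep_zero (d : ℕ) : Rep (0 : ℤ[X][X]) d d 0 := by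
  have h := Rep.natCast 0
  rw [Nat.cast_zero] at h
  exact h.mono (Nat.zero_le _) (Nat.zero_le _) le_rfl

theorem rep_pR (d : ℕ) (l : Sp) (h : dg d l = true) : Rep (pR l) d d (nR l) := by
  induction l with
  | nil => exact rep_zero d
  | cons m l ih =>
    obtain ⟨j, k, a, b⟩ := m
    simp only [dg, Bool.and_eq_true, decide_eq_true_eq] at h
    exact (rep_mono d a j k h.1.1 h.1.2).add (ih h.2)

theorem rep_pI (d : ℕ) (l : Sp) (h : dg d l = true) : Rep (pI l) d d (nI l) := by
  induction l with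
  | nil => exact rep_zero d
  | cons m l ih =>
    obtain ⟨j, k, a, b⟩ := m
    simp only [dg, Bool.and_eq_true, decide_eq_true_eq] at h
    exact (rep_mono d b j k h.1.1 h.1.2).add (ih h.2)

/-! ### values -/

def vR (l : Sp) (x y : ℤ) : ℤ :=
  match l with
  | [] => 0
  | (j, k, a, _) :: l => a * x ^ j * y ^ k + vR l x y

def vI (l : Sp) (x y : ℤ) : ℤ :=
  match l with
  | [] => 0
  | (j, k, _, b) :: l => b * x ^ j * y ^ k + vI l x y

theorem evr_pR (l : Sp) (x y : ℤ) : evr x y (pR l) = vR l x y := by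
  induction l with
  | nil => simp [pR, vR]
  | cons m l ih =>
    obtain ⟨j, k, a, b⟩ := m
    simp only [pR, vR, map_add, map_mul, map_pow, map_intCast, ih]
    simp [evr]

theorem evr_pI (l : Sp) (x y : ℤ) : evr x y (pI l) = vI l x y := by
  induction l with
  | nil => simp [pI, vI]
  | cons m l ih =>
    obtain ⟨j, k, a, b⟩ := m
    simp only [pI, vI, map_add, map_mul, map_pow, map_intCast, ih]
    simp [evr]

theorem vR_tr (l : Sp) (x y : ℤ) : vR (tr l) x y = vR l y x := by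
  induction l with
  | nil => rfl
  | cons m l ih =>
    obtain ⟨j, k, a, b⟩ := m
    simp only [tr, List.map_cons, vR] at ih ⊢
    rw [ih]; ring

theorem vI_tr (l : Sp) (x y : ℤ) : vI (tr l) x y = -vI l y x := by
  induction l with
  | nil => rfl
  | cons m l ih =>
    obtain ⟨j, k, a, b⟩ := m
    simp only [tr, List.map_cons, vI] at ih ⊢
    rw [ih]; ring

/-- the value of the complex polynomial -/
noncomputable def evS (l : Sp) (v w : ℂ) : ℂ :=
  match l with
  | [] => 0
  | (j, k, a, b) :: l => ((a : ℂ) + (b : ℂ) * Complex.I) * v ^ j * w ^ k + evS l v w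

theorem evr_evS (l : Sp) (v w : ℂ) : evS l v w = evr v w (pR l) + evr v w (pI l) * Complex.I := by
  induction l with
  | nil => simp [pR, pI, evS]
  | cons m l ih =>
    obtain ⟨j, k, a, b⟩ := m
    simp only [pR, pI, evS, map_add, map_mul, map_pow, map_intCast, ih]
    simp only [evr, coe_eval₂RingHom, eval₂_C, eval₂_X]
    ring

theorem evS_tr (l : Sp) (v : ℂ) :
    evS (tr l) v ((starRingEnd ℂ) v) = (starRingEnd ℂ) (evS l v ((starRingEnd ℂ) v)) := by
  induction l with
  | nil => simp [tr, evS]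
  | cons m l ih =>
    obtain ⟨j, k, a, b⟩ := m
    simp only [tr, List.map_cons, evS] at ih ⊢
    rw [ih]
    simp only [map_add, map_mul, map_pow, Complex.conj_conj, Complex.conj_I, map_intCast]
    push_cast
    ring

/-! ### coefficient bounds -/

/-- coefficient bound function -/
noncomputable def tP (t : ℕ → ℕ → ℕ) (a b : ℕ) : ℕ[X][X] :=
  ∑ l ∈ range (b + 1), ∑ k ∈ range (a + 1), ((t l k : ℕ) : ℕ[X][X]) * (C X) ^ k * X ^ l

theorem coeff_mono (c k l l' k' : ℕ) :
    (((c : ℕ[X][X]) * (C X) ^ k * X ^ l).coeff l').coeff k' = if l' = l then (if k' = k then c else 0) else 0 := by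
  have e : ((c : ℕ[X][X]) * (C X) ^ k * X ^ l) = C (C c * X ^ k) * X ^ l := by
    simp
  rw [e, coeff_C_mul_X_pow]
  split_ifs with h1 h2
  · rw [h2, coeff_C_mul_X_pow, if_pos rfl]
  · rw [coeff_C_mul_X_pow, if_neg h2]
  · simp

theorem coeff_tP (t : ℕ → ℕ → ℕ) (a b l k : ℕ) :
    ((tP t a b).coeff l).coeff k = if l ≤ b then (if k ≤ a then t l k else 0) else 0 := by
  simp only [tP, finsetSum_coeff, coeff_mono]
  by_cases hl : l ≤ b
  · rw [if_pos hl, Finset.sum_eq_single_of_mem l (by simp; omega)]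
    · by_cases hk : k ≤ a
      · rw [if_pos hk, Finset.sum_eq_single_of_mem k (by simp; omega)]
        · simp
        · intro x _ hx
          rw [if_pos rfl, if_neg (Ne.symm hx)]
      · rw [if_neg hk]
        refine Finset.sum_eq_zero fun x hx => ?_
        have : x < a + 1 := Finset.mem_range.mp hx
        rw [if_pos rfl, if_neg (by omega)]
    · intro x _ hx
      refine Finset.sum_eq_zero fun y _ => ?_
      rw [if_neg (Ne.symm hx)]
  · rw [if_neg hl]
    refine Finset.sum_eq_zero fun x hx => Finset.sum_eq_zero fun y _ => ?_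
    have : x < b + 1 := Finset.mem_range.mp hx
    rw [if_neg (by omega)]

/-- total of the bounds -/
def tot (t : ℕ → ℕ → ℕ) (a b : ℕ) : ℕ := ∑ l ∈ range (b + 1), ∑ k ∈ range (a + 1), t l k

theorem degB_tP (t : ℕ → ℕ → ℕ) (a b : ℕ) : DegB (tP t a b) a b := by
  constructor
  · rw [natDegree_le_iff_coeff_eq_zero]
    intro l hl
    ext k
    rw [coeff_tP, if_neg (by omega), coeff_zero]
  · intro l
    rw [natDegree_le_iff_coeff_eq_zero]
    intro k hk
    rw [coeff_tP]
    split_ifs with h1 h2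
    · omega
    · rfl
    · rfl

theorem ev1_tP (t : ℕ → ℕ → ℕ) (a b : ℕ) : ev1 (tP t a b) = tot t a b := by
  simp only [tP, tot, map_sum, map_mul, map_pow, map_natCast]
  refine Finset.sum_congr rfl fun l _ => Finset.sum_congr rfl fun k _ => ?_
  simp [ev1]

theorem rep_tP (t : ℕ → ℕ → ℕ) (a b : ℕ) : Rep (cst (tP t a b)) a b (tot t a b) :=
  ⟨tP t a b, 0, by simp, degB_tP t a b, ⟨by simp, by simp⟩, by rw [ev1_tP]; simp⟩

/-- kernel version of `∑_k t k x^k`, `i ≤ k < i + n` -/
def hor (t : ℕ → ℕ) (x : ℕ) : ℕ → ℕ → ℕ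
  | _, 0 => 0
  | i, n + 1 => t i + x * hor t x (i + 1) n

def hor2 (t : ℕ → ℕ → ℕ) (x y a : ℕ) : ℕ → ℕ → ℕ
  | _, 0 => 0
  | i, n + 1 => hor (t i) x 0 a + y * hor2 t x y a (i + 1) n

theorem hor_eq (t : ℕ → ℕ) (x i n : ℕ) : hor t x i n = ∑ k ∈ range n, t (i + k) * x ^ k := by
  induction n generalizing i with
  | zero => simp [hor]
  | succ n ih =>
    rw [hor, ih, Finset.sum_range_succ', Finset.mul_sum]
    simp only [pow_zero, mul_one, add_zero]
    rw [add_comm]
    congr 1
    refine Finset.sum_congr rfl fun k _ => ?_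
    rw [show i + 1 + k = i + (k + 1) by ring, pow_succ]
    ring

theorem hor2_eq (t : ℕ → ℕ → ℕ) (x y a i n : ℕ) :
    hor2 t x y a i n = ∑ l ∈ range n, (∑ k ∈ range a, t (i + l) k * x ^ k) * y ^ l := by
  induction n generalizing i with
  | zero => simp [hor2]
  | succ n ih =>
    rw [hor2, ih, Finset.sum_range_succ', Finset.mul_sum, hor_eq]
    simp only [pow_zero, mul_one, add_zero, zero_add]
    rw [add_comm]
    congr 1
    refine Finset.sum_congr rfl fun k _ => ?_
    rw [show i + 1 + k = i + (k + 1) by ring, pow_succ]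
    ring

theorem evr_tP (t : ℕ → ℕ → ℕ) (a b x y : ℕ) :
    evr (x : ℤ) (y : ℤ) (cst (tP t a b)) = (hor2 t x y (a + 1) 0 (b + 1) : ℕ) := by
  rw [hor2_eq]
  simp only [tP, map_sum, map_mul, map_pow, map_natCast]
  push_cast
  refine Finset.sum_congr rfl fun l _ => ?_
  rw [Finset.sum_mul]
  refine Finset.sum_congr rfl fun k _ => ?_
  simp [cst, evr]

/-- **coefficient bounds from big integers** -/
theorem coeff_le {G : ℤ[X][X]} {a b B N : ℕ} (hG : Rep G a b B) (t : ℕ → ℕ → ℕ)
    (hB : tot t a b + B < 2 ^ N) (V : ℤ)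
    (hV : evr ((2 : ℤ) ^ (N + 1)) (((2 : ℤ) ^ (N + 1)) ^ (a + 1)) G = V)
    (h1 : (((hor2 t (2 ^ (N + 1)) ((2 ^ (N + 1)) ^ (a + 1)) (a + 1) 0 (b + 1) : ℕ) - V : ℤ)
      + (mask N ((a + 1) * (b + 1)) : ℕ)).toNat &&& mask N ((a + 1) * (b + 1))
      = mask N ((a + 1) * (b + 1)))
    (h2 : (((hor2 t (2 ^ (N + 1)) ((2 ^ (N + 1)) ^ (a + 1)) (a + 1) 0 (b + 1) : ℕ) + V : ℤ)
      + (mask N ((a + 1) * (b + 1)) : ℕ)).toNat &&& mask N ((a + 1) * (b + 1))
      = mask N ((a + 1) * (b + 1))) :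
    ∀ l k, l ≤ b → k ≤ a → |(G.coeff l).coeff k| ≤ t l k := by
  have hT := evr_tP t a b (2 ^ (N + 1)) ((2 ^ (N + 1)) ^ (a + 1))
  push_cast at hT
  have r1 := (rep_tP t a b).sub hG
  have r2 := (rep_tP t a b).add hG
  have c1 := coeff_nonneg r1 hB (by rw [map_sub, hT, hV]; push_cast at h1 ⊢; exact h1)
  have c2 := coeff_nonneg r2 hB (by rw [map_add, hT, hV]; push_cast at h2 ⊢; exact h2)
  intro l k hl hk
  have d1 := c1 l k
  have d2 := c2 l k
  rw [coeff_sub, coeff_sub, coeff_cst, coeff_tP, if_pos hl, if_pos hk] at d1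
  rw [coeff_add, coeff_add, coeff_cst, coeff_tP, if_pos hl, if_pos hk] at d2
  rw [abs_le]
  constructor <;> linarith

end Pool.Agent.H60.TB
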