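import Pool.Agent.H60.TB.Mot

/-! WU-START: the approximate solution at `t = 0` and the second order point. -/

set_option autoImplicit false
set_option maxRecDepth 100000
set_option exponentiation.threshold 2000

open Complex Set
open Pool.Agent.H99.TB hiding Ph acc phaseSpace IsSol
open Pool.Agent.H3.LG

namespace Pool.Agent.H60.TB

def lo (l : Sp) : Sp := l.filter fun m => decide (m.1 + m.2.1 ≤ 2)
def hi (l : Sp) : Sp := l.filter fun m => !decide (m.1 + m.2.1 ≤ 2)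

theorem dS_split (n : ℕ) (l : Sp) (v w : ℂ) : dS n l v w = dS n (lo l) v w + dS n (hi l) v w := by
  induction l with
  | nil => simp [lo, hi, dS]
  | cons m l ih =>
    obtain ⟨j, k, a, b⟩ := m
    by_cases h : j + k ≤ 2
    · have e1 : lo ((j, k, a, b) :: l) = (j, k, a, b) :: lo l := by simp [lo, h]
      have e2 : hi ((j, k, a, b) :: l) = hi l := by simp [hi, h]
      rw [e1, e2]
      simp only [dS]
      rw [ih]; ring
    · have e1 : lo ((j, k, a, b) :: l) = lo l := by simp [lo, h]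
      have e2 : hi ((j, k, a, b) :: l) = (j, k, a, b) :: hi l := by simp [hi, h]
      rw [e1, e2]
      simp only [dS]
      rw [ih]; ring

def A02 : ℤ := 38207142952526423967817499781812571110849
def B02 : ℤ := 43226447794392389442476242634576852332169
def A11 : ℤ := -87112285931760246646623899502532662132736
def B11 : ℤ := 123195376214018309911057291508544029146683

theorem lo_zl : lo zl = [(0, 0, 2 ^ 144, 0), (1, 0, -2 ^ 141, 0), (0, 2, A02, B02), (1, 1, A11, B11)] := by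
  decide +kernel

theorem hi0 : 512 * (nR (hi zl) + nI (hi zl)) ≤ 2 ^ 144 := by decide +kernel
theorem hi1 : 512 * m1S (hi zl) ≤ 3 * 2 ^ 144 := by decide +kernel

theorem dS_hi0 (l : Sp) (v w : ℂ) (hv : ‖v‖ ≤ 1) (hw : ‖w‖ = ‖v‖) :
    ‖dS 0 (hi l) v w‖ ≤ ((nR (hi l) + nI (hi l) : ℕ) : ℝ) * ‖v‖ ^ 3 := by
  induction l with
  | nil => simp [hi, dS, nR, nI]
  | cons m l ih =>
    obtain ⟨j, k, a, b⟩ := m
    by_cases h : j + k ≤ 2
    · have e2 : hi ((j, k, a, b) :: l) = hi l := by simp [hi, h]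
      rw [e2]; exact ih
    · have e2 : hi ((j, k, a, b) :: l) = (j, k, a, b) :: hi l := by simp [hi, h]
      rw [e2]
      simp only [dS, nR, nI, pow_zero, mul_one]
      refine (norm_add_le _ _).trans ?_
      have q1 := norm_gauss_le a b
      have q3 : ‖v‖ ^ (j + k) ≤ ‖v‖ ^ 3 := pow_le_pow_of_le_one (norm_nonneg _) hv (by omega)
      have q4 : ‖((a : ℂ) + (b : ℂ) * I) * v ^ j * w ^ k‖ ≤ ((a.natAbs + b.natAbs : ℕ) : ℝ) * ‖v‖ ^ 3 := by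
        rw [mul_assoc, norm_mul, norm_mul, norm_pow, norm_pow, hw, ← pow_add]
        gcongr
      push_cast at q4 ih ⊢
      nlinarith

theorem dS_hi1 (l : Sp) (v w : ℂ) (hv : ‖v‖ ≤ 1) (hw : ‖w‖ = ‖v‖) :
    ‖dS 1 (hi l) v w‖ ≤ m1S (hi l) * ‖v‖ ^ 3 := by
  induction l with
  | nil => simp [hi, dS, m1S]
  | cons m l ih =>
    obtain ⟨j, k, a, b⟩ := m
    by_cases h : j + k ≤ 2
    · have e2 : hi ((j, k, a, b) :: l) = hi l := by simp [hi, h]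
      rw [e2]; exact ih
    · have e2 : hi ((j, k, a, b) :: l) = (j, k, a, b) :: hi l := by simp [hi, h]
      rw [e2]
      simp only [dS, m1S, pow_one]
      refine (norm_add_le _ _).trans ?_
      have q1 := norm_gauss_le a b
      have q2 := norm_mux j k
      have q3 : ‖v‖ ^ (j + k) ≤ ‖v‖ ^ 3 := pow_le_pow_of_le_one (norm_nonneg _) hv (by omega)
      have q4 : ‖((a : ℂ) + (b : ℂ) * I) * mux j k * v ^ j * w ^ k‖ ≤
          ((a.natAbs + b.natAbs : ℕ) : ℝ) * (((j + k) + (1 - (j : ℤ) + k).natAbs : ℕ) : ℝ) * ‖v‖ ^ 3 := by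
        rw [mul_assoc, norm_mul, norm_mul, norm_mul, norm_pow, norm_pow, hw, ← pow_add]
        gcongr
      push_cast at q4 ih ⊢
      nlinarith

theorem cc_eq : cc = ⟨25 / 228, 5 * Real.sqrt 2 / 57⟩ := by
  have h : Real.sqrt 2 * Real.sqrt 2 = 2 := Real.mul_self_sqrt (by norm_num)
  have hne : (⟨15 / 2, -(6 * Real.sqrt 2)⟩ : ℂ) ≠ 0 := by
    intro h0
    have := congrArg Complex.re h0
    norm_num at this
  rw [cc, div_eq_iff hne]
  apply Complex.ext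
  · simp
    linear_combination (-10 / 19) * h
  · simp
    ring

theorem sqrt2_bd : |Real.sqrt 2 - (r2 : ℝ) / 2 ^ 120| ≤ 1 / 2 ^ 120 := by
  have h := r2_bound
  have e : Real.sqrt 2 - (r2 : ℝ) / 2 ^ 120 = (2 ^ 120 * Real.sqrt 2 - r2) / 2 ^ 120 := by
    field_simp
  rw [e, abs_div, abs_of_pos (by positivity : (0 : ℝ) < 2 ^ 120)]
  gcongr

theorem c02_close : ‖(64 * ((A02 : ℂ) + (B02 : ℂ) * I)) / 2 ^ 144 - cc‖ ≤ 1 / 10 ^ 36 := by
  have h := abs_le.1 sqrt2_bd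
  have e : (64 * ((A02 : ℂ) + (B02 : ℂ) * I)) / 2 ^ 144 - cc =
      ((64 * (A02 : ℝ) / 2 ^ 144 - 25 / 228 : ℝ) : ℂ) + ((64 * (B02 : ℝ) / 2 ^ 144 - 5 * Real.sqrt 2 / 57 : ℝ) : ℂ) * I := by
    have : cc = ((25 / 228 : ℝ) : ℂ) + ((5 * Real.sqrt 2 / 57 : ℝ) : ℂ) * I := by
      rw [cc_eq]; apply Complex.ext <;> simp
    rw [this]
    push_cast
    ring
  rw [e]
  refine (norm_add_le _ _).trans ?_
  rw [norm_mul, Complex.norm_I, mul_one, Complex.norm_real, Complex.norm_real, Real.norm_eq_abs, Real.norm_eq_abs]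
  have h1 : |64 * (A02 : ℝ) / 2 ^ 144 - 25 / 228| ≤ 1 / 10 ^ 37 := by
    rw [abs_le]; constructor <;> norm_num [A02]
  have h2 : |64 * (B02 : ℝ) / 2 ^ 144 - 5 * Real.sqrt 2 / 57| ≤ 4 / 10 ^ 37 := by
    have h3 : |64 * (B02 : ℝ) / 2 ^ 144 - 5 * ((r2 : ℝ) / 2 ^ 120) / 57| ≤ 1 / (2 * 10 ^ 37) := by
      rw [abs_le]; constructor <;> norm_num [B02, r2]
    have h4 := abs_le.1 h3
    rw [abs_le]
    constructor
    · have : (1 : ℝ) / 2 ^ 120 * (5 / 57) ≤ 8 / 10 ^ 38 := by norm_num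
      nlinarith [h.1, h.2, h4.1, h4.2]
    · have : (1 : ℝ) / 2 ^ 120 * (5 / 57) ≤ 8 / 10 ^ 38 := by norm_num
      nlinarith [h.1, h.2, h4.1, h4.2]
  have : (1 : ℝ) / 10 ^ 37 + 4 / 10 ^ 37 ≤ 1 / 10 ^ 36 := by norm_num
  linarith

theorem c11_close : ‖(64 * ((A11 : ℂ) + (B11 : ℂ) * I)) / 2 ^ 144 - bb‖ ≤ 1 / 10 ^ 36 := by
  have h := abs_le.1 sqrt2_bd
  have e : (64 * ((A11 : ℂ) + (B11 : ℂ) * I)) / 2 ^ 144 - bb =
      ((64 * (A11 : ℝ) / 2 ^ 144 + 1 / 4 : ℝ) : ℂ) + ((64 * (B11 : ℝ) / 2 ^ 144 - Real.sqrt 2 / 4 : ℝ) : ℂ) * I := by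
    have : bb = ((-(1 / 4) : ℝ) : ℂ) + ((Real.sqrt 2 / 4 : ℝ) : ℂ) * I := by
      rw [bb]; apply Complex.ext <;> simp
    rw [this]
    push_cast
    ring
  rw [e]
  refine (norm_add_le _ _).trans ?_
  rw [norm_mul, Complex.norm_I, mul_one, Complex.norm_real, Complex.norm_real, Real.norm_eq_abs, Real.norm_eq_abs]
  have h1 : |64 * (A11 : ℝ) / 2 ^ 144 + 1 / 4| ≤ 1 / 10 ^ 37 := by
    rw [abs_le]; constructor <;> norm_num [A11]
  have h2 : |64 * (B11 : ℝ) / 2 ^ 144 - Real.sqrt 2 / 4| ≤ 4 / 10 ^ 37 := by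
    have h3 : |64 * (B11 : ℝ) / 2 ^ 144 - ((r2 : ℝ) / 2 ^ 120) / 4| ≤ 1 / 10 ^ 37 := by
      rw [abs_le]; constructor <;> norm_num [B11, r2]
    have h4 := abs_le.1 h3
    have : (1 : ℝ) / 2 ^ 120 * (1 / 4) ≤ 2 / 10 ^ 37 := by norm_num
    rw [abs_le]
    constructor
    · nlinarith [h.1, h.2, h4.1, h4.2]
    · nlinarith [h.1, h.2, h4.1, h4.2]
  have : (1 : ℝ) / 10 ^ 37 + 4 / 10 ^ 37 ≤ 1 / 10 ^ 36 := by norm_num
  linarith

/-- third order agreement of the positions -/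
theorem third0 {u : ℂ} (h1 : 1 / 10 ^ 36 ≤ ‖u‖) (h2 : ‖u‖ ≤ 1 / 8) :
    ‖qq 0 (-8 * u) - (1 + u + bb * (u * (starRingEnd ℂ) u) + cc * (starRingEnd ℂ) u ^ 2)‖ ≤ 3 * ‖u‖ ^ 3 := by
  have hv : ‖-8 * u‖ = 8 * ‖u‖ := by rw [norm_mul]; norm_num
  have hv1 : ‖-8 * u‖ ≤ 1 := by rw [hv]; linarith
  have hh := dS_hi0 zl (-8 * u) ((starRingEnd ℂ) (-8 * u)) hv1 (RCLike.norm_conj _)
  rw [hv] at hh
  have hn : (512 * (nR (hi zl) + nI (hi zl) : ℕ) : ℝ) ≤ 2 ^ 144 := by exact_mod_cast hi0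
  have ec : (starRingEnd ℂ) (-8 * u) = -8 * (starRingEnd ℂ) u := by
    rw [map_mul, map_neg, map_ofNat]
  have e : qq 0 (-8 * u) - (1 + u + bb * (u * (starRingEnd ℂ) u) + cc * (starRingEnd ℂ) u ^ 2) =
      ((64 * ((A02 : ℂ) + (B02 : ℂ) * I)) / 2 ^ 144 - cc) * (starRingEnd ℂ) u ^ 2 +
      ((64 * ((A11 : ℂ) + (B11 : ℂ) * I)) / 2 ^ 144 - bb) * (u * (starRingEnd ℂ) u) +
      dS 0 (hi zl) (-8 * u) ((starRingEnd ℂ) (-8 * u)) / 2 ^ 144 := by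
    rw [qq, dS_split, lo_zl]
    simp only [dS, pow_zero, mul_one, pow_one]
    rw [ec]
    push_cast
    ring
  rw [e]
  have b1 := c02_close
  have b2 := c11_close
  have n0 : 0 ≤ ‖u‖ := norm_nonneg u
  have d1 : ‖((64 * ((A02 : ℂ) + (B02 : ℂ) * I)) / 2 ^ 144 - cc) * (starRingEnd ℂ) u ^ 2‖ ≤ ‖u‖ ^ 3 := by
    rw [norm_mul, norm_pow, RCLike.norm_conj]
    calc _ ≤ ‖u‖ * ‖u‖ ^ 2 := by gcongr; exact b1.trans h1
      _ = _ := by ring
  have d2 : ‖((64 * ((A11 : ℂ) + (B11 : ℂ) * I)) / 2 ^ 144 - bb) * (u * (starRingEnd ℂ) u)‖ ≤ ‖u‖ ^ 3 := by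
    rw [norm_mul, norm_mul, RCLike.norm_conj]
    calc _ ≤ ‖u‖ * (‖u‖ * ‖u‖) := by gcongr; exact b2.trans h1
      _ = _ := by ring
  have d3 : ‖dS 0 (hi zl) (-8 * u) ((starRingEnd ℂ) (-8 * u)) / 2 ^ 144‖ ≤ ‖u‖ ^ 3 := by
    rw [norm_div, norm_pow, Complex.norm_ofNat, div_le_iff₀ (by positivity)]
    refine hh.trans ?_
    have : 0 ≤ ‖u‖ ^ 3 := by positivity
    nlinarith
  refine (norm_add_le _ _).trans ?_
  have := norm_add_le (((64 * ((A02 : ℂ) + (B02 : ℂ) * I)) / 2 ^ 144 - cc) * (starRingEnd ℂ) u ^ 2)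
    (((64 * ((A11 : ℂ) + (B11 : ℂ) * I)) / 2 ^ 144 - bb) * (u * (starRingEnd ℂ) u))
  linarith

theorem third1 {u : ℂ} (h1 : 1 / 10 ^ 36 ≤ ‖u‖) (h2 : ‖u‖ ≤ 1 / 8) :
    ‖qq 1 (-8 * u) - (mux 0 0 + mux 1 0 * u + mux 1 1 * bb * (u * (starRingEnd ℂ) u) +
      mux 0 2 * cc * (starRingEnd ℂ) u ^ 2)‖ ≤ 12 * ‖u‖ ^ 3 := by
  have hv : ‖-8 * u‖ = 8 * ‖u‖ := by rw [norm_mul]; norm_num
  have hv1 : ‖-8 * u‖ ≤ 1 := by rw [hv]; linarith
  have hh := dS_hi1 zl (-8 * u) ((starRingEnd ℂ) (-8 * u)) hv1 (RCLike.norm_conj _)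
  rw [hv] at hh
  have hn : (512 * (m1S (hi zl) : ℕ) : ℝ) ≤ 3 * 2 ^ 144 := by exact_mod_cast hi1
  have ec : (starRingEnd ℂ) (-8 * u) = -8 * (starRingEnd ℂ) u := by
    rw [map_mul, map_neg, map_ofNat]
  have e : qq 1 (-8 * u) - (mux 0 0 + mux 1 0 * u + mux 1 1 * bb * (u * (starRingEnd ℂ) u) +
      mux 0 2 * cc * (starRingEnd ℂ) u ^ 2) =
      mux 0 2 * (((64 * ((A02 : ℂ) + (B02 : ℂ) * I)) / 2 ^ 144 - cc) * (starRingEnd ℂ) u ^ 2) +
      mux 1 1 * (((64 * ((A11 : ℂ) + (B11 : ℂ) * I)) / 2 ^ 144 - bb) * (u * (starRingEnd ℂ) u)) +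
      dS 1 (hi zl) (-8 * u) ((starRingEnd ℂ) (-8 * u)) / 2 ^ 144 := by
    rw [qq, dS_split, lo_zl]
    simp only [dS, pow_zero, mul_one, pow_one]
    rw [ec]
    push_cast
    ring
  rw [e]
  have b1 := c02_close
  have b2 := c11_close
  have n0 : 0 ≤ ‖u‖ := norm_nonneg u
  have m1 := norm_mux 0 2
  have m2 := norm_mux 1 1
  norm_num at m1 m2
  have d1 : ‖mux 0 2 * (((64 * ((A02 : ℂ) + (B02 : ℂ) * I)) / 2 ^ 144 - cc) * (starRingEnd ℂ) u ^ 2)‖ ≤ 5 * ‖u‖ ^ 3 := by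
    rw [norm_mul, norm_mul, norm_pow, RCLike.norm_conj]
    calc _ ≤ 5 * (‖u‖ * ‖u‖ ^ 2) := by gcongr; exact b1.trans h1
      _ = _ := by ring
  have d2 : ‖mux 1 1 * (((64 * ((A11 : ℂ) + (B11 : ℂ) * I)) / 2 ^ 144 - bb) * (u * (starRingEnd ℂ) u))‖ ≤ 4 * ‖u‖ ^ 3 := by
    rw [norm_mul, norm_mul, norm_mul, RCLike.norm_conj]
    calc _ ≤ 4 * (‖u‖ * (‖u‖ * ‖u‖)) := by gcongr; · linarith
                                           · exact b2.trans h1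
      _ = _ := by ring
  have d3 : ‖dS 1 (hi zl) (-8 * u) ((starRingEnd ℂ) (-8 * u)) / 2 ^ 144‖ ≤ 3 * ‖u‖ ^ 3 := by
    rw [norm_div, norm_pow, Complex.norm_ofNat, div_le_iff₀ (by positivity)]
    refine hh.trans ?_
    have : 0 ≤ ‖u‖ ^ 3 := by positivity
    nlinarith
  refine (norm_add_le _ _).trans ?_
  have := norm_add_le (mux 0 2 * (((64 * ((A02 : ℂ) + (B02 : ℂ) * I)) / 2 ^ 144 - cc) * (starRingEnd ℂ) u ^ 2))
    (mux 1 1 * (((64 * ((A11 : ℂ) + (B11 : ℂ) * I)) / 2 ^ 144 - bb) * (u * (starRingEnd ℂ) u)))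
  linarith

theorem exp_bounds : 1 / 10 ^ 34 ≤ Real.exp (-110 / Real.sqrt 2) ∧ Real.exp (-110 / Real.sqrt 2) ≤ 1 / (4 * 10 ^ 33) := by
  have h2 : Real.sqrt 2 ^ 2 = 2 := Real.sq_sqrt (by norm_num)
  have h0 : 0 < Real.sqrt 2 := by positivity
  have l1 : 110 / Real.sqrt 2 ≤ 78 := by
    rw [div_le_iff₀ h0]
    nlinarith
  have l2 : 77 + 1 / 2 ≤ 110 / Real.sqrt 2 := by
    rw [le_div_iff₀ h0]
    nlinarith
  have e : -110 / Real.sqrt 2 = -(110 / Real.sqrt 2) := by ring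
  rw [e, Real.exp_neg]
  have a1 : Real.exp (110 / Real.sqrt 2) ≤ 10 ^ 34 := by
    calc Real.exp (110 / Real.sqrt 2) ≤ Real.exp 78 := Real.exp_le_exp.2 l1
      _ = Real.exp 1 ^ 78 := by rw [← Real.exp_nat_mul]; norm_num
      _ ≤ 2.7182818286 ^ 78 := by
          gcongr
          exact Real.exp_one_lt_d9.le
      _ ≤ _ := by norm_num
  have a2 : 4 * 10 ^ 33 ≤ Real.exp (110 / Real.sqrt 2) := by
    calc (4 * 10 ^ 33 : ℝ) ≤ 2.7182818283 ^ 77 * (1 / 2 + 1) := by norm_num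
      _ ≤ Real.exp 1 ^ 77 * Real.exp (1 / 2) := by
          gcongr
          · exact Real.exp_one_gt_d9.le
          · exact Real.add_one_le_exp _
      _ = Real.exp (77 + 1 / 2) := by rw [← Real.exp_nat_mul, ← Real.exp_add]; norm_num
      _ ≤ _ := Real.exp_le_exp.2 l2
  constructor
  · rw [one_div]
    exact inv_anti₀ (Real.exp_pos _) a1
  · rw [one_div]
    exact inv_anti₀ (by positivity) a2

theorem vf_ge : 99 / 100 ≤ ‖vf‖ := by
  have h : (99 / 100 : ℝ) ^ 2 ≤ ‖vf‖ ^ 2 := by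
    rw [← Complex.normSq_eq_norm_sq, Complex.normSq_apply]
    norm_num [vf]
  exact (sq_le_sq₀ (by norm_num) (norm_nonneg _)).1 h

theorem norm_gs : ‖gs‖ = ‖vf‖ / 8 * Real.exp (-110 / Real.sqrt 2) := by
  rw [gs, norm_mul, norm_neg, norm_div, Complex.norm_ofNat, Complex.norm_exp]
  congr 2
  simp [l0]
  ring

theorem gs_ge : 1 / 10 ^ 36 ≤ ‖gs‖ := by
  rw [norm_gs]
  have h1 := exp_bounds.1
  have h2 := vf_ge
  calc (1 / 10 ^ 36 : ℝ) ≤ (99 / 100) / 8 * (1 / 10 ^ 34) := by norm_num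
    _ ≤ _ := by gcongr

theorem gs_le : ‖gs‖ ≤ 4 / 10 ^ 35 := by
  rw [norm_gs]
  have h1 := exp_bounds.2
  have h2 := norm_vf
  calc ‖vf‖ / 8 * Real.exp (-110 / Real.sqrt 2) ≤ 1 / 8 * (1 / (4 * 10 ^ 33)) := by gcongr
    _ ≤ 4 / 10 ^ 35 := by norm_num

theorem pp_zero (n : ℕ) : pp n 0 = (qq n (-8 * gs), zeta * qq n (-8 * (zeta * gs))) := by
  have e1 : ph 0 = 1 := by
    rw [ph, ← Complex.exp_add]
    have : (110 * I + I * ((0 - 110 : ℝ) : ℂ)) = 0 := by push_cast; ring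
    rw [this, Complex.exp_zero]
  have e2 : vt vf 0 = -8 * gs := by
    have h : l0 * ((0 - 110 : ℝ) : ℂ) = -(110 * l0) := by push_cast; ring
    rw [vt, gs, h]
    ring
  rw [pp_eq, e1, e2, one_mul, one_mul]
  have e3 : zeta * (-8 * gs) = -8 * (zeta * gs) := by ring
  rw [e3]

theorem start_ : S_START := by
  have g1 := gs_ge
  have g2 := gs_le
  have gpos : 0 < ‖gs‖ := lt_of_lt_of_le (by norm_num) g1
  have nz := norm_zeta
  have hzg : ‖zeta * gs‖ = ‖gs‖ := by rw [norm_mul, nz, one_mul]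
  have hc : (starRingEnd ℂ) (zeta * gs) = zeta ^ 2 * (starRingEnd ℂ) gs := by rw [map_mul, conj_zeta]
  have a0 := third0 (u := gs) g1 (by linarith)
  have a1 := third0 (u := zeta * gs) (by rw [hzg]; exact g1) (by rw [hzg]; linarith)
  have b0 := third1 (u := gs) g1 (by linarith)
  have b1 := third1 (u := zeta * gs) (by rw [hzg]; exact g1) (by rw [hzg]; linarith)
  rw [hzg] at a1 b1
  have m00 : mux 0 0 = I := by rw [mux_eq]; simp
  have m10 : mux 1 0 = l0 + I := by rw [mux_eq]; simp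
  have m11 : mux 1 1 = l0 + (starRingEnd ℂ) l0 + I := by rw [mux_eq]; simp
  have m02 : mux 0 2 = 2 * (starRingEnd ℂ) l0 + I := by rw [mux_eq]; simp
  have z3 := zeta_cube
  refine ⟨norm_pos_iff.1 gpos, g2, ?_, ?_⟩
  · have p1 : (pp 0 0 - (start gs).1).1 =
        qq 0 (-8 * gs) - (1 + gs + bb * (gs * (starRingEnd ℂ) gs) + cc * (starRingEnd ℂ) gs ^ 2) := by
      show (pp 0 0).1 - (1 + hh gs 0) = _
      rw [pp_zero, hh]
      ring
    have p2 : (pp 0 0 - (start gs).1).2 = zeta * (qq 0 (-8 * (zeta * gs)) - (1 + zeta * gs +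
        bb * (zeta * gs * (starRingEnd ℂ) (zeta * gs)) + cc * (starRingEnd ℂ) (zeta * gs) ^ 2)) := by
      show (pp 0 0).2 - (zeta * (1 + hh gs 1)) = _
      rw [pp_zero, hh, hc]
      linear_combination (zeta * bb * gs * (starRingEnd ℂ) gs + zeta ^ 2 * cc * (starRingEnd ℂ) gs ^ 2) * z3
    have q1 : ‖(pp 0 0 - (start gs).1).1‖ ≤ 3 * ‖gs‖ ^ 3 := by rw [p1]; exact a0
    have q2 : ‖(pp 0 0 - (start gs).1).2‖ ≤ 3 * ‖gs‖ ^ 3 := by rw [p2, norm_mul, nz, one_mul]; exact a1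
    have c0 : 0 ≤ ‖gs‖ ^ 3 := by positivity
    refine (nn_le (M := 6 * ‖gs‖ ^ 3) (by linarith) (by linarith) ?_).trans (by nlinarith)
    exact (norm_add_le _ _).trans (by linarith)
  · have p1 : (pp 1 0 - (start gs).2).1 =
        qq 1 (-8 * gs) - (mux 0 0 + mux 1 0 * gs + mux 1 1 * bb * (gs * (starRingEnd ℂ) gs) +
          mux 0 2 * cc * (starRingEnd ℂ) gs ^ 2) := by
      show (pp 1 0).1 - (I * (1 + hh gs 0) + hd gs 0) = _
      rw [pp_zero, hh, hd, m00, m10, m11, m02]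
      ring
    have p2 : (pp 1 0 - (start gs).2).2 = zeta * (qq 1 (-8 * (zeta * gs)) - (mux 0 0 + mux 1 0 * (zeta * gs) +
        mux 1 1 * bb * (zeta * gs * (starRingEnd ℂ) (zeta * gs)) +
          mux 0 2 * cc * (starRingEnd ℂ) (zeta * gs) ^ 2)) := by
      show (pp 1 0).2 - (zeta * (I * (1 + hh gs 1) + hd gs 1)) = _
      rw [pp_zero, hh, hd, m00, m10, m11, m02, hc]
      linear_combination (zeta * (l0 + (starRingEnd ℂ) l0 + I) * bb * gs * (starRingEnd ℂ) gs +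
        zeta ^ 2 * (2 * (starRingEnd ℂ) l0 + I) * cc * (starRingEnd ℂ) gs ^ 2) * z3
    have q1 : ‖(pp 1 0 - (start gs).2).1‖ ≤ 12 * ‖gs‖ ^ 3 := by rw [p1]; exact b0
    have q2 : ‖(pp 1 0 - (start gs).2).2‖ ≤ 12 * ‖gs‖ ^ 3 := by rw [p2, norm_mul, nz, one_mul]; exact b1
    have c0 : 0 ≤ ‖gs‖ ^ 3 := by positivity
    refine (nn_le (M := 24 * ‖gs‖ ^ 3) (by linarith) (by linarith) ?_).trans (by nlinarith)
    exact (norm_add_le _ _).trans (by linarith)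

end Pool.Agent.H60.TB
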