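import Pool.Agent.H60.TB.Sp

/-! Kernel checks of complex bivariate polynomial inequalities, and their meaning. -/

set_option autoImplicit false

open Polynomial Finset H60Box

namespace Pool.Agent.H60.TB

/-- product of complex numbers given as pairs -/
def gm {R : Type} [Mul R] [Add R] [Sub R] (x y : R × R) : R × R :=
  (x.1 * y.1 - x.2 * y.2, x.1 * y.2 + x.2 * y.1)

def gn (x y : ℕ × ℕ) : ℕ × ℕ := (x.1 * y.1 + x.2 * y.2, x.1 * y.2 + x.2 * y.1)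

def RepG (x : ℤ[X][X] × ℤ[X][X]) (d : ℕ) (B : ℕ × ℕ) : Prop := Rep x.1 d d B.1 ∧ Rep x.2 d d B.2

theorem RepG.mul {x y : ℤ[X][X] × ℤ[X][X]} {d e : ℕ} {B D : ℕ × ℕ} (hx : RepG x d B)
    (hy : RepG y e D) : RepG (gm x y) (d + e) (gn B D) :=
  ⟨(hx.1.mul hy.1).sub (hx.2.mul hy.2), (hx.1.mul hy.2).add (hx.2.mul hy.1)⟩

/-- the complex value of a pair -/
noncomputable def evG (x : ℤ[X][X] × ℤ[X][X]) (v w : ℂ) : ℂ := evr v w x.1 + evr v w x.2 * Complex.I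

theorem evG_gm (x y : ℤ[X][X] × ℤ[X][X]) (v w : ℂ) : evG (gm x y) v w = evG x v w * evG y v w := by
  simp only [evG, gm, map_add, map_sub, map_mul]
  linear_combination (- (evr v w) x.2 * (evr v w) y.2) * Complex.I_sq

theorem evr_gm (x y : ℤ[X][X] × ℤ[X][X]) (a b : ℤ) :
    (evr a b (gm x y).1, evr a b (gm x y).2) =
      gm (evr a b x.1, evr a b x.2) (evr a b y.1, evr a b y.2) := by
  simp only [gm, map_add, map_sub, map_mul]

noncomputable def pP (l : Sp) : ℤ[X][X] × ℤ[X][X] := (pR l, pI l)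

theorem evG_pP (l : Sp) (v w : ℂ) : evG (pP l) v w = evS l v w := (evr_evS l v w).symm

theorem repG_pP {d : ℕ} {l : Sp} (h : dg d l = true) : RepG (pP l) d (nR l, nI l) :=
  ⟨rep_pR d l h, rep_pI d l h⟩

/-! ### kernel values -/

/-- value at `x = 2^e`, `y = 2^f` -/
def kR (l : Sp) (e f : ℕ) : ℤ :=
  match l with
  | [] => 0
  | (j, k, a, _) :: l => a * ((2 ^ (e * j + f * k) : ℕ) : ℤ) + kR l e f

def kI (l : Sp) (e f : ℕ) : ℤ :=
  match l with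
  | [] => 0
  | (j, k, _, b) :: l => b * ((2 ^ (e * j + f * k) : ℕ) : ℤ) + kI l e f

theorem kR_eq (l : Sp) (e f : ℕ) : kR l e f = vR l (2 ^ e) (2 ^ f) := by
  induction l with
  | nil => rfl
  | cons m l ih =>
    obtain ⟨j, k, a, b⟩ := m
    simp only [kR, vR, ih, pow_add, pow_mul]
    push_cast
    ring

theorem kI_eq (l : Sp) (e f : ℕ) : kI l e f = vI l (2 ^ e) (2 ^ f) := by
  induction l with
  | nil => rfl
  | cons m l ih =>
    obtain ⟨j, k, a, b⟩ := m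
    simp only [kI, vI, ih, pow_add, pow_mul]
    push_cast
    ring

/-- the bound of the coefficient of `v^k w^l`: `γ` in the third class, `0` in degrees `0, 1`,
`α` up to degree `D`, and then geometric decay -/
def tt (c3 : Bool) (γ α β D : ℕ) (l k : ℕ) : ℕ :=
  if (c3 && (k + 2 * l) % 3 == 2) = true then γ
  else if l + k ≤ 1 then 0 else if l + k ≤ D then α else β / 4 ^ (l + k - D - 1)

def maskk (N L : ℕ) : ℕ := 2 ^ N * (((2 ^ (N + 1)) ^ L - 1) / (2 ^ (N + 1) - 1))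

theorem maskk_eq (N L : ℕ) : maskk N L = mask N L := by
  unfold maskk mask ones
  congr 1
  have h : 2 ≤ 2 ^ (N + 1) := by
    calc 2 = 2 ^ 1 := rfl
      _ ≤ 2 ^ (N + 1) := Nat.pow_le_pow_right (by norm_num) (by omega)
  rw [Nat.geomSum_eq h]

/-- `V ± T` have digits of the right signs -/
def okm (T M : ℕ) (V : ℤ) : Bool :=
  ((((T : ℤ) - V + M).toNat &&& M) == M) && ((((T : ℤ) + V + M).toNat &&& M) == M)

/-- total of the bounds, except those of the third class -/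
def totk (c3 : Bool) (α β D n : ℕ) : ℕ := hor2 (tt c3 0 α β D) 1 1 (n + 1) 0 (n + 1)

theorem totk_eq (c3 : Bool) (α β D n : ℕ) : totk c3 α β D n = tot (tt c3 0 α β D) n n := by
  unfold totk tot
  rw [hor2_eq]
  simp

theorem tt_mono (c3 : Bool) (γ α β D l k : ℕ) : tt c3 0 α β D l k ≤ tt c3 γ α β D l k := by
  unfold tt
  split_ifs <;> omega

theorem norm_evr_le {G : ℤ[X][X]} {a b B : ℕ} (hG : Rep G a b B) (t : ℕ → ℕ → ℕ)
    (h : ∀ l k, l ≤ b → k ≤ a → |(G.coeff l).coeff k| ≤ t l k) (ht : ∀ l k, l + k ≤ 1 → t l k = 0)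
    (v w : ℂ) (hv : ‖v‖ ≤ 1) (hw : ‖w‖ = ‖v‖) : ‖evr v w G‖ ≤ tot t a b * ‖v‖ ^ 2 := by
  rw [evr_eq_sum v w hG, tot]
  push_cast
  rw [Finset.sum_mul]
  refine (norm_sum_le _ _).trans (Finset.sum_le_sum fun l hl => ?_)
  rw [Finset.sum_mul]
  refine (norm_sum_le _ _).trans (Finset.sum_le_sum fun k hk => ?_)
  have hl' : l ≤ b := by have := Finset.mem_range.mp hl; omega
  have hk' : k ≤ a := by have := Finset.mem_range.mp hk; omega
  have h1 := h l k hl' hk'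
  have h2 : (|(((G.coeff l).coeff k : ℤ) : ℝ)|) ≤ t l k := by exact_mod_cast h1
  rw [norm_mul, norm_mul, norm_pow, norm_pow, hw, Complex.norm_intCast, mul_assoc, ← pow_add]
  by_cases hlk : l + k ≤ 1
  · rw [ht l k hlk] at h2 ⊢
    have : |(((G.coeff l).coeff k : ℤ) : ℝ)| = 0 := le_antisymm (by simpa using h2) (abs_nonneg _)
    rw [this]; simp
  · have h3 : ‖v‖ ^ (k + l) ≤ ‖v‖ ^ 2 := pow_le_pow_of_le_one (norm_nonneg _) hv (by omega)
    have h4 : (0 : ℝ) ≤ t l k := by positivity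
    gcongr

/-- **meaning of a check without classes** -/
theorem ok_sound {x : ℤ[X][X] × ℤ[X][X]} {n : ℕ} {B : ℕ × ℕ} (hx : RepG x n B) (α β D N : ℕ)
    (hB : tot (tt false 0 α β D) n n + max B.1 B.2 < 2 ^ N) (V : ℤ × ℤ)
    (hV : (evr ((2 : ℤ) ^ (N + 1)) (((2 : ℤ) ^ (N + 1)) ^ (n + 1)) x.1,
      evr ((2 : ℤ) ^ (N + 1)) (((2 : ℤ) ^ (N + 1)) ^ (n + 1)) x.2) = V)
    (h1 : okm (hor2 (tt false 0 α β D) (2 ^ (N + 1)) ((2 ^ (N + 1)) ^ (n + 1)) (n + 1) 0 (n + 1))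
      (maskk N ((n + 1) * (n + 1))) V.1 = true)
    (h2 : okm (hor2 (tt false 0 α β D) (2 ^ (N + 1)) ((2 ^ (N + 1)) ^ (n + 1)) (n + 1) 0 (n + 1))
      (maskk N ((n + 1) * (n + 1))) V.2 = true)
    (v : ℂ) (hv : ‖v‖ ≤ 1) (w : ℂ) (hw : ‖w‖ = ‖v‖) :
    ‖evG x v w‖ ≤ 2 * tot (tt false 0 α β D) n n * ‖v‖ ^ 2 := by
  rw [maskk_eq] at h1 h2
  simp only [okm, Bool.and_eq_true, beq_iff_eq] at h1 h2
  have e1 : evr ((2 : ℤ) ^ (N + 1)) (((2 : ℤ) ^ (N + 1)) ^ (n + 1)) x.1 = V.1 := by rw [← hV]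
  have e2 : evr ((2 : ℤ) ^ (N + 1)) (((2 : ℤ) ^ (N + 1)) ^ (n + 1)) x.2 = V.2 := by rw [← hV]
  have c1 := coeff_le hx.1 (tt false 0 α β D) (lt_of_le_of_lt (by gcongr; exact le_max_left _ _) hB) V.1 e1 h1.1 h1.2
  have c2 := coeff_le hx.2 (tt false 0 α β D) (lt_of_le_of_lt (by gcongr; exact le_max_right _ _) hB) V.2 e2 h2.1 h2.2
  have t0 : ∀ l k, l + k ≤ 1 → tt false 0 α β D l k = 0 := by
    intro l k hlk
    simp [tt, hlk]
  have d1 := norm_evr_le hx.1 _ c1 t0 v w hv hw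
  have d2 := norm_evr_le hx.2 _ c2 t0 v w hv hw
  unfold evG
  refine (norm_add_le _ _).trans ?_
  rw [norm_mul, Complex.norm_I, mul_one]
  linarith

/-- **meaning of a check with classes**: the polynomial is a small part plus a part which is
multiplied by `ζ^2` when `v` is replaced by `ζ v`. -/
theorem split {G : ℤ[X][X]} {n B : ℕ} (hG : Rep G n n B) (γ α β D : ℕ)
    (h : ∀ l k, l ≤ n → k ≤ n → |(G.coeff l).coeff k| ≤ tt true γ α β D l k) {ζ : ℂ} (hζ : ζ ^ 3 = 1) :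
    ∃ R1 R2 : ℂ → ℂ → ℂ, (∀ v w, evr v w G = R1 v w + R2 v w) ∧
      (∀ v w, R2 (ζ * v) (ζ ^ 2 * w) = ζ ^ 2 * R2 v w) ∧
      (∀ v w, ‖v‖ ≤ 1 → ‖w‖ = ‖v‖ → ‖R1 v w‖ ≤ tot (tt true 0 α β D) n n * ‖v‖ ^ 2) := by
  refine ⟨fun v w => ∑ l ∈ range (n + 1), ∑ k ∈ range (n + 1),
      if (k + 2 * l) % 3 = 2 then 0 else (((G.coeff l).coeff k : ℤ) : ℂ) * v ^ k * w ^ l,
    fun v w => ∑ l ∈ range (n + 1), ∑ k ∈ range (n + 1),
      if (k + 2 * l) % 3 = 2 then (((G.coeff l).coeff k : ℤ) : ℂ) * v ^ k * w ^ l else 0, ?_, ?_, ?_⟩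
  · intro v w
    rw [evr_eq_sum v w hG, ← Finset.sum_add_distrib]
    refine Finset.sum_congr rfl fun l _ => ?_
    rw [← Finset.sum_add_distrib]
    refine Finset.sum_congr rfl fun k _ => ?_
    split_ifs <;> simp
  · intro v w
    simp only
    rw [Finset.mul_sum]
    refine Finset.sum_congr rfl fun l _ => ?_
    rw [Finset.mul_sum]
    refine Finset.sum_congr rfl fun k _ => ?_
    split_ifs with hc
    · have e : ζ ^ (k + 2 * l) = ζ ^ 2 := by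
        conv_lhs => rw [← Nat.div_add_mod (k + 2 * l) 3, hc]
        rw [pow_add, pow_mul, hζ, one_pow, one_mul]
      have : (ζ * v) ^ k * (ζ ^ 2 * w) ^ l = ζ ^ 2 * (v ^ k * w ^ l) := by
        have e2 : (ζ * v) ^ k * (ζ ^ 2 * w) ^ l = ζ ^ (k + 2 * l) * (v ^ k * w ^ l) := by
          rw [mul_pow, mul_pow, ← pow_mul, pow_add]; ring
        rw [e2, e]
      calc _ = (((G.coeff l).coeff k : ℤ) : ℂ) * ((ζ * v) ^ k * (ζ ^ 2 * w) ^ l) := by ring
        _ = _ := by rw [this]; ring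
    · simp
  · intro v w hv hw
    simp only
    rw [tot]
    push_cast
    rw [Finset.sum_mul]
    refine (norm_sum_le _ _).trans (Finset.sum_le_sum fun l hl => ?_)
    rw [Finset.sum_mul]
    refine (norm_sum_le _ _).trans (Finset.sum_le_sum fun k hk => ?_)
    have hl' : l ≤ n := by have := Finset.mem_range.mp hl; omega
    have hk' : k ≤ n := by have := Finset.mem_range.mp hk; omega
    have h1 := h l k hl' hk'
    split_ifs with hc
    · rw [norm_zero]; positivity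
    have h2 : (|(((G.coeff l).coeff k : ℤ) : ℝ)|) ≤ tt true 0 α β D l k := by
      have e : tt true 0 α β D l k = tt true γ α β D l k := by
        simp [tt, hc]
      rw [e]
      exact_mod_cast h1
    rw [norm_mul, norm_mul, norm_pow, norm_pow, hw, Complex.norm_intCast, mul_assoc, ← pow_add]
    by_cases hlk : l + k ≤ 1
    · have e : tt true 0 α β D l k = 0 := by
        simp [tt, hlk]
      rw [e] at h2 ⊢
      have : |(((G.coeff l).coeff k : ℤ) : ℝ)| = 0 := le_antisymm (by simpa using h2) (abs_nonneg _)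
      rw [this]; simp
    · have h3 : ‖v‖ ^ (k + l) ≤ ‖v‖ ^ 2 := pow_le_pow_of_le_one (norm_nonneg _) hv (by omega)
      have h4 : (0 : ℝ) ≤ tt true 0 α β D l k := by positivity
      gcongr

theorem ok3_sound {x : ℤ[X][X] × ℤ[X][X]} {n : ℕ} {B : ℕ × ℕ} (hx : RepG x n B) (γ α β D N : ℕ)
    (hB : tot (tt true γ α β D) n n + max B.1 B.2 < 2 ^ N) (V : ℤ × ℤ)
    (hV : (evr ((2 : ℤ) ^ (N + 1)) (((2 : ℤ) ^ (N + 1)) ^ (n + 1)) x.1,
      evr ((2 : ℤ) ^ (N + 1)) (((2 : ℤ) ^ (N + 1)) ^ (n + 1)) x.2) = V)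
    (h1 : okm (hor2 (tt true γ α β D) (2 ^ (N + 1)) ((2 ^ (N + 1)) ^ (n + 1)) (n + 1) 0 (n + 1))
      (maskk N ((n + 1) * (n + 1))) V.1 = true)
    (h2 : okm (hor2 (tt true γ α β D) (2 ^ (N + 1)) ((2 ^ (N + 1)) ^ (n + 1)) (n + 1) 0 (n + 1))
      (maskk N ((n + 1) * (n + 1))) V.2 = true)
    {ζ : ℂ} (hζ : ζ ^ 3 = 1) :
    ∃ R1 R2 : ℂ → ℂ → ℂ, (∀ v w, evG x v w = R1 v w + R2 v w) ∧
      (∀ v w, R2 (ζ * v) (ζ ^ 2 * w) = ζ ^ 2 * R2 v w) ∧
      (∀ v w, ‖v‖ ≤ 1 → ‖w‖ = ‖v‖ → ‖R1 v w‖ ≤ 2 * tot (tt true 0 α β D) n n * ‖v‖ ^ 2) := by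
  rw [maskk_eq] at h1 h2
  simp only [okm, Bool.and_eq_true, beq_iff_eq] at h1 h2
  have e1 : evr ((2 : ℤ) ^ (N + 1)) (((2 : ℤ) ^ (N + 1)) ^ (n + 1)) x.1 = V.1 := by rw [← hV]
  have e2 : evr ((2 : ℤ) ^ (N + 1)) (((2 : ℤ) ^ (N + 1)) ^ (n + 1)) x.2 = V.2 := by rw [← hV]
  have c1 := coeff_le hx.1 (tt true γ α β D) (lt_of_le_of_lt (by gcongr; exact le_max_left _ _) hB) V.1 e1 h1.1 h1.2
  have c2 := coeff_le hx.2 (tt true γ α β D) (lt_of_le_of_lt (by gcongr; exact le_max_right _ _) hB) V.2 e2 h2.1 h2.2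
  obtain ⟨A1, A2, a1, a2, a3⟩ := split hx.1 γ α β D c1 hζ
  obtain ⟨B1, B2, b1, b2, b3⟩ := split hx.2 γ α β D c2 hζ
  refine ⟨fun v w => A1 v w + B1 v w * Complex.I, fun v w => A2 v w + B2 v w * Complex.I, ?_, ?_, ?_⟩
  · intro v w
    simp only [evG, a1, b1]
    ring
  · intro v w
    simp only [a2, b2]
    ring
  · intro v w hv hw
    refine (norm_add_le _ _).trans ?_
    rw [norm_mul, Complex.norm_I, mul_one]
    linarith [a3 v w hv hw, b3 v w hv hw]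

end Pool.Agent.H60.TB
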