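import Pool.Agent.H60.TB.Wd

/-! The two kernel checks. -/

set_option autoImplicit false
set_option maxRecDepth 100000

open H60Box

namespace Pool.Agent.H60.TB

/-- `z ↦ (D + i)² z` up to the factor `2^121`, with `√2` replaced by `r2 / 2^120` -/
def nzl (l : Sp) : Sp := l.map fun m =>
  (m.1, m.2.1,
    ((((m.1 + m.2.1 : ℕ) : ℤ) ^ 2 - 2 * (1 - (m.1 : ℤ) + m.2.1) ^ 2) * ((2 ^ 120 : ℕ) : ℤ)) * m.2.2.1
      - (2 * ((m.1 + m.2.1 : ℕ) : ℤ) * (1 - (m.1 : ℤ) + m.2.1) * (r2 : ℤ)) * m.2.2.2,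
    ((((m.1 + m.2.1 : ℕ) : ℤ) ^ 2 - 2 * (1 - (m.1 : ℤ) + m.2.1) ^ 2) * ((2 ^ 120 : ℕ) : ℤ)) * m.2.2.2
      + (2 * ((m.1 + m.2.1 : ℕ) : ℤ) * (1 - (m.1 : ℤ) + m.2.1) * (r2 : ℤ)) * m.2.2.1)

def kz (N n : ℕ) : ℤ × ℤ := (kR zl (N + 1) ((N + 1) * (n + 1)), kI zl (N + 1) ((N + 1) * (n + 1)))
def kzc (N n : ℕ) : ℤ × ℤ := (kR zl ((N + 1) * (n + 1)) (N + 1), -kI zl ((N + 1) * (n + 1)) (N + 1))
def kb (N n : ℕ) : ℤ × ℤ := (kR bl (N + 1) ((N + 1) * (n + 1)), kI bl (N + 1) ((N + 1) * (n + 1)))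
def kn (N n : ℕ) : ℤ × ℤ :=
  (kR (nzl zl) (N + 1) ((N + 1) * (n + 1)), kI (nzl zl) (N + 1) ((N + 1) * (n + 1)))

/-- `b² z z'` -/
def g1 {R : Type} [Mul R] [Add R] [Sub R] (b z z' : R × R) : R × R := gm (gm b b) (gm z z')

def g2 {R : Type} [Mul R] [Add R] [Sub R] (b z : R × R) : R × R := gm (gm (gm b b) b) z

def n1 : ℕ × ℕ := gn (gn (nR bl, nI bl) (nR bl, nI bl)) (gn (nR zl, nI zl) (nR zl, nI zl))
def n2 : ℕ × ℕ := gn (gn (gn (nR bl, nI bl) (nR bl, nI bl)) (nR bl, nI bl)) (nR zl, nI zl)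

def totg (c3 : Bool) (γ α β D n : ℕ) : ℕ := hor2 (tt c3 γ α β D) 1 1 (n + 1) 0 (n + 1)

theorem totg_eq (c3 : Bool) (γ α β D n : ℕ) : totg c3 γ α β D n = tot (tt c3 γ α β D) n n := by
  unfold totg tot
  rw [hor2_eq]
  simp

def okT (c3 : Bool) (γ α β : ℕ) (N : ℕ) (V : ℤ × ℤ) : Bool :=
  let T := hor2 (tt c3 γ α β 44) (2 ^ (N + 1)) ((2 ^ (N + 1)) ^ (176 + 1)) (176 + 1) 0 (176 + 1)
  let M := maskk N ((176 + 1) * (176 + 1))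
  okm T M V.1 && okm T M V.2

def N1 : ℕ := 607
def N2 : ℕ := 719

def chk1 : Bool :=
  let p := g1 (kb N1 176) (kz N1 176) (kzc N1 176)
  okT false 0 al1 be1 N1 (p.1 - ((2 ^ 576 : ℕ) : ℤ), p.2)

def chk2 : Bool :=
  let p := g2 (kb N2 176) (kz N2 176)
  let q := kn N2 176
  okT true ga2 al2 be2 N2 (((2 ^ 432 : ℕ) : ℤ) * q.1 + ((2 ^ 121 : ℕ) : ℤ) * p.1,
    ((2 ^ 432 : ℕ) : ℤ) * q.2 + ((2 ^ 121 : ℕ) : ℤ) * p.2)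

/-- small checks -/
def chk0 : Bool :=
  dg 44 zl && dg 44 bl && dg 44 (nzl zl) &&
  decide (totg false 0 al1 be1 44 176 + (max (n1.1 + 2 ^ 576) n1.2) < 2 ^ N1) &&
  decide (totg true ga2 al2 be2 44 176 +
    (max (2 ^ 432 * nR (nzl zl) + 2 ^ 121 * n2.1) (2 ^ 432 * nI (nzl zl) + 2 ^ 121 * n2.2)) < 2 ^ N2)

theorem chk0_ok : chk0 = true := by decide +kernel

end Pool.Agent.H60.TB
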