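import Pool.Agent.H60.TB.Wkh

set_option autoImplicit false
set_option maxRecDepth 100000

namespace Pool.Agent.H60.TB

theorem chk1'_ok : chk1' = true := by decide +kernel

theorem chk1_ok : chk1 = true := chk1_eq ▸ chk1'_ok

end Pool.Agent.H60.TB
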