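import Pool.Agent.H60.TB.Wk

/-! The values of the sparse polynomials by Horner's rule (less memory in the kernel). -/

set_option autoImplicit false
set_option maxRecDepth 100000

open Finset

namespace Pool.Agent.H60.TB

/-- row `k` at `v = 2^e` -/
noncomputable def rwR (e k : ℕ) (l : Sp) : ℤ :=
  List.rec (motive := fun _ => ℤ) 0
    (fun m _ ih => bif Nat.beq m.2.1 k then m.2.2.1 * ((2 ^ (e * m.1) : ℕ) : ℤ) + ih else ih) l

noncomputable def rwI (e k : ℕ) (l : Sp) : ℤ :=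
  List.rec (motive := fun _ => ℤ) 0
    (fun m _ ih => bif Nat.beq m.2.1 k then m.2.2.2 * ((2 ^ (e * m.1) : ℕ) : ℤ) + ih else ih) l

noncomputable def hnr (r : ℕ → ℤ) (y : ℤ) (i : ℕ) : ℕ → ℤ :=
  Nat.rec (motive := fun _ => ℕ → ℤ) (fun _ => 0) (fun _ ih k => r k + y * ih (k + 1)) i

theorem hnr_succ (r : ℕ → ℤ) (y : ℤ) (i k : ℕ) : hnr r y (i + 1) k = r k + y * hnr r y i (k + 1) := rfl

theorem hnr_eq (r : ℕ → ℤ) (y : ℤ) (i k : ℕ) : hnr r y i k = ∑ m ∈ range i, r (k + m) * y ^ m := by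
  induction i generalizing k with
  | zero => rfl
  | succ i ih =>
    rw [hnr_succ, ih, Finset.sum_range_succ', Finset.mul_sum, add_comm (r k)]
    congr 1
    · refine Finset.sum_congr rfl fun m _ => ?_
      rw [show k + 1 + m = k + (m + 1) by ring, pow_succ]
      ring
    · simp

theorem rwR_cons (e k j k' : ℕ) (a b : ℤ) (l : Sp) : rwR e k ((j, k', a, b) :: l) =
    (if k' = k then a * ((2 ^ (e * j) : ℕ) : ℤ) else 0) + rwR e k l := by
  have h0 : rwR e k ((j, k', a, b) :: l) =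
      bif Nat.beq k' k then a * ((2 ^ (e * j) : ℕ) : ℤ) + rwR e k l else rwR e k l := rfl
  rw [h0]
  by_cases h : k' = k
  · subst h; simp
  · have h2 : Nat.beq k' k = false := by
      rw [← Bool.not_eq_true, Nat.beq_eq]; exact h
    simp only [h2, cond_false, if_neg h, zero_add]

theorem rwI_cons (e k j k' : ℕ) (a b : ℤ) (l : Sp) : rwI e k ((j, k', a, b) :: l) =
    (if k' = k then b * ((2 ^ (e * j) : ℕ) : ℤ) else 0) + rwI e k l := by
  have h0 : rwI e k ((j, k', a, b) :: l) =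
      bif Nat.beq k' k then b * ((2 ^ (e * j) : ℕ) : ℤ) + rwI e k l else rwI e k l := rfl
  rw [h0]
  by_cases h : k' = k
  · subst h; simp
  · have h2 : Nat.beq k' k = false := by
      rw [← Bool.not_eq_true, Nat.beq_eq]; exact h
    simp only [h2, cond_false, if_neg h, zero_add]

theorem kR_row (d : ℕ) (l : Sp) (h : dg d l = true) (e f : ℕ) :
    kR l e f = ∑ m ∈ range (d + 1), rwR e m l * ((2 ^ f : ℕ) : ℤ) ^ m := by
  induction l with
  | nil => simp [kR, rwR]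
  | cons m l ih =>
    obtain ⟨j, k, a, b⟩ := m
    simp only [dg, Bool.and_eq_true, decide_eq_true_eq] at h
    rw [kR, ih h.2]
    simp only [rwR_cons, add_mul, Finset.sum_add_distrib, ite_mul, zero_mul]
    rw [Finset.sum_ite_eq, if_pos (Finset.mem_range.mpr (by omega))]
    congr 1
    rw [pow_add, pow_mul 2 f k]
    push_cast
    ring

theorem kI_row (d : ℕ) (l : Sp) (h : dg d l = true) (e f : ℕ) :
    kI l e f = ∑ m ∈ range (d + 1), rwI e m l * ((2 ^ f : ℕ) : ℤ) ^ m := by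
  induction l with
  | nil => simp [kI, rwI]
  | cons m l ih =>
    obtain ⟨j, k, a, b⟩ := m
    simp only [dg, Bool.and_eq_true, decide_eq_true_eq] at h
    rw [kI, ih h.2]
    simp only [rwI_cons, add_mul, Finset.sum_add_distrib, ite_mul, zero_mul]
    rw [Finset.sum_ite_eq, if_pos (Finset.mem_range.mpr (by omega))]
    congr 1
    rw [pow_add, pow_mul 2 f k]
    push_cast
    ring

noncomputable def kRh (l : Sp) (e f : ℕ) : ℤ := hnr (fun k => rwR e k l) ((2 ^ f : ℕ) : ℤ) 45 0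
noncomputable def kIh (l : Sp) (e f : ℕ) : ℤ := hnr (fun k => rwI e k l) ((2 ^ f : ℕ) : ℤ) 45 0

theorem kRh_eq (l : Sp) (h : dg 44 l = true) (e f : ℕ) : kRh l e f = kR l e f := by
  rw [kRh, hnr_eq, kR_row 44 l h]
  simp only [zero_add]

theorem kIh_eq (l : Sp) (h : dg 44 l = true) (e f : ℕ) : kIh l e f = kI l e f := by
  rw [kIh, hnr_eq, kI_row 44 l h]
  simp only [zero_add]

/-- exchange of the variables -/
def sw (l : Sp) : Sp := l.map fun m => (m.2.1, m.1, m.2.2.1, m.2.2.2)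

theorem kR_sw (l : Sp) (e f : ℕ) : kR (sw l) e f = kR l f e := by
  induction l with
  | nil => rfl
  | cons m l ih =>
    obtain ⟨j, k, a, b⟩ := m
    simp only [sw, List.map_cons, kR] at ih ⊢
    rw [ih, add_comm (e * k)]

theorem kI_sw (l : Sp) (e f : ℕ) : kI (sw l) e f = kI l f e := by
  induction l with
  | nil => rfl
  | cons m l ih =>
    obtain ⟨j, k, a, b⟩ := m
    simp only [sw, List.map_cons, kI] at ih ⊢
    rw [ih, add_comm (e * k)]

theorem dgz : dg 44 zl = true := by decide +kernel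
theorem dgb : dg 44 bl = true := by decide +kernel
theorem dgsz : dg 44 (sw zl) = true := by decide +kernel
theorem dgnz : dg 44 (nzl zl) = true := by decide +kernel

noncomputable def kz' (N n : ℕ) : ℤ × ℤ := (kRh zl (N + 1) ((N + 1) * (n + 1)), kIh zl (N + 1) ((N + 1) * (n + 1)))
noncomputable def kzc' (N n : ℕ) : ℤ × ℤ :=
  (kRh (sw zl) (N + 1) ((N + 1) * (n + 1)), -kIh (sw zl) (N + 1) ((N + 1) * (n + 1)))
noncomputable def kb' (N n : ℕ) : ℤ × ℤ := (kRh bl (N + 1) ((N + 1) * (n + 1)), kIh bl (N + 1) ((N + 1) * (n + 1)))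
noncomputable def kn' (N n : ℕ) : ℤ × ℤ :=
  (kRh (nzl zl) (N + 1) ((N + 1) * (n + 1)), kIh (nzl zl) (N + 1) ((N + 1) * (n + 1)))

theorem kz_eq (N n : ℕ) : kz' N n = kz N n := by
  rw [kz', kz, kRh_eq _ dgz, kIh_eq _ dgz]
theorem kb_eq (N n : ℕ) : kb' N n = kb N n := by
  rw [kb', kb, kRh_eq _ dgb, kIh_eq _ dgb]
theorem kn_eq (N n : ℕ) : kn' N n = kn N n := by
  rw [kn', kn, kRh_eq _ dgnz, kIh_eq _ dgnz]
theorem kzc_eq (N n : ℕ) : kzc' N n = kzc N n := by
  rw [kzc', kzc, kRh_eq _ dgsz, kIh_eq _ dgsz, kR_sw, kI_sw]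

/-! ### the bounds -/

def tth (c3 : Bool) (γ α β D l k : ℕ) : ℕ :=
  bif c3 && Nat.beq ((k + 2 * l) % 3) 2 then γ
  else bif Nat.ble (l + k) 1 then 0 else bif Nat.ble (l + k) D then α else β / 4 ^ (l + k - D - 1)

theorem tth_eq (c3 : Bool) (γ α β D l k : ℕ) : tth c3 γ α β D l k = tt c3 γ α β D l k := by
  unfold tth tt
  have h1 : Nat.beq ((k + 2 * l) % 3) 2 = ((k + 2 * l) % 3 == 2) := by
    rw [Bool.eq_iff_iff, Nat.beq_eq, beq_iff_eq]
  rw [h1]
  cases h2 : (c3 && (k + 2 * l) % 3 == 2)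
  · simp only [cond_false, Bool.false_eq_true, if_false]
    by_cases h3 : l + k ≤ 1
    · rw [if_pos h3, Nat.ble_eq_true_of_le h3, cond_true]
    · have : Nat.ble (l + k) 1 = false := by
        rw [← Bool.not_eq_true, Nat.ble_eq]; exact h3
      rw [if_neg h3, this, cond_false]
      by_cases h4 : l + k ≤ D
      · rw [if_pos h4, Nat.ble_eq_true_of_le h4, cond_true]
      · have : Nat.ble (l + k) D = false := by
          rw [← Bool.not_eq_true, Nat.ble_eq]; exact h4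
        rw [if_neg h4, this, cond_false]
  · simp

noncomputable def horh (t : ℕ → ℕ) (x : ℕ) (n : ℕ) : ℕ → ℕ :=
  Nat.rec (motive := fun _ => ℕ → ℕ) (fun _ => 0) (fun _ ih i => t i + x * ih (i + 1)) n

noncomputable def hor2h (t : ℕ → ℕ → ℕ) (x y a : ℕ) (n : ℕ) : ℕ → ℕ :=
  Nat.rec (motive := fun _ => ℕ → ℕ) (fun _ => 0) (fun _ ih i => horh (t i) x a 0 + y * ih (i + 1)) n

theorem horh_eq (t : ℕ → ℕ) (x n i : ℕ) : horh t x n i = hor t x i n := by
  induction n generalizing i with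
  | zero => rfl
  | succ n ih =>
    have : horh t x (n + 1) i = t i + x * horh t x n (i + 1) := rfl
    rw [this, ih, hor]

theorem hor2h_eq (t : ℕ → ℕ → ℕ) (x y a n i : ℕ) : hor2h t x y a n i = hor2 t x y a i n := by
  induction n generalizing i with
  | zero => rfl
  | succ n ih =>
    have : hor2h t x y a (n + 1) i = horh (t i) x a 0 + y * hor2h t x y a n (i + 1) := rfl
    rw [this, ih, hor2, horh_eq]

noncomputable def okT' (c3 : Bool) (γ α β : ℕ) (N : ℕ) (V : ℤ × ℤ) : Bool :=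
  let T := hor2h (tth c3 γ α β 44) (2 ^ (N + 1)) ((2 ^ (N + 1)) ^ (176 + 1)) (176 + 1) (176 + 1) 0
  let M := maskk N ((176 + 1) * (176 + 1))
  okm T M V.1 && okm T M V.2

theorem okT_eq (c3 : Bool) (γ α β : ℕ) (N : ℕ) (V : ℤ × ℤ) : okT' c3 γ α β N V = okT c3 γ α β N V := by
  have h : tth c3 γ α β 44 = tt c3 γ α β 44 := by
    funext l k; exact tth_eq _ _ _ _ _ _ _
  unfold okT' okT
  rw [hor2h_eq, h]

noncomputable def chk1' : Bool :=
  let p := g1 (kb' N1 176) (kz' N1 176) (kzc' N1 176)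
  okT' false 0 al1 be1 N1 (p.1 - ((2 ^ 576 : ℕ) : ℤ), p.2)

noncomputable def chk2' : Bool :=
  let p := g2 (kb' N2 176) (kz' N2 176)
  let q := kn' N2 176
  okT' true ga2 al2 be2 N2 (((2 ^ 432 : ℕ) : ℤ) * q.1 + ((2 ^ 121 : ℕ) : ℤ) * p.1,
    ((2 ^ 432 : ℕ) : ℤ) * q.2 + ((2 ^ 121 : ℕ) : ℤ) * p.2)

theorem chk1_eq : chk1' = chk1 := by
  unfold chk1' chk1
  rw [kz_eq, kb_eq, kzc_eq]
  exact okT_eq _ _ _ _ _ _

theorem chk2_eq : chk2' = chk2 := by
  unfold chk2' chk2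
  rw [kz_eq, kb_eq, kn_eq]
  exact okT_eq _ _ _ _ _ _

end Pool.Agent.H60.TB
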