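import Pool.Agent.H60.TB.Start
import Pool.Agent.H60.TB.End
import Pool.Agent.H3.LG.Sym
import Pool.Agent.H3.LG.Cmp
import Pool.Agent.H3.LP.Asm

/-! WU (projects 3L, 3LP, MP_6e7c44_mp): from `start g` to `P0`. -/

set_option autoImplicit false

open Complex Set
open Pool.Agent.H99.TB hiding Ph acc phaseSpace IsSol
open Pool.Agent.H3.LG

namespace Pool.Agent.H60.TB

theorem wu_of (hG : S_GRON) : Pool.Agent.H3.LP.S_WU' := by
  obtain ⟨g0, g1, s0, s1⟩ := start_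
  obtain ⟨η, hη, h⟩ := hG
  refine ⟨gs, g0, g1.trans (by norm_num), η, hη, fun m hm γ hγ ha hb => ?_⟩
  have hg3 : ‖gs‖ ^ 3 ≤ (4 / 10 ^ 35) ^ 3 := pow_le_pow_left₀ (norm_nonneg _) g1 3
  have hs : (10 ^ 5 + 100) * ‖gs‖ ^ 3 ≤ 1 / 10 ^ 98 := by
    refine (mul_le_mul_of_nonneg_left hg3 (by norm_num)).trans ?_
    norm_num
  have hp3 : 0 ≤ ‖gs‖ ^ 3 := by positivity
  have a0 : nn ((γ 0).1 - pp 0 0) ≤ 1 / 10 ^ 98 := by
    have e : (γ 0).1 - pp 0 0 = ((γ 0).1 - (start gs).1) - (pp 0 0 - (start gs).1) := by abel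
    rw [e]
    refine (nn_sub_le _ _).trans ?_
    linarith
  have a1 : nn ((γ 0).2 - pp 1 0) ≤ 1 / 10 ^ 98 := by
    have e : (γ 0).2 - pp 1 0 = ((γ 0).2 - (start gs).2) - (pp 1 0 - (start gs).2) := by abel
    rw [e]
    refine (nn_sub_le _ _).trans ?_
    linarith
  obtain ⟨b1, b2, b3⟩ := h m hm γ hγ (pp 0) (pp 1) (pp 2) (pp_hasDerivAt 0) (pp_hasDerivAt 1)
    (fun t ht => pp_res ht) (fun t ht => pp_sides ht) (fun t ht => pp_vel ht) a0 a1
  refine ⟨110, by norm_num, b1, cexp (110 * I), by rw [← ph_end]; exact norm_ph _, ?_⟩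
  have h1 : ‖γ 110 - ((pp 0 110, pp 1 110) : E × E)‖ ≤ 8 / 10 ^ 29 := by
    rw [Prod.norm_def]
    exact max_le ((Sy.norm_le_nn _).trans b2) ((Sy.norm_le_nn _).trans b3)
  have h2 := end_
  unfold S_END at h2
  have e : γ 110 - rot (cexp (110 * I)) Pool.Agent.H99.LG.P0 = (γ 110 - ((pp 0 110, pp 1 110) : E × E)) +
      (((pp 0 110, pp 1 110) : E × E) - rot (cexp (110 * I)) Pool.Agent.H99.LG.P0) := by abel
  rw [e]
  refine (norm_add_le _ _).trans ?_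
  refine (add_le_add h1 h2).trans ?_
  norm_num

end Pool.Agent.H60.TB
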