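import Pool.Agent.H3.LG.GoesAsm
import Pool.Agent.H60.TB.Wd

/-! WU (project 3L, MP_6e7c44_mp): the piece from `start g` to `P0`. Definitions and statements of its parts. -/

set_option autoImplicit false

open Complex Set
open Pool.Agent.H99.TB hiding Ph acc phaseSpace IsSol
open Pool.Agent.H3.LG

namespace Pool.Agent.H60.TB

/-- exponent of the monomial `v^j conj(v)^k` (inertial frame) -/
noncomputable def mux (j k : ℕ) : ℂ := ⟨((j : ℝ) + k) / Real.sqrt 2, 1 - (j : ℝ) + k⟩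

/-- `∑ c μ^n ω^j conj(ω)^k e^{μ (t - 110)}` over the monomials `c v^j conj(v)^k` of the list -/
noncomputable def ex (n : ℕ) : Sp → ℂ → ℝ → ℂ
  | [], _, _ => 0
  | (j, k, a, b) :: l, ω, t => ((a : ℂ) + (b : ℂ) * I) * mux j k ^ n * ω ^ j * (starRingEnd ℂ) ω ^ k *
      cexp (mux j k * ((t - 110 : ℝ) : ℂ)) + ex n l ω t

/-- the parameter at the end, `v = - 8 g` -/
noncomputable def vf : ℂ := ⟨1179 / 1250, -(396 / 1250)⟩

/-- the start parameter: `g e^{110 l0} = - vf / 8` -/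
noncomputable def gs : ℂ := -(vf / 8) * cexp (-(110 * l0))

/-- the `n`-th derivative of the approximate solution, `0 ≤ t ≤ 110` -/
noncomputable def pp (n : ℕ) (t : ℝ) : E :=
  (cexp (110 * I) * (ex n zl vf t / 2 ^ 144), cexp (110 * I) * (zeta * (ex n zl (zeta * vf) t / 2 ^ 144)))

noncomputable def xx (t : ℝ) : ℝ := Real.exp ((t - 110) / Real.sqrt 2)

/-- WU-GRON: comparison (LG-CMP `compare2` three times: `x ≤ 1/128`, `1/128 ≤ x ≤ 1/8`, `1/8 ≤ x ≤ 1`, `x = xx t`).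
PROOF. `xx` increases from `e^{-70.7..}` to `1`. Masses: `nn (rf kep m x - rf kep (1/3) x) ≤ 20 η` if all sides `≥ 4/5`
(`‖kep‖ = ‖x‖^{-2} ≤ 2`), `η = 10^{-200}`. On `[α, β]` take `b t = C e^{κ₁ (t-α)}` with
(1) `r = 1 - 3/20/128 - R`, `κ = 1.417`, `κ₁ = 1.42`, `C = 7·10^{-98}` (`≥ 1.417 · 10^{-98} + 5·10^{-33} x(0)²/0.003`,
`x(0)² = e^{-110√2} ≤ 2.8·10^{-68}`), end `t₁ = 110 - √2 log 128 ≤ 103.139`: `b ≤ 7e-98 e^{146.46} ≤ 3e-34`;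
(2) `r = 1 - 3/20/8 - R`, `κ = 1.456`, `κ₁ = 1.47`, length `√2 log 16 ≤ 3.922`, factor `e^{5.77} ≤ 325`;
(3) `r = 17/20 - R`, `κ = 1.805`, `κ₁ = 1.82`, length `√2 log 8 ≤ 2.941`, factor `e^{5.36} ≤ 214`; all with `R = 10^{-20}`;
multiply by the quotients of the `κ` at the nodes. -/
def S_GRON : Prop := ∃ η : ℝ, 0 < η ∧ ∀ m : Fin 3 → ℝ, Near3 m η → ∀ γ : ℝ → E × E, Sol m γ →
  ∀ p pd pdd : ℝ → E, (∀ t, HasDerivAt p (pd t) t) → (∀ t, HasDerivAt pd (pdd t) t) →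
  (∀ t ∈ Icc (0 : ℝ) 110, nn (pdd t - rf kep (1 / 3) (1 / 3) (1 / 3) (p t)) ≤ 5 / 10 ^ 33 * xx t ^ 2) →
  (∀ t ∈ Icc (0 : ℝ) 110, 1 - 3 / 20 * xx t ≤ ‖(p t).1‖ ∧ 1 - 3 / 20 * xx t ≤ ‖(p t).2‖ ∧
    1 - 3 / 20 * xx t ≤ ‖(p t).1 + (p t).2‖) →
  (∀ t ∈ Icc (0 : ℝ) 110, ‖(pd t).1‖ ≤ 3 ∧ ‖(pd t).2‖ ≤ 3) →
  nn ((γ 0).1 - p 0) ≤ 1 / 10 ^ 98 → nn ((γ 0).2 - pd 0) ≤ 1 / 10 ^ 98 →
  (∀ t ∈ Icc (0 : ℝ) 110, Fine (γ t)) ∧ nn ((γ 110).1 - p 110) ≤ 8 / 10 ^ 29 ∧ nn ((γ 110).2 - pd 110) ≤ 8 / 10 ^ 29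

/-- WU-END: the value of the polynomial at `t = 110` (all exponentials are `1`; error about `10^{-35}`).
PROOF. `ω = ζ vf`: `ω^j conj(ω)^k = ζ^{j-k} vf^j conj(vf)^k`, and `j - k ≡ 0, 1 mod 3` for all monomials of `zl`
(decide), so `ex n zl (ζ vf) 110 = ex n (class 0) vf 110 + ζ ex n (class 1) vf 110`; `mux j k = (j+k)/√2 + i(1-j+k)`; so all
are combinations of 6 Gaussian integers `∑ c w_{jk} (1179 - 396 i)^j (1179 + 396 i)^k 1250^(44-j-k)`, computed by the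
kernel, with `√2`, `√3`, which are bounded by rationals (40 digits). -/
def S_END : Prop := ‖((pp 0 110, pp 1 110) : E × E) - rot (cexp (110 * I)) Pool.Agent.H99.LG.P0‖ ≤ 1 / 10 ^ 30

/-- WU-START: at `t = 0` the polynomial agrees with helper3's second order point.
PROOF. `ω e^{-110 l0} = v`, `pp 0 0 = ζ^a ∑ c v^j conj(v)^k / 2^144` with `v = - 8 ζ^a gs`, `‖gs‖ = ‖vf‖/8 e^{-110/√2}`. The
coefficients of degree `≤ 2` of `zl` are `1`, `-1/8`, and (within `2^-144`) `bb/64`, `cc/64`; the sum of the others is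
at most `(8‖gs‖)^3` times the sum of their absolute values (kernel: times `512` it is `< 1`, with factors `j+k+1` for
the derivative `< 10`). -/
def S_START : Prop := gs ≠ 0 ∧ ‖gs‖ ≤ 4 / 10 ^ 35 ∧ nn (pp 0 0 - (start gs).1) ≤ 20 * ‖gs‖ ^ 3 ∧
  nn (pp 1 0 - (start gs).2) ≤ 100 * ‖gs‖ ^ 3

end Pool.Agent.H60.TB
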